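import Mathlib

set_option autoImplicit false

namespace Pool.Agent.H642R3.Q

open Finset

variable {ι : Type}

/-- number of members of `D` with `f q = y` -/
def cnt (D : Finset ι) (f : ι → ℤ) (y : ℤ) : ℕ := (D.filter (fun q => f q = y)).card

lemma cnt_sum (D : Finset ι) (f : ι → ℤ) (W : Finset ℤ) :
    ∑ y ∈ W, cnt D f y = (D.filter (fun q => f q ∈ W)).card := by
  unfold cnt
  rw [card_eq_sum_card_fiberwise (f := f) (t := W) (s := D.filter (fun q => f q ∈ W))
    (by intro x hx; exact (mem_filter.1 hx).2)]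
  apply sum_congr rfl
  intro y hy
  congr 1
  ext q
  simp only [mem_filter]
  constructor
  · rintro ⟨h1, h2⟩
    exact ⟨⟨h1, by rw [h2]; exact hy⟩, h2⟩
  · rintro ⟨⟨h1, -⟩, h2⟩
    exact ⟨h1, h2⟩

lemma cnt_congr (D : Finset ι) {f g : ι → ℤ} {y z : ℤ} (h : ∀ q ∈ D, (f q = y ↔ g q = z)) :
    cnt D f y = cnt D g z := by
  unfold cnt
  rw [filter_congr h]

lemma cnt_pos_iff (D : Finset ι) (f : ι → ℤ) (y : ℤ) : 0 < cnt D f y ↔ ∃ q ∈ D, f q = y := by
  unfold cnt
  rw [card_pos]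
  constructor
  · rintro ⟨q, hq⟩
    exact ⟨q, (mem_filter.1 hq).1, (mem_filter.1 hq).2⟩
  · rintro ⟨q, h1, h2⟩
    exact ⟨q, mem_filter.2 ⟨h1, h2⟩⟩

/-- domination of the board `[0,2m]²` by `m` queens -/
structure Dom (m : ℕ) (D : Finset ι) (X Y : ι → ℤ) : Prop where
  card : D.card = m
  rX : ∀ q ∈ D, 0 ≤ X q ∧ X q ≤ 2 * m
  rY : ∀ q ∈ D, 0 ≤ Y q ∧ Y q ≤ 2 * m
  dom : ∀ x y : ℤ, 0 ≤ x → x ≤ 2 * m → 0 ≤ y → y ≤ 2 * m →
    ∃ q ∈ D, x = X q ∨ y = Y q ∨ x - y = X q - Y q ∨ x + y = X q + Y q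

namespace Dom

variable {m : ℕ} {D : Finset ι} {X Y : ι → ℤ}

lemma swap (h : Dom m D X Y) : Dom m D Y X where
  card := h.card
  rX := h.rY
  rY := h.rX
  dom := by
    intro x y h1 h2 h3 h4
    obtain ⟨q, hq, hh⟩ := h.dom y x h3 h4 h1 h2
    refine ⟨q, hq, ?_⟩
    rcases hh with hh | hh | hh | hh
    · exact Or.inr (Or.inl hh)
    · exact Or.inl hh
    · right; right; left; omega
    · right; right; right; omega

/-- the window count -/
theorem core (h : Dom m D X Y) {a δ s : ℤ} (hδ : 0 < δ) (ha : 0 ≤ a) (hb : a + δ ≤ 2 * m)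
    (hea : ∀ q ∈ D, X q ≠ a) (heb : ∀ q ∈ D, X q ≠ a + δ) (hs : 0 ≤ s) (hs2 : s + δ ≤ 2 * m + 1) :
    δ ≤ m + ((D.filter (fun q => Y q ∈ Ico s (s + δ))).card : ℤ) ∧
    (δ = m + ((D.filter (fun q => Y q ∈ Ico s (s + δ))).card : ℤ) →
      (∀ y ∈ Ico s (s + δ), cnt D Y y + cnt D (fun q => Y q - X q + a) y + cnt D (fun q => X q + Y q - a) y = 1 ∧
        cnt D Y y + cnt D (fun q => Y q - X q + (a + δ)) y + cnt D (fun q => X q + Y q - (a + δ)) y = 1) ∧
      (∀ q ∈ D, (Y q - X q + a ∈ Ico s (s + δ) ∨ Y q - X q + (a + δ) ∈ Ico s (s + δ)) ∧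
        (X q + Y q - a ∈ Ico s (s + δ) ∨ X q + Y q - (a + δ) ∈ Ico s (s + δ)))) := by
  classical
  set W := Ico s (s + δ) with hW
  set Na : ℤ → ℕ := fun y => cnt D Y y + cnt D (fun q => Y q - X q + a) y + cnt D (fun q => X q + Y q - a) y with hNa
  set Nb : ℤ → ℕ := fun y => cnt D Y y + cnt D (fun q => Y q - X q + (a + δ)) y
    + cnt D (fun q => X q + Y q - (a + δ)) y with hNb
  have na1 : ∀ y ∈ W, 1 ≤ Na y := by
    intro y hy
    rw [hW, mem_Ico] at hy
    obtain ⟨q, hq, hh⟩ := h.dom a y ha (by omega) (by omega) (by omega)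
    have e1 := cnt_pos_iff D Y y
    have e2 := cnt_pos_iff D (fun q => Y q - X q + a) y
    have e3 := cnt_pos_iff D (fun q => X q + Y q - a) y
    simp only [hNa]
    rcases hh with hh | hh | hh | hh
    · exact absurd hh.symm (hea q hq)
    · have := e1.2 ⟨q, hq, hh.symm⟩; omega
    · have := e2.2 ⟨q, hq, by omega⟩; omega
    · have := e3.2 ⟨q, hq, by omega⟩; omega
  have nb1 : ∀ y ∈ W, 1 ≤ Nb y := by
    intro y hy
    rw [hW, mem_Ico] at hy
    obtain ⟨q, hq, hh⟩ := h.dom (a + δ) y (by omega) (by omega) (by omega) (by omega)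
    have e1 := cnt_pos_iff D Y y
    have e2 := cnt_pos_iff D (fun q => Y q - X q + (a + δ)) y
    have e3 := cnt_pos_iff D (fun q => X q + Y q - (a + δ)) y
    simp only [hNb]
    rcases hh with hh | hh | hh | hh
    · exact absurd hh.symm (heb q hq)
    · have := e1.2 ⟨q, hq, hh.symm⟩; omega
    · have := e2.2 ⟨q, hq, by omega⟩; omega
    · have := e3.2 ⟨q, hq, by omega⟩; omega
  have tot : ∑ y ∈ W, (Na y + Nb y) = 2 * (D.filter (fun q => Y q ∈ W)).card
      + ((D.filter (fun q => Y q - X q + a ∈ W)).card + (D.filter (fun q => Y q - X q + (a + δ) ∈ W)).card)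
      + ((D.filter (fun q => X q + Y q - a ∈ W)).card + (D.filter (fun q => X q + Y q - (a + δ) ∈ W)).card) := by
    rw [← cnt_sum D Y W, ← cnt_sum D (fun q => Y q - X q + a) W, ← cnt_sum D (fun q => Y q - X q + (a + δ)) W,
      ← cnt_sum D (fun q => X q + Y q - a) W, ← cnt_sum D (fun q => X q + Y q - (a + δ)) W]
    rw [mul_sum, ← sum_add_distrib, ← sum_add_distrib, ← sum_add_distrib, ← sum_add_distrib]
    apply sum_congr rfl
    intro y _
    simp only [hNa, hNb]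
    ring
  have cW : (W.card : ℤ) = δ := by rw [hW, Int.card_Ico]; omega
  -- disjoint filters
  have dd : (D.filter (fun q => Y q - X q + a ∈ W)).card + (D.filter (fun q => Y q - X q + (a + δ) ∈ W)).card
      = (D.filter (fun q => Y q - X q + a ∈ W ∨ Y q - X q + (a + δ) ∈ W)).card := by
    rw [filter_or, card_union_of_disjoint]
    rw [disjoint_left]
    intro q h1 h2
    rw [mem_filter, hW, mem_Ico] at h1 h2
    omega
  have ds : (D.filter (fun q => X q + Y q - a ∈ W)).card + (D.filter (fun q => X q + Y q - (a + δ) ∈ W)).card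
      = (D.filter (fun q => X q + Y q - a ∈ W ∨ X q + Y q - (a + δ) ∈ W)).card := by
    rw [filter_or, card_union_of_disjoint]
    rw [disjoint_left]
    intro q h1 h2
    rw [mem_filter, hW, mem_Ico] at h1 h2
    omega
  have ld : (D.filter (fun q => Y q - X q + a ∈ W ∨ Y q - X q + (a + δ) ∈ W)).card ≤ m := by
    rw [← h.card]; exact card_filter_le _ _
  have ls : (D.filter (fun q => X q + Y q - a ∈ W ∨ X q + Y q - (a + δ) ∈ W)).card ≤ m := by
    rw [← h.card]; exact card_filter_le _ _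
  rw [dd, ds] at tot
  have low : 2 * W.card ≤ ∑ y ∈ W, (Na y + Nb y) := by
    have : ∑ y ∈ W, 2 ≤ ∑ y ∈ W, (Na y + Nb y) := by
      apply sum_le_sum
      intro y hy
      have := na1 y hy
      have := nb1 y hy
      omega
    rw [sum_const, smul_eq_mul] at this
    omega
  refine ⟨by omega, ?_⟩
  intro heq
  have e1 : (D.filter (fun q => Y q - X q + a ∈ W ∨ Y q - X q + (a + δ) ∈ W)).card = D.card := by
    rw [h.card]; omega
  have e2 : (D.filter (fun q => X q + Y q - a ∈ W ∨ X q + Y q - (a + δ) ∈ W)).card = D.card := by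
    rw [h.card]; omega
  have e3 : ∑ y ∈ W, (Na y + Nb y) = ∑ y ∈ W, 2 := by
    rw [sum_const, smul_eq_mul]; omega
  have e4 : ∀ y ∈ W, Na y + Nb y = 2 := by
    intro y hy
    have := (sum_eq_sum_iff_of_le (s := W) (f := fun _ => 2) (g := fun y => Na y + Nb y) (by
      intro i hi
      have := na1 i hi
      have := nb1 i hi
      omega)).1 e3.symm y hy
    exact this.symm
  refine ⟨?_, ?_⟩
  · intro y hy
    have h1 := na1 y hy
    have h2 := nb1 y hy
    have h3 := e4 y hy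
    exact ⟨by show Na y = 1; omega, by show Nb y = 1; omega⟩
  · intro q hq
    have f1 := filter_card_eq e1 q hq
    have f2 := filter_card_eq e2 q hq
    exact ⟨f1, f2⟩

lemma outs (h : Dom m D X Y) {s δ : ℤ} (Out : Finset ℤ)
    (hO : ∀ y ∈ Out, (∃ q ∈ D, Y q = y) ∧ y ∉ Ico s (s + δ)) :
    Out.card + (D.filter (fun q => Y q ∈ Ico s (s + δ))).card ≤ m := by
  classical
  have h1 : Out ⊆ (D.filter (fun q => ¬ Y q ∈ Ico s (s + δ))).image Y := by
    intro y hy
    obtain ⟨⟨q, hq, rfl⟩, h2⟩ := hO y hy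
    exact mem_image.2 ⟨q, mem_filter.2 ⟨hq, h2⟩, rfl⟩
  have h2 := card_le_card h1
  have h3 : ((D.filter (fun q => ¬ Y q ∈ Ico s (s + δ))).image Y).card ≤
      (D.filter (fun q => ¬ Y q ∈ Ico s (s + δ))).card := card_image_le
  have h4 := card_filter_add_card_filter_not (s := D) (fun q => Y q ∈ Ico s (s + δ))
  have h5 := h.card
  omega

lemma half (h : Dom m D X Y) {a δ c d : ℤ} (hδ : 0 < δ) (ha : 0 ≤ a) (hb : a + δ ≤ 2 * m)
    (hea : ∀ q ∈ D, X q ≠ a) (heb : ∀ q ∈ D, X q ≠ a + δ) (hc : 0 ≤ c) (hd : d ≤ 2 * m)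
    (hcd : d - c ≤ δ)
    (occ : ∀ y : ℤ, 0 ≤ y → y ≤ 2 * m → (y < c ∨ d < y) → ∃ q ∈ D, Y q = y) : d - c = δ := by
  by_contra hne
  have hlt : d < c + δ := by omega
  by_cases h1 : c ≤ 2 * m + 1 - δ
  · have k1 := (h.core hδ ha hb hea heb hc (by omega)).1
    have k2 := h.outs (s := c) (δ := δ) (Ico 0 c ∪ Icc (c + δ) (2 * m)) (by
      intro y hy
      rw [mem_union, mem_Ico, mem_Icc] at hy
      rw [mem_Ico]
      refine ⟨occ y (by omega) (by omega) (by omega), by omega⟩)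
    rw [card_union_of_disjoint (by
      rw [disjoint_left]; intro y hy hy2; rw [mem_Ico] at hy; rw [mem_Icc] at hy2; omega),
      Int.card_Ico, Int.card_Icc] at k2
    omega
  · have k1 := (h.core (s := 2 * m + 1 - δ) hδ ha hb hea heb (by omega) (by omega)).1
    have k2 := h.outs (s := 2 * m + 1 - δ) (δ := δ) (Ico 0 (2 * m + 1 - δ)) (by
      intro y hy
      rw [mem_Ico] at hy
      rw [mem_Ico]
      refine ⟨occ y (by omega) (by omega) (by omega), by omega⟩)
    rw [Int.card_Ico] at k2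
    omega

/-- first and last empty column -/
lemma ends (h : Dom m D X Y) : ∃ a b : ℤ, 0 ≤ a ∧ a ≤ b ∧ b ≤ 2 * m ∧ (m : ℤ) ≤ b - a ∧
    (∀ q ∈ D, X q ≠ a) ∧ (∀ q ∈ D, X q ≠ b) ∧
    (∀ x : ℤ, 0 ≤ x → x ≤ 2 * m → (x < a ∨ b < x) → ∃ q ∈ D, X q = x) := by
  classical
  set E := (Icc (0 : ℤ) (2 * m)) \ D.image X with hE
  have hc : m + 1 ≤ E.card := by
    have h1 := le_card_sdiff (D.image X) (Icc (0 : ℤ) (2 * m))
    have h2 : (D.image X).card ≤ D.card := card_image_le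
    rw [Int.card_Icc, ← hE] at h1
    have h3 := h.card
    omega
  have hne : E.Nonempty := by rw [← card_pos]; omega
  have mE : ∀ x, x ∈ E ↔ (0 ≤ x ∧ x ≤ 2 * m) ∧ ∀ q ∈ D, X q ≠ x := by
    intro x
    rw [hE, mem_sdiff, mem_Icc, mem_image]
    constructor
    · rintro ⟨h1, h2⟩
      exact ⟨h1, fun q hq hx => h2 ⟨q, hq, hx⟩⟩
    · rintro ⟨h1, h2⟩
      exact ⟨h1, fun ⟨q, hq, hx⟩ => h2 q hq hx⟩
  obtain ⟨a, haE, hamin⟩ := E.exists_min_image id hne
  obtain ⟨b, hbE, hbmax⟩ := E.exists_max_image id hne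
  simp only [id] at hamin hbmax
  have ha := (mE a).1 haE
  have hb := (mE b).1 hbE
  have hab := hamin b hbE
  have hsub : E ⊆ Icc a b := by
    intro x hx
    rw [mem_Icc]
    exact ⟨hamin x hx, hbmax x hx⟩
  have h4 := card_le_card hsub
  rw [Int.card_Icc] at h4
  refine ⟨a, b, ha.1.1, hab, hb.1.2, by omega, ha.2, hb.2, ?_⟩
  intro x h0 h1 h2
  by_contra hcon
  push Not at hcon
  have hxE : x ∈ E := (mE x).2 ⟨⟨h0, h1⟩, hcon⟩
  have := hamin x hxE
  have := hbmax x hxE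
  omega

/-- box data -/
structure Box (m : ℕ) (D : Finset ι) (X Y : ι → ℤ) (a c δ : ℤ) : Prop where
  hδ : 0 < δ
  hmδ : (m : ℤ) ≤ δ
  a0 : 0 ≤ a
  aδ : a + δ ≤ 2 * m
  c0 : 0 ≤ c
  cδ : c + δ ≤ 2 * m
  ea : ∀ q ∈ D, X q ≠ a
  eb : ∀ q ∈ D, X q ≠ a + δ
  ec : ∀ q ∈ D, Y q ≠ c
  ed : ∀ q ∈ D, Y q ≠ c + δ
  oX : ∀ x : ℤ, 0 ≤ x → x ≤ 2 * m → (x < a ∨ a + δ < x) → ∃ q ∈ D, X q = x
  oY : ∀ x : ℤ, 0 ≤ x → x ≤ 2 * m → (x < c ∨ c + δ < x) → ∃ q ∈ D, Y q = x

lemma Box.swap {a c δ : ℤ} (b : Box m D X Y a c δ) : Box m D Y X c a δ :=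
  ⟨b.hδ, b.hmδ, b.c0, b.cδ, b.a0, b.aδ, b.ec, b.ed, b.ea, b.eb, b.oY, b.oX⟩

theorem exists_box (h : Dom m D X Y) (hm : 1 ≤ m) : ∃ a c δ : ℤ, Box m D X Y a c δ := by
  obtain ⟨a, b, a1, a2, a3, a4, a5, a6, a7⟩ := h.ends
  obtain ⟨c, d, c1, c2, c3, c4, c5, c6, c7⟩ := h.swap.ends
  have key : b - a = d - c := by
    rcases le_total (d - c) (b - a) with h1 | h1
    · have e1 : a + (b - a) = b := by ring
      have := h.half (a := a) (δ := b - a) (c := c) (d := d) (by omega) a1 (by omega) a5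
        (by rw [e1]; exact a6) c1 c3 h1 c7
      omega
    · have e1 : c + (d - c) = d := by ring
      have := h.swap.half (a := c) (δ := d - c) (c := a) (d := b) (by omega) c1 (by omega) c5
        (by rw [e1]; exact c6) a1 a3 h1 a7
      omega
  have e1 : a + (b - a) = b := by ring
  have e2 : c + (b - a) = d := by omega
  refine ⟨a, c, b - a, ⟨by omega, a4, a1, by omega, c1, by omega, a5, by rw [e1]; exact a6, c5,
    by rw [e2]; exact c6, by rw [e1]; exact a7, by rw [e2]; exact c7⟩⟩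

/-- consequences of the box for rows -/
theorem box_row (h : Dom m D X Y) {a c δ : ℤ} (b : Box m D X Y a c δ) :
    (∀ t, 0 ≤ t → t ≤ δ →
      cnt D Y (c + t) + cnt D (fun q => (Y q - c) - (X q - a)) t + cnt D (fun q => (X q - a) + (Y q - c) - δ) (t - δ) = 1 ∧
      cnt D Y (c + t) + cnt D (fun q => (Y q - c) - (X q - a)) (t - δ) + cnt D (fun q => (X q - a) + (Y q - c) - δ) t = 1) ∧
    (∀ q ∈ D, (-δ < (Y q - c) - (X q - a) ∧ (Y q - c) - (X q - a) < δ) ∧
      (-δ < (X q - a) + (Y q - c) - δ ∧ (X q - a) + (Y q - c) - δ < δ)) ∧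
    (∀ y : ℤ, 0 ≤ y → y ≤ 2 * m → (y < c ∨ c + δ < y) → cnt D Y y = 1) ∧
    ((m : ℤ) + (D.filter (fun q => Y q ∈ Icc c (c + δ))).card = δ) := by
  have b1 := b.hδ
  have b2 := b.c0
  have b3 := b.cδ
  have Oc : ∀ y ∈ Ico 0 c ∪ Ioc (c + δ) (2 * (m : ℤ)), ∃ q ∈ D, Y q = y := by
    intro y hy
    rw [mem_union, mem_Ico, mem_Ioc] at hy
    exact b.oY y (by omega) (by omega) (by omega)
  have cO : ((Ico 0 c ∪ Ioc (c + δ) (2 * (m : ℤ))).card : ℤ) = 2 * m - δ := by
    rw [card_union_of_disjoint (by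
      rw [disjoint_left]; intro y hy hy2; rw [mem_Ico] at hy; rw [mem_Ioc] at hy2; omega),
      Int.card_Ico, Int.card_Ioc]
    omega
  have w1 := h.core (s := c) b.hδ b.a0 b.aδ b.ea b.eb b.c0 (by omega)
  have o1 := h.outs (s := c) (δ := δ) (Ico 0 c ∪ Ioc (c + δ) (2 * (m : ℤ))) (by
    intro y hy
    refine ⟨Oc y hy, ?_⟩
    rw [mem_union, mem_Ico, mem_Ioc] at hy
    rw [mem_Ico]; omega)
  have w2 := h.core (s := c + 1) b.hδ b.a0 b.aδ b.ea b.eb (by omega) (by omega)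
  have o2 := h.outs (s := c + 1) (δ := δ) (Ico 0 c ∪ Ioc (c + δ) (2 * (m : ℤ))) (by
    intro y hy
    refine ⟨Oc y hy, ?_⟩
    rw [mem_union, mem_Ico, mem_Ioc] at hy
    rw [mem_Ico]; omega)
  have q1 : δ = m + ((D.filter (fun q => Y q ∈ Ico c (c + δ))).card : ℤ) := by
    have := w1.1; omega
  have q2 : δ = m + ((D.filter (fun q => Y q ∈ Ico (c + 1) (c + 1 + δ))).card : ℤ) := by
    have := w2.1; omega
  have r1 := w1.2 q1
  have r2 := w2.2 q2
  refine ⟨?_, ?_, ?_, ?_⟩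
  · intro t ht0 htδ
    have conv : ∀ y : ℤ, y = c + t → (cnt D Y y + cnt D (fun q => Y q - X q + a) y + cnt D (fun q => X q + Y q - a) y = 1 ∧
        cnt D Y y + cnt D (fun q => Y q - X q + (a + δ)) y + cnt D (fun q => X q + Y q - (a + δ)) y = 1) →
        (cnt D Y (c + t) + cnt D (fun q => (Y q - c) - (X q - a)) t + cnt D (fun q => (X q - a) + (Y q - c) - δ) (t - δ) = 1 ∧
        cnt D Y (c + t) + cnt D (fun q => (Y q - c) - (X q - a)) (t - δ) + cnt D (fun q => (X q - a) + (Y q - c) - δ) t = 1) := by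
      intro y hy hh
      subst hy
      have f1 : cnt D (fun q => Y q - X q + a) (c + t) = cnt D (fun q => (Y q - c) - (X q - a)) t :=
        cnt_congr D (fun q _ => by constructor <;> intro hx <;> omega)
      have f2 : cnt D (fun q => X q + Y q - a) (c + t) = cnt D (fun q => (X q - a) + (Y q - c) - δ) (t - δ) :=
        cnt_congr D (fun q _ => by constructor <;> intro hx <;> omega)
      have f3 : cnt D (fun q => Y q - X q + (a + δ)) (c + t) = cnt D (fun q => (Y q - c) - (X q - a)) (t - δ) :=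
        cnt_congr D (fun q _ => by constructor <;> intro hx <;> omega)
      have f4 : cnt D (fun q => X q + Y q - (a + δ)) (c + t) = cnt D (fun q => (X q - a) + (Y q - c) - δ) t :=
        cnt_congr D (fun q _ => by constructor <;> intro hx <;> omega)
      rw [f1, f2, f3, f4] at hh
      exact hh
    by_cases h3 : t < δ
    · exact conv _ rfl (r1.1 (c + t) (by rw [mem_Ico]; omega))
    · exact conv _ rfl (r2.1 (c + t) (by rw [mem_Ico]; omega))
  · intro q hq
    have s1 := r1.2 q hq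
    have s2 := r2.2 q hq
    simp only [mem_Ico] at s1 s2
    omega
  · -- uniqueness outside
    have hle : ∑ y ∈ Ico 0 c ∪ Ioc (c + δ) (2 * (m : ℤ)), cnt D Y y ≤ (Ico 0 c ∪ Ioc (c + δ) (2 * (m : ℤ))).card := by
      rw [cnt_sum]
      have h4 := card_filter_add_card_filter_not (s := D) (fun q => Y q ∈ Ico c (c + δ))
      have h5 := h.card
      have h6 : (D.filter (fun q => Y q ∈ Ico 0 c ∪ Ioc (c + δ) (2 * (m : ℤ)))).card ≤
          (D.filter (fun q => ¬ Y q ∈ Ico c (c + δ))).card := by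
        apply card_le_card
        intro q hq
        rw [mem_filter] at hq ⊢
        refine ⟨hq.1, ?_⟩
        have := hq.2
        rw [mem_union, mem_Ico, mem_Ioc] at this
        rw [mem_Ico]; omega
      omega
    have hge : ∀ y ∈ Ico 0 c ∪ Ioc (c + δ) (2 * (m : ℤ)), 1 ≤ cnt D Y y := by
      intro y hy
      exact (cnt_pos_iff D Y y).2 (Oc y hy)
    have hsum : ∑ y ∈ Ico 0 c ∪ Ioc (c + δ) (2 * (m : ℤ)), 1 = ∑ y ∈ Ico 0 c ∪ Ioc (c + δ) (2 * (m : ℤ)), cnt D Y y := by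
      apply le_antisymm
      · exact sum_le_sum hge
      · rw [sum_const, smul_eq_mul, mul_one]; exact hle
    have hall := (sum_eq_sum_iff_of_le hge).1 hsum
    intro y h0 h1 h2
    exact (hall y (by rw [mem_union, mem_Ico, mem_Ioc]; omega)).symm
  · have : D.filter (fun q => Y q ∈ Icc c (c + δ)) = D.filter (fun q => Y q ∈ Ico c (c + δ)) := by
      apply filter_congr
      intro q hq
      have := b.ed q hq
      rw [mem_Icc, mem_Ico]
      omega
    rw [this]; exact q1.symm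

end Dom

end Pool.Agent.H642R3.Q
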