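import Mathlib

set_option autoImplicit false

namespace Pool.Agent.H642R3.Q

/-- column / row weight -/
def gq (d x1 x : ℚ) : ℚ := if x1 ≤ x then (x - d) * (x - x1) else 0

/-- auxiliary function -/
def eq0 (d x1 z : ℚ) : ℚ := if d ≤ z then (z - d) * (z - x1) else 0

/-- diagonal weight -/
def psi (d x1 w0 w : ℚ) : ℚ :=
  d * x1 - w0 ^ 2 + (2 * w0 - (x1 + d)) * w + eq0 d x1 |w - w0|

lemma psi_le_A {d x1 w0 : ℚ} (w : ℚ) (h0 : 0 ≤ d) (h1 : d ≤ x1) :
    psi d x1 w0 w ≤ w ^ 2 + (2 * d * x1 - (x1 + d) * w0) := by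
  unfold psi eq0
  rcases le_total 0 (w - w0) with h | h
  · rw [abs_of_nonneg h]
    split_ifs with h2
    · nlinarith
    · push Not at h2
      nlinarith [mul_nonneg (add_nonneg h h0) (add_nonneg h (h0.trans h1))]
  · rw [abs_of_nonpos h]
    split_ifs with h2
    · nlinarith
    · push Not at h2
      have h3 : 0 ≤ (w - w0) + d := by linarith
      have h4 : 0 ≤ (w - w0) + x1 := by linarith
      nlinarith [mul_nonneg h3 h4]

lemma psi_le_B {d x1 w0 : ℚ} (w : ℚ) (h0 : 0 ≤ d) (h1 : d ≤ x1) :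
    psi d x1 w0 w ≤ w ^ 2 + (2 * d * x1 + (x1 + d) * w0 - 2 * (x1 + d) * w) := by
  unfold psi eq0
  rcases le_total 0 (w - w0) with h | h
  · rw [abs_of_nonneg h]
    split_ifs with h2
    · nlinarith
    · push Not at h2
      have h3 : 0 ≤ d - (w - w0) := by linarith
      have h4 : 0 ≤ x1 - (w - w0) := by linarith
      nlinarith [mul_nonneg h3 h4]
  · rw [abs_of_nonpos h]
    split_ifs with h2
    · nlinarith
    · push Not at h2
      have h3 : 0 ≤ d - (w - w0) := by linarith
      have h4 : 0 ≤ x1 - (w - w0) := by linarith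
      nlinarith [mul_nonneg h3 h4]

lemma psi_le_M {d x1 w0 : ℚ} (w : ℚ) (h0 : 0 ≤ d) (h1 : d ≤ x1) (h : |w - w0| ≤ x1) :
    psi d x1 w0 w ≤ w ^ 2 + (d * x1 - (x1 + d) * w - (w - w0) ^ 2) := by
  unfold psi eq0
  have h5 : |w - w0| ^ 2 = (w - w0) ^ 2 := sq_abs _
  split_ifs with h2
  · have h3 : 0 ≤ |w - w0| - d := by linarith
    have h4 : 0 ≤ x1 - |w - w0| := by linarith
    nlinarith [mul_nonneg h3 h4]
  · nlinarith

/-- The main pointwise inequality. -/
lemma cert {d x1 w0 x y : ℚ} (h0 : 0 ≤ d) (h1 : d ≤ x1) (hB : 2 * x1 + d ≤ w0)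
    (hy : 0 ≤ y) (hxy : y ≤ x) :
    psi d x1 w0 (x - y) + psi d x1 w0 (x + y) ≤ 2 * gq d x1 x + 2 * gq d x1 y := by
  by_cases hx : x1 ≤ x
  · have hgx : gq d x1 x = (x - d) * (x - x1) := by simp [gq, hx]
    by_cases hy1 : d ≤ y
    · have hgy : (y - d) * (y - x1) ≤ gq d x1 y := by
        unfold gq
        split_ifs with h
        · exact le_rfl
        · push Not at h
          nlinarith [mul_nonneg (sub_nonneg.2 hy1) (sub_nonneg.2 h.le)]
      have hA := psi_le_A (w0 := w0) (x - y) h0 h1
      have hBB := psi_le_B (w0 := w0) (x + y) h0 h1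
      rw [hgx]
      nlinarith
    · push Not at hy1
      have hgy : 0 ≤ gq d x1 y := by
        unfold gq
        split_ifs with h
        · exact mul_nonneg_of_nonpos_of_nonpos (by linarith) (by linarith)
        · exact le_rfl
      rw [hgx]
      rcases le_total x w0 with ht | ht
      · by_cases hs : d ≤ w0 - x
        · have hA := psi_le_A (w0 := w0) (x - y) h0 h1
          have hA2 := psi_le_A (w0 := w0) (x + y) h0 h1
          nlinarith [mul_nonneg (sub_nonneg.2 hs) (add_nonneg h0 (h0.trans h1)), mul_nonneg hy (sub_nonneg.2 hy1.le), mul_nonneg h0 (sub_nonneg.2 hy1.le)]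
        · push Not at hs
          have hM2 := psi_le_M (w0 := w0) (x + y) h0 h1 (by rw [abs_le]; constructor <;> linarith)
          by_cases hσ : (w0 - x) + y ≤ x1
          · have hM := psi_le_M (w0 := w0) (x - y) h0 h1 (by rw [abs_le]; constructor <;> linarith)
            nlinarith
          · push Not at hσ
            have hA := psi_le_A (w0 := w0) (x - y) h0 h1
            -- f = (σ-d)(σ-x1) - 2 s^2
            have hs0 : 0 ≤ w0 - x := by linarith
            have hsd : 0 ≤ (w0 - x) + y - d := by linarith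
            have h2 : ((w0 - x) + y - d) ^ 2 ≤ (w0 - x) ^ 2 := by
              apply pow_le_pow_left₀ hsd; linarith
            have h3 : 0 ≤ ((w0 - x) + y - d) * ((w0 - x) + y + x1 - 2 * d) :=
              mul_nonneg hsd (by linarith)
            nlinarith
      · by_cases hs : d ≤ x - w0
        · have hA := psi_le_B (w0 := w0) (x - y) h0 h1
          have hA2 := psi_le_B (w0 := w0) (x + y) h0 h1
          nlinarith [mul_nonneg (sub_nonneg.2 hs) (add_nonneg h0 (h0.trans h1)), mul_nonneg hy (sub_nonneg.2 hy1.le), mul_nonneg h0 (sub_nonneg.2 hy1.le)]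
        · push Not at hs
          have hM := psi_le_M (w0 := w0) (x - y) h0 h1 (by rw [abs_le]; constructor <;> linarith)
          by_cases hσ : (x - w0) + y ≤ x1
          · have hM2 := psi_le_M (w0 := w0) (x + y) h0 h1 (by rw [abs_le]; constructor <;> linarith)
            nlinarith
          · push Not at hσ
            have hBB := psi_le_B (w0 := w0) (x + y) h0 h1
            have hs0 : 0 ≤ x - w0 := by linarith
            have hsd : 0 ≤ (x - w0) + y - d := by linarith
            have h2 : ((x - w0) + y - d) ^ 2 ≤ (x - w0) ^ 2 := by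
              apply pow_le_pow_left₀ hsd; linarith
            have h3 : 0 ≤ ((x - w0) + y - d) * ((x - w0) + y + x1 - 2 * d) :=
              mul_nonneg hsd (by linarith)
            nlinarith
  · push Not at hx
    have hgx : gq d x1 x = 0 := by simp [gq, not_le.2 hx]
    have hgy : gq d x1 y = 0 := by simp [gq, not_le.2 (lt_of_le_of_lt hxy hx)]
    rw [hgx, hgy]
    have hA := psi_le_A (w0 := w0) (x - y) h0 h1
    have hA2 := psi_le_A (w0 := w0) (x + y) h0 h1
    have hx0 : 0 ≤ x := hy.trans hxy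
    have e1 : x ^ 2 ≤ x1 ^ 2 := pow_le_pow_left₀ hx0 hx.le 2
    have e2 : y ^ 2 ≤ x1 ^ 2 := pow_le_pow_left₀ hy (hxy.trans hx.le) 2
    have e3 : 0 ≤ (x1 + d) * (w0 - (2 * x1 + d)) := mul_nonneg (by linarith) (by linarith)
    nlinarith [mul_nonneg h0 (h0.trans h1), mul_nonneg h0 h0]

end Pool.Agent.H642R3.Q
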