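import Mathlib

set_option autoImplicit false

namespace Pool.Agent.H642R3.Q

/-- combinatorial data of the box: `A` nonneg. differences, `B` negatives of nonpos. differences,
`Q` nonneg. sums, `P` negatives of nonpos. sums -/
structure Cfg (δ : ℤ) (A B P Q : Finset ℤ) : Prop where
  pos : 0 < δ
  rA : ∀ t ∈ A, 0 ≤ t ∧ t < δ
  rB : ∀ t ∈ B, 0 ≤ t ∧ t < δ
  rP : ∀ t ∈ P, 0 ≤ t ∧ t < δ
  rQ : ∀ t ∈ Q, 0 ≤ t ∧ t < δ
  zA : (0 : ℤ) ∈ A
  zB : (0 : ℤ) ∈ B
  zP : (0 : ℤ) ∈ P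
  zQ : (0 : ℤ) ∈ Q
  exc : ∀ t t', t + t' = δ → (t ∈ A ∨ t ∈ B) → (t' ∉ P ∧ t' ∉ Q)
  row : ∀ t t', 0 ≤ t → 0 ≤ t' → t + t' = δ → ((t ∈ A ∨ t' ∈ P) ↔ (t' ∈ B ∨ t ∈ Q))
  col : ∀ t t', 0 ≤ t → 0 ≤ t' → t + t' = δ → ((t ∈ B ∨ t' ∈ P) ↔ (t' ∈ A ∨ t ∈ Q))
  cov : ∀ x x' y y', x + x' = δ → y + y' = δ → 0 ≤ x → 0 ≤ x' → 0 ≤ y → 0 ≤ y' →
    (x ∈ B ∨ x' ∈ P) → (y ∈ A ∨ y' ∈ P) →
    ∀ z1 z2 w1 w2, z1 = y - x → z2 = x - y → w1 = x + y - δ → w2 = δ - x - y →
      (z1 ∈ A ∨ z2 ∈ B ∨ w1 ∈ Q ∨ w2 ∈ P)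
  cAB : A.card = B.card
  cAP : A.card = P.card
  cAQ : A.card = Q.card

namespace Cfg

variable {δ : ℤ} {A B P Q : Finset ℤ}

/-- transposition -/
lemma T (h : Cfg δ A B P Q) : Cfg δ B A P Q where
  pos := h.pos
  rA := h.rB
  rB := h.rA
  rP := h.rP
  rQ := h.rQ
  zA := h.zB
  zB := h.zA
  zP := h.zP
  zQ := h.zQ
  exc := fun t t' e hh => h.exc t t' e hh.symm
  row := h.col
  col := h.row
  cov := by
    intro x x' y y' hx hy h1 h2 h3 h4 hX hY z1 z2 w1 w2 e1 e2 e3 e4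
    have := h.cov y y' x x' hy hx h3 h4 h1 h2 hY hX z2 z1 w1 w2 (by omega) (by omega) (by omega) (by omega)
    tauto
  cAB := h.cAB.symm
  cAP := h.cAB.symm.trans h.cAP
  cAQ := h.cAB.symm.trans h.cAQ

/-- reflection -/
lemma X (h : Cfg δ A B P Q) : Cfg δ Q P B A where
  pos := h.pos
  rA := h.rQ
  rB := h.rP
  rP := h.rB
  rQ := h.rA
  zA := h.zQ
  zB := h.zP
  zP := h.zB
  zQ := h.zA
  exc := by
    intro t t' e hh
    constructor
    · intro hB
      have := h.exc t' t (by omega) (Or.inr hB)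
      tauto
    · intro hB
      have := h.exc t' t (by omega) (Or.inl hB)
      tauto
  row := by
    intro t t' h1 h2 e
    have := h.row t t' h1 h2 e
    tauto
  col := by
    intro t t' h1 h2 e
    have := h.col t' t h2 h1 (by omega)
    tauto
  cov := by
    intro x x' y y' hx hy h1 h2 h3 h4 hX hY z1 z2 w1 w2 e1 e2 e3 e4
    have hr := h.row y y' h3 h4 hy
    have := h.cov x' x y y' (by omega) hy h2 h1 h3 h4 (by tauto) (by tauto) w1 w2 z1 z2 (by omega) (by omega) (by omega) (by omega)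
    tauto
  cAB := by rw [← h.cAQ, h.cAP]
  cAP := by rw [← h.cAQ, h.cAB]
  cAQ := h.cAQ.symm

/-- anti-transposition -/
lemma N (h : Cfg δ A B P Q) : Cfg δ A B Q P := h.X.T.X

lemma patA (h : Cfg δ A B P Q) {t t' : ℤ} (e : t + t' = δ) (ht : t ∈ A) :
    (t ∈ B ∧ t ∈ P ∧ t ∈ Q) ∨ (t' ∈ B ∧ t ∉ P ∧ t ∉ Q) := by
  have r := h.rA t ht
  have h1 := h.exc t t' e (Or.inl ht)
  have h2 := h.row t t' r.1 (by omega) e
  have h3 := h.row t' t (by omega) r.1 (by omega)
  have h4 := h.col t' t (by omega) r.1 (by omega)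
  by_cases hB : t' ∈ B
  · have h5 := h.exc t' t (by omega) (Or.inr hB)
    tauto
  · tauto

lemma patB (h : Cfg δ A B P Q) {t t' : ℤ} (e : t + t' = δ) (ht : t ∈ B) :
    (t ∈ A ∧ t ∈ P ∧ t ∈ Q) ∨ (t' ∈ A ∧ t ∉ P ∧ t ∉ Q) := h.T.patA e ht

lemma patP (h : Cfg δ A B P Q) {t t' : ℤ} (e : t + t' = δ) (ht : t ∈ P) :
    (t ∈ Q ∧ t ∈ B ∧ t ∈ A) ∨ (t' ∈ Q ∧ t ∉ B ∧ t ∉ A) := h.X.patB e ht

lemma patQ (h : Cfg δ A B P Q) {t t' : ℤ} (e : t + t' = δ) (ht : t ∈ Q) :
    (t ∈ P ∧ t ∈ B ∧ t ∈ A) ∨ (t' ∈ P ∧ t ∉ B ∧ t ∉ A) := h.X.patA e ht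

/-- rows and columns `e`, `δ-e` are all empty -/
def Good (A B P : Finset ℤ) (e e' : ℤ) : Prop :=
  (e ∈ A ∨ e' ∈ P) ∧ (e ∈ B ∨ e' ∈ P) ∧ (e' ∈ A ∨ e ∈ P) ∧ (e' ∈ B ∨ e ∈ P)

lemma Good.T {e e' : ℤ} (h : Good A B P e e') : Good B A P e e' := by
  unfold Good at *; tauto

lemma goodX (h : Cfg δ A B P Q) {e e' : ℤ} (he : 0 ≤ e) (he' : 0 ≤ e') (hs : e + e' = δ)
    (hg : Good A B P e e') : Good Q P B e e' := by
  have h1 := h.row e e' he he' hs
  have h2 := h.row e' e he' he (by omega)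
  obtain ⟨g1, g2, g3, g4⟩ := hg
  exact ⟨(h1.1 g1).symm, g4.symm, (h2.1 g3).symm, g2.symm⟩

/-- the translation conditions for elements of `B` -/
lemma SB (h : Cfg δ A B P Q) {e e' : ℤ} (he : 0 < e) (he' : 0 ≤ e') (hs : e + e' = δ)
    (hg : Good A B P e e') {x y : ℤ} (hx : x ∈ B) (hex : e ≤ x) (hy : 0 ≤ y) (hxy : x + y + e = δ) :
    (x - e ∈ B ∨ (y ∈ P ∧ y ∈ Q)) ∧ (y ∈ A ∨ (x - e ∈ P ∧ x - e ∈ Q)) := by
  obtain ⟨g1, g2, g3, g4⟩ := hg
  have rx := h.rB x hx
  have hx' : δ - x ∈ A ∨ x ∈ P := by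
    have := h.row (δ - x) x (by omega) rx.1 (by omega)
    tauto
  have c1 := h.cov x (δ - x) e e' (by omega) hs rx.1 (by omega) he.le he' (Or.inl hx) g1 (e - x) (x - e) (-y) y
    (by omega) (by omega) (by omega) (by omega)
  have c2 := h.cov e' e (δ - x) x (by omega) (by omega) he' he.le (by omega) rx.1 g4 hx' (e - x) (x - e) y (-y)
    (by omega) (by omega) (by omega) (by omega)
  have c3 := h.cov x (δ - x) e' e (by omega) (by omega) rx.1 (by omega) he' he.le (Or.inl hx) g3 y (-y) (x - e) (e - x)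
    (by omega) (by omega) (by omega) (by omega)
  have c4 := h.cov e e' (δ - x) x (by omega) (by omega) he.le he' (by omega) rx.1 g2 hx' y (-y) (e - x) (x - e)
    (by omega) (by omega) (by omega) (by omega)
  -- boundary facts
  have zz : ∀ S : Finset ℤ, (∀ t ∈ S, 0 ≤ t ∧ t < δ) → (0 : ℤ) ∈ S → ∀ S' : Finset ℤ, (0 : ℤ) ∈ S' →
      ((e - x ∈ S → x - e ∈ S') ∧ (-y ∈ S → y ∈ S')) := by
    intro S hS _ S' hS'
    constructor
    · intro hh
      have := hS _ hh
      have e0 : x - e = 0 := by omega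
      rw [e0]; exact hS'
    · intro hh
      have := hS _ hh
      have e0 : y = 0 := by omega
      rw [e0]; exact hS'
  have a1 := (zz A h.rA h.zA B h.zB).1
  have a2 := (zz Q h.rQ h.zQ P h.zP).2
  have a3 := (zz P h.rP h.zP Q h.zQ).2
  have a4 := (zz B h.rB h.zB A h.zA).2
  have a5 := (zz P h.rP h.zP Q h.zQ).1
  have a6 := (zz Q h.rQ h.zQ P h.zP).1
  refine ⟨?_, ?_⟩
  · by_cases hb : x - e ∈ B
    · exact Or.inl hb
    · right
      constructor
      · rcases c1 with c | c | c | c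
        · exact absurd (a1 c) hb
        · exact absurd c hb
        · exact a2 c
        · exact c
      · rcases c2 with c | c | c | c
        · exact absurd (a1 c) hb
        · exact absurd c hb
        · exact c
        · exact a3 c
  · by_cases hb : y ∈ A
    · exact Or.inl hb
    · right
      constructor
      · rcases c4 with c | c | c | c
        · exact absurd c hb
        · exact absurd (a4 c) hb
        · exact a6 c
        · exact c
      · rcases c3 with c | c | c | c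
        · exact absurd c hb
        · exact absurd (a4 c) hb
        · exact c
        · exact a5 c

lemma SP (h : Cfg δ A B P Q) {e e' : ℤ} (he : 0 < e) (he' : 0 ≤ e') (hs : e + e' = δ)
    (hg : Good A B P e e') {x y : ℤ} (hx : x ∈ P) (hex : e ≤ x) (hy : 0 ≤ y) (hxy : x + y + e = δ) :
    (x - e ∈ P ∨ (y ∈ B ∧ y ∈ A)) ∧ (y ∈ Q ∨ (x - e ∈ B ∧ x - e ∈ A)) :=
  h.X.SB he he' hs (h.goodX he.le he' hs hg) hx hex hy hxy

/-- an initial run of common elements -/
structure Run (A B P Q : Finset ℤ) (e : ℤ) (I : Finset ℤ) (τ : ℤ) : Prop where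
  i0 : (0 : ℤ) ∈ I
  itop : τ ∈ I
  iPl : ∀ y ∈ I, y ∈ A ∧ y ∈ B ∧ y ∈ P ∧ y ∈ Q
  iup : ∀ y ∈ I, y = τ ∨ y + e ∈ I

lemma Run.T {e : ℤ} {I : Finset ℤ} {τ : ℤ} (r : Run A B P Q e I τ) : Run B A P Q e I τ :=
  ⟨r.i0, r.itop, fun y hy => by have := r.iPl y hy; tauto, r.iup⟩

lemma Run.X {e : ℤ} {I : Finset ℤ} {τ : ℤ} (r : Run A B P Q e I τ) : Run Q P B A e I τ :=
  ⟨r.i0, r.itop, fun y hy => by have := r.iPl y hy; tauto, r.iup⟩

/-- structure of `P` -/
lemma structP (h : Cfg δ A B P Q) {e e' : ℤ} (he : 0 < e) (he' : 0 ≤ e') (hs : e + e' = δ)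
    (hg : Good A B P e e') (hmin : ∀ t ∈ P, t = 0 ∨ (e ≤ t ∧ t ≤ e')) {I : Finset ℤ} {τ : ℤ}
    (r : Run A B P Q e I τ) (ht : τ + e ∉ P) :
    ∀ y ∈ P, y ∈ I ∨ (e' - y ∈ B ∧ e' - y ∈ A) := by
  have key : ∀ n : ℕ, ∀ y ∈ P, y.toNat = n → y ∈ I ∨ (e' - y ∈ B ∧ e' - y ∈ A) := by
    intro n
    induction n using Nat.strong_induction_on with
    | _ n ih =>
      intro y hy hn
      rcases hmin y hy with h0 | ⟨h1, h2⟩
      · left; rw [h0]; exact r.i0
      · have hS := (h.SP he he' hs hg hy h1 (y := e' - y) (by omega) (by omega)).1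
        rcases hS with hS | hS
        · rcases ih (y - e).toNat (by omega) (y - e) hS rfl with hI | hI
          · rcases r.iup _ hI with h3 | h3
            · exfalso; apply ht; rw [← h3]; rwa [sub_add_cancel]
            · left; rwa [sub_add_cancel] at h3
          · exfalso
            have := h.exc (e' - (y - e)) y (by omega) (Or.inl hI.2)
            exact this.1 hy
        · exact Or.inr hS
  intro y hy
  exact key _ y hy rfl

/-- the end of the run is not a `B`-only element -/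
lemma lemU (h : Cfg δ A B P Q) {e e' : ℤ} (he : 0 < e) (he' : 0 ≤ e') (hs : e + e' = δ)
    (hg : Good A B P e e') (hmin : ∀ t ∈ P, t = 0 ∨ (e ≤ t ∧ t ≤ e')) {I : Finset ℤ} {τ : ℤ}
    (r : Run A B P Q e I τ) (hnPl : ¬ (τ + e ∈ A ∧ τ + e ∈ B ∧ τ + e ∈ P ∧ τ + e ∈ Q)) :
    τ + e ∉ B := by
  intro hB
  have hpat := h.patB (t' := e' - τ) (by omega) hB
  have hpat2 : e' - τ ∈ A ∧ τ + e ∉ P ∧ τ + e ∉ Q := by tauto
  have hst := h.structP he he' hs hg hmin r hpat2.2.1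
  have hexc := h.exc (τ + e) (e' - τ) (by omega) (Or.inr hB)
  classical
  have hcard : P.card ≤ (A.erase (e' - τ)).card := by
    apply Finset.card_le_card_of_injOn (fun y => if y ∈ I then y else e' - y)
    · intro y hy
      have hy' : y ∈ P := hy
      simp only
      split_ifs with hI
      · rw [Finset.mem_coe, Finset.mem_erase]
        refine ⟨?_, (r.iPl y hI).1⟩
        rintro rfl
        exact hexc.1 hy'
      · rw [Finset.mem_coe, Finset.mem_erase]
        have := hst y hy'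
        refine ⟨?_, by tauto⟩
        intro h3
        have : y = τ := by omega
        rw [this] at hI
        exact hI r.itop
    · intro y1 hy1 y2 hy2 heq
      have hy1' : y1 ∈ P := hy1
      have hy2' : y2 ∈ P := hy2
      have aux : ∀ a b : ℤ, a ∈ I → b ∈ P → a = e' - b → False := by
        intro a b ha hb hab
        rcases r.iup a ha with h3 | h3
        · have : b = e' - τ := by omega
          rw [this] at hb
          exact hexc.1 hb
        · have := h.exc (a + e) b (by omega) (Or.inl (r.iPl _ h3).1)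
          exact this.1 hb
      simp only at heq
      split_ifs at heq with c1 c2 c2
      · exact heq
      · exact (aux _ _ c1 hy2' heq).elim
      · exact (aux _ _ c2 hy1' heq.symm).elim
      · omega
  rw [Finset.card_erase_of_mem hpat2.1] at hcard
  have h1 : 0 < A.card := Finset.card_pos.2 ⟨_, h.zA⟩
  have := h.cAP
  omega

/-- no element beyond the run: everything in `A` is common -/
lemma lemN (h : Cfg δ A B P Q) {e e' : ℤ} (he : 0 < e) (he' : 0 ≤ e') (hs : e + e' = δ)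
    (hg : Good A B P e e')
    (hminA : ∀ t ∈ A, t = 0 ∨ (e ≤ t ∧ t ≤ e')) (hminB : ∀ t ∈ B, t = 0 ∨ (e ≤ t ∧ t ≤ e'))
    (hminP : ∀ t ∈ P, t = 0 ∨ (e ≤ t ∧ t ≤ e')) {I : Finset ℤ} {τ : ℤ}
    (r : Run A B P Q e I τ) (tA : τ + e ∉ A) (tB : τ + e ∉ B) (tP : τ + e ∉ P) :
    ∀ z ∈ A, z ∈ B ∧ z ∈ P ∧ z ∈ Q := by
  have stP := h.structP he he' hs hg hminP r tP
  have stB : ∀ y ∈ B, y ∈ I ∨ (e' - y ∈ P ∧ e' - y ∈ Q) :=
    h.X.structP he he' hs (h.goodX he.le he' hs hg) hminB r.X tB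
  have stA : ∀ y ∈ A, y ∈ I ∨ (e' - y ∈ P ∧ e' - y ∈ Q) := 
    h.T.X.structP he he' hs (h.T.goodX he.le he' hs hg.T) hminA r.T.X tA
  have key : ∀ n : ℕ, ∀ z ∈ A, z.toNat = n → z ∈ B ∧ z ∈ P ∧ z ∈ Q := by
    intro n
    induction n using Nat.strong_induction_on with
    | _ n ih =>
      intro z hz hn
      by_contra hnPl
      have rz := h.rA z hz
      have hpat := h.patA (t' := δ - z) (by omega) hz
      have hz'B : δ - z ∈ B := by tauto
      have hzI : z ∉ I := by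
        intro hI
        have := r.iPl z hI
        tauto
      have hexc := h.exc z (δ - z) (by omega) (Or.inl hz)
      have hyPQ := (stA z hz).resolve_left hzI
      have hzB : z ∈ B := by
        rcases stP _ hyPQ.1 with hI | hI
        · exfalso
          rcases r.iup _ hI with h3 | h3
          · apply tB
            have : τ + e = δ - z := by omega
            rw [this]; exact hz'B
          · have := (r.iPl _ h3).2.2.1
            apply hexc.1
            have e1 : e' - z + e = δ - z := by omega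
            rwa [e1] at this
        · have := hI.1
          rwa [sub_sub_cancel] at this
      have hz'I : δ - z ∉ I := fun hI => hexc.1 (r.iPl _ hI).2.2.1
      have hwPQ := (stB _ hz'B).resolve_left hz'I
      have e1 : e' - (δ - z) = z - e := by omega
      rw [e1] at hwPQ
      have hne0 : z - e ≠ 0 := by
        intro h0
        rcases r.iup 0 r.i0 with h3 | h3
        · apply tA; rw [← h3]
          have : (0 : ℤ) + e = z := by omega
          rw [this]; exact hz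
        · have : (0 : ℤ) + e = z := by omega
          rw [this] at h3
          exact hzI h3
      have hge := (hminP _ hwPQ.1).resolve_left hne0
      have hS := (h.SP he he' hs hg hwPQ.1 hge.1 (y := δ - z) (by omega) (by omega)).2
      have hS2 := hS.resolve_left hexc.2
      have e2 : z - e - e = z - 2 * e := by ring
      rw [e2] at hS2
      have r2 := h.rA _ hS2.2
      have hIH := ih (z - 2 * e).toNat (by omega) _ hS2.2 rfl
      rcases stP _ hIH.2.1 with hI | hI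
      · rcases r.iup _ hI with h3 | h3
        · apply tP
          have : τ + e = z - e := by omega
          rw [this]; exact hwPQ.1
        · rcases r.iup _ h3 with h4 | h4
          · apply tA
            have : τ + e = z := by omega
            rw [this]; exact hz
          · apply hzI
            have : z - 2 * e + e + e = z := by ring
            rwa [this] at h4
      · have := h.exc (e' - (z - 2 * e)) (z - e) (by omega) (Or.inl hI.2)
        exact this.1 hwPQ.1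
  intro z hz
  exact key _ z hz rfl

/-- the smallest class element cannot be a sum-only element -/
lemma lemII (h : Cfg δ A B P Q) {e e' : ℤ} (he : 0 < e) (he' : 0 ≤ e') (hs : e + e' = δ)
    (hmin : ∀ t ∈ B, t = 0 ∨ (e ≤ t ∧ t ≤ e'))
    (hP : e' ∈ P) (eB : e ∉ B) (e'B : e' ∉ B) : False := by
  have step : ∀ x ∈ B, e ≤ x → x ≤ e' → (x - e ∈ B ∨ e' - x ∈ P) := by
    intro x hx h1 h2
    have rx := h.rB x hx
    have c1 := h.cov x (δ - x) e e' (by omega) hs rx.1 (by omega) he.le he' (Or.inl hx) (Or.inr hP)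
      (e - x) (x - e) (x - e') (e' - x) (by omega) (by omega) (by omega) (by omega)
    rcases c1 with c | c | c | c
    · have := h.rA _ c
      left
      have e0 : x - e = 0 := by omega
      rw [e0]; exact h.zB
    · exact Or.inl c
    · have := h.rQ _ c
      right
      have e0 : e' - x = 0 := by omega
      rw [e0]; exact h.zP
    · exact Or.inr c
  have key : ∀ n : ℕ, ∀ x ∈ B, x.toNat = n → 0 < x → x - e ∉ B := by
    intro n
    induction n using Nat.strong_induction_on with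
    | _ n ih =>
      intro x hx hn hx0 hxe
      have rxe := h.rB _ hxe
      by_cases h0 : x - e = 0
      · apply eB
        have : x = e := by omega
        rwa [this] at hx
      · have h1 := ih (x - e).toNat (by omega) (x - e) hxe rfl (by omega)
        have h2 := (hmin _ hxe).resolve_left h0
        have h3 := (step _ hxe h2.1 h2.2).resolve_left h1
        have := h.exc x (e' - (x - e)) (by omega) (Or.inr hx)
        exact this.1 h3
  have hall : ∀ x ∈ B, e' - x ∈ P := by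
    intro x hx
    rcases hmin x hx with h0 | ⟨h1, h2⟩
    · rw [h0, sub_zero]; exact hP
    · exact (step x hx h1 h2).resolve_left (key _ x hx rfl (by omega))
  have hcard : B.card ≤ (P.erase 0).card := by
    apply Finset.card_le_card_of_injOn (fun x => e' - x)
    · intro x hx
      rw [Finset.mem_coe, Finset.mem_erase]
      refine ⟨?_, hall x hx⟩
      intro h0
      apply e'B
      have : x = e' := by simp only at h0; omega
      rw [← this]; exact hx
    · intro a _ b _ hab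
      simp only at hab
      omega
  rw [Finset.card_erase_of_mem h.zP] at hcard
  have h1 : 0 < P.card := Finset.card_pos.2 ⟨_, h.zP⟩
  have := h.cAP
  have := h.cAB
  omega

lemma noUU (h : Cfg δ A B P Q) {e e' : ℤ} (he : 0 < e) (he' : 0 ≤ e') (hs : e + e' = δ)
    (hmin : ∀ t ∈ B, t = 0 ∨ (e ≤ t ∧ t ≤ e'))
    (h1 : e ∉ A) (h2 : e ∉ B) (h3 : e' ∉ A) (h4 : e' ∉ B)
    (h5 : e ∈ P ∨ e ∈ Q ∨ e' ∈ P ∨ e' ∈ Q) : False := by
  have r1 := h.row e e' he.le he' hs
  have r2 := h.row e' e he' he.le (by omega)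
  by_cases h6 : e' ∈ P
  · exact h.lemII he he' hs hmin h6 h2 h4
  · have h7 : e' ∈ Q := by tauto
    exact h.N.lemII he he' hs hmin h7 h2 h4

lemma typeE (h : Cfg δ A B P Q) {e e' : ℤ} (hs : e + e' = δ)
    (huu : e ∈ A ∨ e ∈ B ∨ e' ∈ A ∨ e' ∈ B) (hvv : e ∈ P ∨ e ∈ Q ∨ e' ∈ P ∨ e' ∈ Q) :
    (e ∈ A ∧ e ∈ B ∧ e ∈ P ∧ e ∈ Q) ∨ (e' ∈ A ∧ e' ∈ B ∧ e' ∈ P ∧ e' ∈ Q) := by
  have hs' : e' + e = δ := by omega
  have conv : ¬ (e ∉ P ∧ e ∉ Q ∧ e' ∉ P ∧ e' ∉ Q) := by
    rintro ⟨n1, n2, n3, n4⟩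
    rcases hvv with x | x | x | x
    · exact n1 x
    · exact n2 x
    · exact n3 x
    · exact n4 x
  rcases huu with hu | hu | hu | hu
  · rcases h.patA hs hu with h1 | h1
    · exact Or.inl ⟨hu, h1.1, h1.2.1, h1.2.2⟩
    · have := h.exc e e' hs (Or.inl hu)
      exact absurd ⟨h1.2.1, h1.2.2, this.1, this.2⟩ conv
  · rcases h.patB hs hu with h1 | h1
    · exact Or.inl ⟨h1.1, hu, h1.2.1, h1.2.2⟩
    · have := h.exc e e' hs (Or.inr hu)
      exact absurd ⟨h1.2.1, h1.2.2, this.1, this.2⟩ conv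
  · rcases h.patA hs' hu with h1 | h1
    · exact Or.inr ⟨hu, h1.1, h1.2.1, h1.2.2⟩
    · have := h.exc e' e hs' (Or.inl hu)
      exact absurd ⟨this.1, this.2, h1.2.1, h1.2.2⟩ conv
  · rcases h.patB hs' hu with h1 | h1
    · exact Or.inr ⟨h1.1, hu, h1.2.1, h1.2.2⟩
    · have := h.exc e' e hs' (Or.inr hu)
      exact absurd ⟨this.1, this.2, h1.2.1, h1.2.2⟩ conv

lemma good_of {e e' : ℤ} (hPl : (e ∈ A ∧ e ∈ B ∧ e ∈ P ∧ e ∈ Q) ∨ (e' ∈ A ∧ e' ∈ B ∧ e' ∈ P ∧ e' ∈ Q)) :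
    Good A B P e e' := by
  rcases hPl with h | h
  · exact ⟨Or.inl h.1, Or.inl h.2.1, Or.inr h.2.2.1, Or.inr h.2.2.1⟩
  · exact ⟨Or.inr h.2.2.1, Or.inr h.2.2.1, Or.inl h.1, Or.inl h.2.1⟩

lemma or8 {a b c d a' b' c' d' : Prop} (h : (a ∨ b ∨ c ∨ d) ∨ (a' ∨ b' ∨ c' ∨ d')) (ha : ¬ a) (hb : ¬ b)
    (ha' : ¬ a') (hb' : ¬ b') : c ∨ d ∨ c' ∨ d' := by tauto

lemma or8' {a b c d a' b' c' d' : Prop} (h : (a ∨ b ∨ c ∨ d) ∨ (a' ∨ b' ∨ c' ∨ d')) (ha : ¬ c) (hb : ¬ d)
    (ha' : ¬ c') (hb' : ¬ d') : b ∨ a ∨ b' ∨ a' := by tauto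

/-- Main structure theorem: all four sets coincide. -/
theorem all_eq (h : Cfg δ A B P Q) : B = A ∧ P = A ∧ Q = A := by
  classical
  by_cases htriv : ∃ t, 0 < t ∧ t < δ ∧ (t ∈ A ∨ t ∈ B ∨ t ∈ P ∨ t ∈ Q)
  swap
  · push Not at htriv
    have hz : ∀ S : Finset ℤ, (∀ t ∈ S, 0 ≤ t ∧ t < δ) → (0 : ℤ) ∈ S →
        (∀ t ∈ S, t ∈ A ∨ t ∈ B ∨ t ∈ P ∨ t ∈ Q) → S = {0} := by
      intro S hS h0 hin
      ext t
      rw [Finset.mem_singleton]
      constructor
      · intro ht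
        have r := hS t ht
        by_contra hne
        have := htriv t (by omega) r.2
        have h8 := hin t ht
        rcases h8 with h8 | h8 | h8 | h8
        · exact this.1 h8
        · exact this.2.1 h8
        · exact this.2.2.1 h8
        · exact this.2.2.2 h8
      · rintro rfl; exact h0
    have eA := hz A h.rA h.zA (fun t ht => Or.inl ht)
    have eB := hz B h.rB h.zB (fun t ht => Or.inr (Or.inl ht))
    have eP := hz P h.rP h.zP (fun t ht => Or.inr (Or.inr (Or.inl ht)))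
    have eQ := hz Q h.rQ h.zQ (fun t ht => Or.inr (Or.inr (Or.inr ht)))
    rw [eA, eB, eP, eQ]
    exact ⟨rfl, rfl, rfl⟩
  · -- smallest class element
    obtain ⟨t0, ht0, ht0δ, ht0m⟩ := htriv
    have hex : ∃ n : ℕ, 0 < n ∧ (n : ℤ) < δ ∧ (((n : ℤ) ∈ A ∨ (n : ℤ) ∈ B ∨ (n : ℤ) ∈ P ∨ (n : ℤ) ∈ Q) ∨
        (δ - n ∈ A ∨ δ - n ∈ B ∨ δ - n ∈ P ∨ δ - n ∈ Q)) := by
      refine ⟨t0.toNat, by omega, by omega, Or.inl ?_⟩
      rw [Int.toNat_of_nonneg ht0.le]
      exact ht0m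
    obtain ⟨e, he0, heδ, hem, hemin⟩ : ∃ e : ℤ, 0 < e ∧ e < δ ∧
        ((e ∈ A ∨ e ∈ B ∨ e ∈ P ∨ e ∈ Q) ∨ (δ - e ∈ A ∨ δ - e ∈ B ∨ δ - e ∈ P ∨ δ - e ∈ Q)) ∧
        (∀ t : ℤ, (t ∈ A ∨ t ∈ B ∨ t ∈ P ∨ t ∈ Q) → t = 0 ∨ (e ≤ t ∧ t ≤ δ - e)) := by
      refine ⟨(Nat.find hex : ℤ), by exact_mod_cast (Nat.find_spec hex).1, (Nat.find_spec hex).2.1,
        (Nat.find_spec hex).2.2, ?_⟩
      intro t ht
      have rt : 0 ≤ t ∧ t < δ := by
        rcases ht with ht | ht | ht | ht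
        · exact h.rA t ht
        · exact h.rB t ht
        · exact h.rP t ht
        · exact h.rQ t ht
      by_cases ht0 : t = 0
      · exact Or.inl ht0
      · right
        constructor
        · by_contra hlt
          push Not at hlt
          have hm := Nat.find_min hex (m := t.toNat) (by omega)
          apply hm
          refine ⟨by omega, by omega, Or.inl ?_⟩
          rw [Int.toNat_of_nonneg rt.1]
          exact ht
        · by_contra hlt
          push Not at hlt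
          have hm := Nat.find_min hex (m := (δ - t).toNat) (by omega)
          apply hm
          refine ⟨by omega, by omega, Or.inr ?_⟩
          rw [Int.toNat_of_nonneg (by omega)]
          rw [sub_sub_cancel]
          exact ht
    set e' := δ - e with he'
    have hs : e + e' = δ := by omega
    have he'0 : 0 ≤ e' := by omega
    have mA : ∀ t ∈ A, t = 0 ∨ (e ≤ t ∧ t ≤ e') := fun t ht => hemin t (Or.inl ht)
    have mB : ∀ t ∈ B, t = 0 ∨ (e ≤ t ∧ t ≤ e') := fun t ht => hemin t (Or.inr (Or.inl ht))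
    have mP : ∀ t ∈ P, t = 0 ∨ (e ≤ t ∧ t ≤ e') := fun t ht => hemin t (Or.inr (Or.inr (Or.inl ht)))
    have mQ : ∀ t ∈ Q, t = 0 ∨ (e ≤ t ∧ t ≤ e') := fun t ht => hemin t (Or.inr (Or.inr (Or.inr ht)))
    -- e is common type
    have huu : e ∈ A ∨ e ∈ B ∨ e' ∈ A ∨ e' ∈ B := by
      by_contra hn
      push Not at hn
      exact h.noUU he0 he'0 hs mB hn.1 hn.2.1 hn.2.2.1 hn.2.2.2
        (or8 hem hn.1 hn.2.1 hn.2.2.1 hn.2.2.2)
    have hvv : e ∈ P ∨ e ∈ Q ∨ e' ∈ P ∨ e' ∈ Q := by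
      by_contra hn
      push Not at hn
      exact h.X.noUU he0 he'0 hs mP hn.2.1 hn.1 hn.2.2.2 hn.2.2.1
        (or8' hem hn.1 hn.2.1 hn.2.2.1 hn.2.2.2)
    have hPl := h.typeE hs huu hvv
    have hg : Good A B P e e' := good_of hPl
    -- the run
    have hrun : ∃ n : ℕ, ¬ (((n : ℤ) * e) ∈ A ∧ ((n : ℤ) * e) ∈ B ∧ ((n : ℤ) * e) ∈ P ∧ ((n : ℤ) * e) ∈ Q) := by
      refine ⟨δ.toNat, fun hh => ?_⟩
      have := (h.rA _ hh.1).2
      rw [Int.toNat_of_nonneg h.pos.le] at this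
      nlinarith [h.pos]
    obtain ⟨N0, hN0, hN0min⟩ : ∃ N0 : ℕ, ¬ (((N0 : ℤ) * e) ∈ A ∧ ((N0 : ℤ) * e) ∈ B ∧ ((N0 : ℤ) * e) ∈ P ∧ ((N0 : ℤ) * e) ∈ Q) ∧
        ∀ j < N0, (((j : ℕ) : ℤ) * e) ∈ A ∧ ((j : ℤ) * e) ∈ B ∧ ((j : ℤ) * e) ∈ P ∧ ((j : ℤ) * e) ∈ Q := by
      refine ⟨Nat.find hrun, Nat.find_spec hrun, fun j hj => ?_⟩
      have := Nat.find_min hrun hj
      rwa [not_not] at this
    obtain ⟨c, rfl⟩ : ∃ c, N0 = c + 1 := by
      cases N0 with
      | zero =>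
        exfalso
        apply hN0
        simp only [Nat.cast_zero, zero_mul]
        exact ⟨h.zA, h.zB, h.zP, h.zQ⟩
      | succ c => exact ⟨c, rfl⟩
    set I : Finset ℤ := (Finset.range (c + 1)).image (fun j : ℕ => (j : ℤ) * e) with hI
    have r : Run A B P Q e I ((c : ℤ) * e) := by
      refine ⟨?_, ?_, ?_, ?_⟩
      · rw [hI, Finset.mem_image]
        exact ⟨0, by simp, by simp⟩
      · rw [hI, Finset.mem_image]
        exact ⟨c, by simp, rfl⟩
      · intro y hy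
        rw [hI, Finset.mem_image] at hy
        obtain ⟨j, hj, rfl⟩ := hy
        exact hN0min j (Finset.mem_range.1 hj)
      · intro y hy
        rw [hI, Finset.mem_image] at hy
        obtain ⟨j, hj, rfl⟩ := hy
        rw [Finset.mem_range] at hj
        by_cases hjc : j = c
        · left; rw [hjc]
        · right
          rw [hI, Finset.mem_image]
          refine ⟨j + 1, Finset.mem_range.2 (by omega), ?_⟩
          push_cast; ring
    have hte : (c : ℤ) * e + e = ((c + 1 : ℕ) : ℤ) * e := by push_cast; ring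
    have hnPl : ¬ ((c : ℤ) * e + e ∈ A ∧ (c : ℤ) * e + e ∈ B ∧ (c : ℤ) * e + e ∈ P ∧ (c : ℤ) * e + e ∈ Q) := by
      rw [hte]; exact hN0
    have tB := h.lemU he0 he'0 hs hg mP r hnPl
    have tA := h.T.lemU he0 he'0 hs hg.T mP r.T (fun hh => hnPl ⟨hh.2.1, hh.1, hh.2.2.1, hh.2.2.2⟩)
    have tP := h.X.lemU he0 he'0 hs (h.goodX he0.le he'0 hs hg) mB r.X (fun hh => hnPl ⟨hh.2.2.2, hh.2.2.1, hh.2.1, hh.1⟩)
    have tQ := h.X.T.lemU he0 he'0 hs (h.goodX he0.le he'0 hs hg).T mB r.X.T (fun hh => hnPl ⟨hh.2.2.2, hh.2.2.1, hh.1, hh.2.1⟩)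
    have nA := h.lemN he0 he'0 hs hg mA mB mP r tA tB tP
    have nB := h.T.lemN he0 he'0 hs hg.T mB mA mP r.T tB tA tP
    have gX := h.goodX he0.le he'0 hs hg
    have nQ := h.X.lemN he0 he'0 hs gX mQ mP mB r.X tQ tP tB
    have nP := h.X.T.lemN he0 he'0 hs gX.T mP mQ mB r.X.T tP tQ tB
    refine ⟨?_, ?_, ?_⟩
    · ext t; constructor
      · intro ht; exact (nB t ht).1
      · intro ht; exact (nA t ht).1
    · ext t; constructor
      · intro ht; exact (nP t ht).2.2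
      · intro ht; exact (nA t ht).2.1
    · ext t; constructor
      · intro ht; exact (nQ t ht).2.2
      · intro ht; exact (nA t ht).2.2

end Cfg

end Pool.Agent.H642R3.Q
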