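import Pool.Agent.H642R3.Q.Cls2

set_option autoImplicit false

namespace Pool.Agent.H642R3.Q

open Finset

namespace KS

variable {δ : ℤ} {K : Finset ℤ}

lemma AP_dvd {n : ℕ} {g x : ℤ} (h : x ∈ AP n g) : g ∣ x := by
  obtain ⟨i, -, rfl⟩ := mem_AP.1 h
  exact Dvd.intro_left _ rfl

theorem classify (h : KS δ K) {r : ℕ} (hr4 : 4 ≤ r) (hr : K.card = r + 1)
    (hδ : δ ≤ 4 * r + 2) (hev : (2 : ℤ) ∣ δ) :
    Alt δ K r ∨ (∃ g : ℤ, (g = 1 ∨ g = 3) ∧ K = AP (r + 1) g ∧ (r : ℤ) * g < δ) ∨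
      (∃ g : ℤ, (g = 1 ∨ g = 3) ∧ K = insert (δ - r * g) (AP r g) ∧ δ - r * g ∉ AP r g) := by
  classical
  have hnn : ∀ x ∈ K, 0 ≤ x := fun x hx => (h.rg x hx).1
  -- smallest class element
  obtain ⟨k0, hk0, hk0pos⟩ : ∃ k ∈ K, 0 < k := by
    have : 1 < K.card := by omega
    obtain ⟨x, hx, y, hy, hxy⟩ := one_lt_card.1 this
    rcases (hnn x hx).lt_or_eq with h1 | h1
    · exact ⟨x, hx, h1⟩
    · rcases (hnn y hy).lt_or_eq with h2 | h2
      · exact ⟨y, hy, h2⟩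
      · omega
  have hS : ((Ioo 0 δ).filter (fun t => t ∈ K ∨ δ - t ∈ K)).Nonempty :=
    ⟨k0, mem_filter.2 ⟨mem_Ioo.2 ⟨hk0pos, (h.rg k0 hk0).2⟩, Or.inl hk0⟩⟩
  obtain ⟨e, heS, hemin⟩ := ((Ioo 0 δ).filter (fun t => t ∈ K ∨ δ - t ∈ K)).exists_min_image id hS
  simp only [id] at hemin
  obtain ⟨he1, he2⟩ := mem_filter.1 heS
  rw [mem_Ioo] at he1
  have hmin : ∀ t ∈ K, t = 0 ∨ (e ≤ t ∧ t ≤ δ - e) := by
    intro t ht
    by_cases h0 : t = 0
    · exact Or.inl h0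
    · right
      have rt := h.rg t ht
      have h1 := hemin t (mem_filter.2 ⟨mem_Ioo.2 ⟨by omega, by omega⟩, Or.inl ht⟩)
      have h2 := hemin (δ - t) (mem_filter.2 ⟨mem_Ioo.2 ⟨by omega, by omega⟩, Or.inr (by rw [sub_sub_cancel]; exact ht)⟩)
      omega
  obtain ⟨N, hN⟩ := hev
  have hev : (2 : ℤ) ∣ δ := ⟨N, hN⟩
  have hr4' : (4 : ℤ) ≤ r := by exact_mod_cast hr4
  -- p-cases
  have pcase : ∀ p : ℤ, e < p → δ = r * p + e → (p = 3 ∨ (p = 4 ∧ e = 2)) := by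
    intro p hp hd
    have hp5 : p ≤ 4 := by
      by_contra hcon
      push Not at hcon
      nlinarith
    have hc : p = 2 ∨ p = 3 ∨ p = 4 := by omega
    rcases hc with rfl | rfl | rfl
    · have : e = 1 := by omega
      omega
    · left; rfl
    · right
      refine ⟨rfl, ?_⟩
      omega
  rcases he2 with he2 | he2
  · -- red
    have hne : δ - e ∉ K := fun hc => h.exc e (δ - e) (by ring) he2 hc
    have hmin' : ∀ t ∈ K, t = 0 ∨ (e ≤ t ∧ t < δ - e) := by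
      intro t ht
      rcases hmin t ht with h1 | h1
      · exact Or.inl h1
      · right
        refine ⟨h1.1, lt_of_le_of_ne h1.2 ?_⟩
        rintro rfl
        exact hne ht
    by_cases h2 : 2 * e ∈ K
    · rcases h.red_long he1.1 he2 h2 hmin' hr hδ hev with h3 | ⟨h3, h4⟩ | ⟨h3, h4, h5⟩
      · exact Or.inl h3
      · have he3 : e ≤ 3 := by
          by_contra hcon
          push Not at hcon
          nlinarith
        have hc : e = 1 ∨ e = 2 ∨ e = 3 := by omega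
        rcases hc with rfl | rfl | rfl
        · right; left; exact ⟨1, Or.inl rfl, h3, by linarith⟩
        · left
          refine h.alt_two hr hδ hev ?_
          intro t ht
          rw [h3] at ht
          exact AP_dvd ht
        · right; left; exact ⟨3, Or.inr rfl, h3, by linarith⟩
      · have he3 : e ≤ 3 := by
          by_contra hcon
          push Not at hcon
          nlinarith
        have hc : e = 1 ∨ e = 2 ∨ e = 3 := by omega
        rcases hc with rfl | rfl | rfl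
        · right; right; exact ⟨1, Or.inl rfl, h3, h4⟩
        · left
          refine h.alt_two hr hδ hev ?_
          intro t ht
          rw [h3, mem_insert] at ht
          rcases ht with rfl | ht
          · exact dvd_sub hev (Dvd.intro_left _ rfl)
          · exact AP_dvd ht
        · right; right; exact ⟨3, Or.inr rfl, h3, h4⟩
    · rcases h.red_short he1.1 he2 h2 hmin' hr4 hr hδ hev with h3 | ⟨p, h3, h4, h5, h6⟩
      · exact Or.inl h3
      · rcases pcase p h3 h6 with rfl | ⟨rfl, he⟩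
        · right; right; exact ⟨3, Or.inr rfl, h4, h5⟩
        · left
          refine h.alt_two hr hδ hev ?_
          intro t ht
          rw [h4, mem_insert] at ht
          rcases ht with rfl | ht
          · exact dvd_sub hev ⟨r * 2, by ring⟩
          · exact dvd_trans ⟨2, by norm_num⟩ (AP_dvd ht)
  · -- blue
    obtain ⟨p, h3, h4, h5⟩ := h.blue he1.1 he1.2 he2 hmin
    rw [hr] at h4 h5
    have h6 : δ = r * p + e := by rw [h5]; push_cast; ring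
    rcases pcase p h3 h6 with rfl | ⟨rfl, he⟩
    · right; left; exact ⟨3, Or.inr rfl, h4, by omega⟩
    · left
      refine h.alt_two hr hδ hev ?_
      intro t ht
      rw [h4] at ht
      exact dvd_trans ⟨2, by norm_num⟩ (AP_dvd ht)

/-- second moment condition -/
def Sec (m : ℕ) (K : Finset ℤ) (Δ : ℤ) : Prop :=
  3 * ∑ t ∈ K, (t ^ 2 + 2 * (t - Δ) ^ 2) = (m : ℤ) * (m + 1) * (2 * m + 1)

lemma sum_AP {n : ℕ} {g : ℤ} (hg : 0 < g) (Δ : ℤ) :
    2 * ∑ t ∈ AP n g, (t ^ 2 + 2 * (t - Δ) ^ 2) =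
      g ^ 2 * (n * (n - 1) * (2 * n - 1)) - 4 * g * Δ * (n * (n - 1)) + 4 * Δ ^ 2 * n := by
  unfold AP
  rw [sum_image (by
    intro a _ b _ hab
    have h1 : (a : ℤ) * g = b * g := hab
    have := mul_right_cancel₀ hg.ne' h1
    exact_mod_cast this)]
  induction n with
  | zero => simp
  | succ n ih =>
    rw [sum_range_succ, mul_add, ih]
    push_cast
    ring

lemma killA {r : ℕ} (hr4 : 4 ≤ r) {g Δ : ℤ} (hg : g = 1 ∨ g = 3) (hΔ : Δ ≤ 2 * r + 1)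
    (h2 : (r : ℤ) * g < 2 * Δ) (hs : Sec (2 * r + 1) (AP (r + 1) g) Δ) : False := by
  unfold Sec at hs
  have h4 : (4 : ℤ) ≤ r := by exact_mod_cast hr4
  have hg0 : 0 < g := by rcases hg with rfl | rfl <;> norm_num
  have h1 := sum_AP (n := r + 1) hg0 Δ
  have h5 : 6 * ∑ t ∈ AP (r + 1) g, (t ^ 2 + 2 * (t - Δ) ^ 2) = 2 * (((2 * r + 1 : ℕ) : ℤ) * ((2 * r + 1 : ℕ) + 1) * (2 * (2 * r + 1 : ℕ) + 1)) := by
    rw [← hs]; ring
  have h6 : 6 * ∑ t ∈ AP (r + 1) g, (t ^ 2 + 2 * (t - Δ) ^ 2) = 3 * (g ^ 2 * (((r + 1 : ℕ) : ℤ) * ((r + 1 : ℕ) - 1) * (2 * (r + 1 : ℕ) - 1)) - 4 * g * Δ * ((r + 1 : ℕ) * ((r + 1 : ℕ) - 1)) + 4 * Δ ^ 2 * (r + 1 : ℕ)) := by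
    rw [← h1]; ring
  rw [h5] at h6
  push_cast at h6
  -- cancel r + 1
  have h7 : ((r : ℤ) + 1) * (4 * (2 * r + 1) * (4 * r + 3)) = ((r : ℤ) + 1) * (3 * (g ^ 2 * (r * (2 * r + 1)) - 4 * g * Δ * r + 4 * Δ ^ 2)) := by
    linarith
  have h8 := mul_left_cancel₀ (by positivity : ((r : ℤ) + 1) ≠ 0) h7
  rcases hg with rfl | rfl
  · nlinarith [mul_nonneg (by linarith : (0 : ℤ) ≤ 2 * r + 1 - Δ) (by nlinarith : (0 : ℤ) ≤ Δ + r + 1)]
  · nlinarith [mul_nonneg (by linarith : (0 : ℤ) ≤ 2 * r + 1 - Δ) (by linarith : (0 : ℤ) ≤ Δ + 1 - r)]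

lemma killB3 {r : ℕ} (hr4 : 4 ≤ r) {Δ : ℤ} (hΔ : Δ ≤ 2 * r + 1)
    (h2 : 3 * (r : ℤ) ≤ 2 * Δ) (hn : 2 * Δ - r * 3 ∉ AP r 3)
    (hs : Sec (2 * r + 1) (insert (2 * Δ - r * 3) (AP r 3)) Δ) : False := by
  unfold Sec at hs
  have h4 : (4 : ℤ) ≤ r := by exact_mod_cast hr4
  rw [sum_insert hn] at hs
  have h1 := sum_AP (n := r) (g := 3) (by norm_num) Δ
  have h6 : 6 * ((2 * Δ - r * 3) ^ 2 + 2 * (2 * Δ - r * 3 - Δ) ^ 2) + 3 * (3 ^ 2 * ((r : ℤ) * (r - 1) * (2 * r - 1)) - 4 * 3 * Δ * (r * (r - 1)) + 4 * Δ ^ 2 * r) = 2 * (((2 * r + 1 : ℕ) : ℤ) * ((2 * r + 1 : ℕ) + 1) * (2 * (2 * r + 1 : ℕ) + 1)) := by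
    rw [← h1, ← hs]; ring
  push_cast at h6
  -- compare with killA expression
  have h7 : ((r : ℤ) + 1) * (4 * (2 * r + 1) * (4 * r + 3)) = ((r : ℤ) + 1) * (3 * (9 * (r * (2 * r + 1)) - 12 * Δ * r + 4 * Δ ^ 2)) + 24 * Δ * (Δ - 3 * r) := by
    linarith
  have h9 : Δ * (Δ - 3 * r) ≤ 0 := by
    apply mul_nonpos_of_nonneg_of_nonpos <;> linarith
  have h8 : (4 * (2 * (r : ℤ) + 1) * (4 * r + 3)) ≤ (3 * (9 * (r * (2 * r + 1)) - 12 * Δ * r + 4 * Δ ^ 2)) := by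
    by_contra hcon
    push Not at hcon
    have := mul_lt_mul_of_pos_left hcon (by positivity : (0 : ℤ) < (r : ℤ) + 1)
    linarith
  nlinarith [mul_nonneg (by linarith : (0 : ℤ) ≤ 2 * r + 1 - Δ) (by linarith : (0 : ℤ) ≤ Δ + 1 - r)]

end KS

end Pool.Agent.H642R3.Q
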