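import Mathlib

set_option autoImplicit false

namespace Pool.Agent.H642R3.Q

open Finset

structure KS (δ : ℤ) (K : Finset ℤ) : Prop where
  pos : 0 < δ
  rg : ∀ t ∈ K, 0 ≤ t ∧ t < δ
  z : (0 : ℤ) ∈ K
  exc : ∀ t t', t + t' = δ → t ∈ K → t' ∉ K
  cov : ∀ x ∈ K, ∀ y ∈ K, ∀ z1 z2 w1 w2, z1 = y - x → z2 = x - y → w1 = x + y - δ → w2 = δ - x - y →
    (z1 ∈ K ∨ z2 ∈ K ∨ w1 ∈ K ∨ w2 ∈ K)

theorem sind {K : Finset ℤ} (hnn : ∀ x ∈ K, 0 ≤ x) {C : ℤ → Prop}
    (hstep : ∀ x ∈ K, (∀ y ∈ K, y < x → C y) → C x) : ∀ x ∈ K, C x := by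
  have key : ∀ n : ℕ, ∀ x ∈ K, x.toNat = n → C x := by
    intro n
    induction n using Nat.strong_induction_on with
    | _ n ih =>
      intro x hx hn
      apply hstep x hx
      intro y hy hyx
      have := hnn y hy
      exact ih y.toNat (by omega) y hy rfl
  intro x hx
  exact key _ x hx rfl

/-- arithmetic progression with `n` terms -/
def AP (n : ℕ) (p : ℤ) : Finset ℤ := (range n).image (fun i : ℕ => (i : ℤ) * p)

lemma mem_AP {n : ℕ} {p x : ℤ} : x ∈ AP n p ↔ ∃ i : ℕ, i < n ∧ x = i * p := by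
  unfold AP
  rw [mem_image]
  constructor
  · rintro ⟨i, hi, rfl⟩; exact ⟨i, mem_range.1 hi, rfl⟩
  · rintro ⟨i, hi, rfl⟩; exact ⟨i, mem_range.2 hi, rfl⟩

lemma card_AP {n : ℕ} {p : ℤ} (hp : 0 < p) : (AP n p).card = n := by
  unfold AP
  rw [card_image_of_injective, card_range]
  intro a b hab
  have h1 : (a : ℤ) * p = b * p := hab
  have := mul_right_cancel₀ hp.ne' h1
  exact_mod_cast this

lemma prog {K : Finset ℤ} {p : ℤ} (hp : 0 < p) (hnn : ∀ x ∈ K, 0 ≤ x) (h0 : (0 : ℤ) ∈ K)
    (hd : ∀ x ∈ K, x = 0 ∨ x - p ∈ K) : K = AP K.card p := by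
  have h1 : ∀ x ∈ K, ∃ i : ℕ, x = i * p ∧ ∀ j : ℕ, j ≤ i → (j : ℤ) * p ∈ K := by
    refine sind hnn (C := fun x => ∃ i : ℕ, x = i * p ∧ ∀ j : ℕ, j ≤ i → (j : ℤ) * p ∈ K) ?_
    intro x hx ih
    rcases hd x hx with rfl | h2
    · refine ⟨0, by simp, ?_⟩
      intro j hj
      have : j = 0 := by omega
      subst this
      simpa using h0
    · obtain ⟨i, hi, hj⟩ := ih _ h2 (by omega)
      refine ⟨i + 1, by push_cast; linarith, ?_⟩
      intro j hj'
      rcases Nat.lt_or_ge i j with h3 | h3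
      · have : j = i + 1 := by omega
        subst this
        have e1 : ((i + 1 : ℕ) : ℤ) * p = x := by push_cast; linarith
        rw [e1]; exact hx
      · exact hj j h3
  have hex : ∃ n : ℕ, (n : ℤ) * p ∉ K := by
    by_contra hcon
    push Not at hcon
    have : (Set.range (fun j : ℕ => ((j : ℤ) * p))).Finite :=
      (K.finite_toSet).subset (by rintro _ ⟨j, rfl⟩; exact hcon j)
    refine Set.infinite_range_of_injective (fun a b hab => ?_) this
    have h1 : (a : ℤ) * p = b * p := hab
    have := mul_right_cancel₀ hp.ne' h1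
    exact_mod_cast this
  have heq : K = AP (Nat.find hex) p := by
    ext x
    rw [mem_AP]
    constructor
    · intro hx
      obtain ⟨i, hi, hj⟩ := h1 x hx
      refine ⟨i, ?_, hi⟩
      by_contra hlt
      push Not at hlt
      exact Nat.find_spec hex (hj _ hlt)
    · rintro ⟨i, hi, rfl⟩
      have := Nat.find_min hex hi
      rwa [not_not] at this
  have hc : K.card = Nat.find hex := (congrArg card heq).trans (card_AP hp)
  rw [hc]
  exact heq

namespace KS

variable {δ : ℤ} {K : Finset ℤ}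

lemma cardbound (h : KS δ K) {g N : ℤ} (hg : 0 < g) (hN : δ = N * g) (hd : ∀ t ∈ K, g ∣ t) :
    2 * (K.card : ℤ) ≤ N + 1 := by
  have hNpos : 0 < N := by
    by_contra hcon
    push Not at hcon
    have := h.pos
    nlinarith
  have hsub : K ∪ K.image (fun t => δ - t) ⊆ (Icc 0 N).image (fun i => i * g) := by
    intro x hx
    rw [mem_union, mem_image] at hx
    rw [mem_image]
    rcases hx with hx | ⟨t, ht, rfl⟩
    · obtain ⟨i, hi⟩ := hd x hx
      have r := h.rg x hx
      refine ⟨i, ?_, by rw [hi]; ring⟩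
      rw [mem_Icc]
      constructor
      · by_contra hc
        push Not at hc
        nlinarith
      · by_contra hc
        push Not at hc
        nlinarith
    · obtain ⟨i, hi⟩ := hd t ht
      have r := h.rg t ht
      refine ⟨N - i, ?_, by rw [hi, hN]; ring⟩
      rw [mem_Icc]
      constructor
      · by_contra hc
        push Not at hc
        nlinarith
      · by_contra hc
        push Not at hc
        nlinarith
  have hdisj : Disjoint K (K.image (fun t => δ - t)) := by
    rw [disjoint_left]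
    intro x hx hx2
    rw [mem_image] at hx2
    obtain ⟨t, ht, rfl⟩ := hx2
    exact h.exc t (δ - t) (by omega) ht hx
  have h1 := card_le_card hsub
  rw [card_union_of_disjoint hdisj, card_image_of_injective _ (fun a b hab => by
    have h' : δ - a = δ - b := hab
    omega)] at h1
  have h2 : ((Icc 0 N).image (fun i => i * g)).card ≤ (Icc 0 N).card := card_image_le
  rw [Int.card_Icc] at h2
  omega

/-- the alternating outcome -/
def Alt (δ : ℤ) (K : Finset ℤ) (r : ℕ) : Prop := (∀ t ∈ K, (2 : ℤ) ∣ t) ∧ δ = 4 * r + 2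

lemma alt_two (h : KS δ K) {r : ℕ} (hr : K.card = r + 1) (hδ : δ ≤ 4 * r + 2) (he : (2 : ℤ) ∣ δ)
    (hd : ∀ t ∈ K, (2 : ℤ) ∣ t) : Alt δ K r := by
  obtain ⟨N, hN⟩ := he
  have := h.cardbound (g := 2) (N := N) (by norm_num) (by linarith) hd
  refine ⟨hd, ?_⟩
  rw [hr] at this
  push_cast at this
  omega

lemma alt_odd (h : KS δ K) {r : ℕ} (hr : K.card = r + 1) (hδ : δ ≤ 4 * r + 2) (he : (2 : ℤ) ∣ δ)
    {g N : ℤ} (hg : 0 < g) (hN : δ = N * g) (hodd : N % 2 = 1) (hd : ∀ t ∈ K, g ∣ t) :
    Alt δ K r := by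
  have h1 := h.cardbound hg hN hd
  rw [hr] at h1
  push_cast at h1
  have hg2 : g ≤ 2 := by
    by_contra hcon
    push Not at hcon
    nlinarith
  have hgc : g = 1 ∨ g = 2 := by omega
  rcases hgc with rfl | rfl
  · omega
  · exact h.alt_two hr hδ he hd

/-- case where the smallest element is blue -/
theorem blue (h : KS δ K) {e : ℤ} (he : 0 < e) (heδ : e < δ) (heK : δ - e ∈ K)
    (hmin : ∀ t ∈ K, t = 0 ∨ (e ≤ t ∧ t ≤ δ - e)) :
    ∃ p, e < p ∧ K = AP K.card p ∧ δ = ((K.card : ℤ) - 1) * p + e := by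
  have hnn : ∀ x ∈ K, 0 ≤ x := fun x hx => (h.rg x hx).1
  have e_notin : e ∉ K := h.exc (δ - e) e (by omega) heK
  have step : ∀ y ∈ K, 0 < y → (δ - e - y ∈ K ∨ y - e ∈ K) := by
    intro y hy hy0
    have hm := (hmin y hy).resolve_left (by omega)
    rcases h.cov y hy (δ - e) heK (δ - e - y) (y - (δ - e)) (y - e) (e - y) rfl rfl (by omega) (by omega)
      with c | c | c | c
    · exact Or.inl c
    · left
      have := hnn _ c
      have e0 : δ - e - y = 0 := by omega
      rw [e0]; exact h.z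
    · exact Or.inr c
    · have := hnn _ c
      have : y = e := by omega
      rw [this] at hy
      exact absurd hy e_notin
  have B1 : ∀ y ∈ K, y + e ∉ K := by
    refine sind hnn (C := fun y => y + e ∉ K) ?_
    intro y hy ih hye
    by_cases h0 : y = 0
    · rw [h0, zero_add] at hye
      exact e_notin hye
    · have hy0 : 0 < y := by have := hnn y hy; omega
      rcases step y hy hy0 with c | c
      · exact h.exc (y + e) (δ - e - y) (by omega) hye c
      · have := ih _ c (by omega)
        rw [sub_add_cancel] at this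
        exact this hy
  have B2 : ∀ x ∈ K, δ - e - x ∈ K := by
    intro x hx
    by_cases h0 : x = 0
    · rw [h0, sub_zero]; exact heK
    · have hy0 : 0 < x := by have := hnn x hx; omega
      rcases step x hx hy0 with c | c
      · exact c
      · have := B1 _ c
        rw [sub_add_cancel] at this
        exact absurd hx this
  -- smallest positive element of K
  obtain ⟨p, hp, hpmin⟩ := (K.filter (fun x => 0 < x)).exists_min_image id
    ⟨δ - e, by rw [mem_filter]; exact ⟨heK, by omega⟩⟩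
  rw [mem_filter] at hp
  obtain ⟨hpK, hp0⟩ := hp
  have hpm : ∀ x ∈ K, x = 0 ∨ p ≤ x := by
    intro x hx
    by_cases h0 : x = 0
    · exact Or.inl h0
    · right
      have := hnn x hx
      exact hpmin x (mem_filter.2 ⟨hx, by omega⟩)
  have hep : e < p := by
    have h1 := (hmin p hpK).resolve_left (by omega)
    rcases lt_or_eq_of_le h1.1 with h2 | h2
    · exact h2
    · rw [← h2] at hpK; exact absurd hpK e_notin
  -- upward closure
  have UC : ∀ z ∈ K, z + p ≤ δ - e → z + p ∈ K := by
    refine sind hnn (C := fun z => z + p ≤ δ - e → z + p ∈ K) ?_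
    intro z hz ih hzp
    by_cases h0 : z = 0
    · rw [h0, zero_add]; exact hpK
    have hzp' : p ≤ z := (hpm z hz).resolve_left h0
    have hsp := B2 p hpK
    rcases h.cov z hz (δ - e - p) hsp (δ - e - p - z) (z - (δ - e - p)) (z - p - e) (p + e - z) rfl rfl
      (by omega) (by omega) with c | c | c | c
    · have := B2 _ c
      have e1 : δ - e - (δ - e - p - z) = z + p := by ring
      rwa [e1] at this
    · have := hnn _ c
      have e1 : z + p = δ - e := by omega
      rw [e1]; exact heK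
    · exfalso
      have h1 := ih _ c (by omega) (by omega)
      have e1 : z - p - e + p = z - e := by ring
      rw [e1] at h1
      have := B1 _ h1
      rw [sub_add_cancel] at this
      exact this hz
    · exfalso
      rcases hpm _ c with h1 | h1
      · have := B1 p hpK
        have e1 : p + e = z := by omega
        rw [e1] at this
        exact this hz
      · omega
  have DC : ∀ x ∈ K, x = 0 ∨ x - p ∈ K := by
    intro x hx
    by_cases h0 : x = 0
    · exact Or.inl h0
    · right
      have h1 := B2 x hx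
      have h2 := (hpm x hx).resolve_left h0
      have h3 := B2 _ (UC _ h1 (by omega))
      have e1 : δ - e - (δ - e - x + p) = x - p := by ring
      rwa [e1] at h3
  have hAP := prog hp0 hnn h.z DC
  refine ⟨p, hep, hAP, ?_⟩
  -- the maximum
  have hcard : 1 < K.card := by
    rw [one_lt_card]
    exact ⟨0, h.z, p, hpK, by omega⟩
  have h1 : δ - e ∈ AP K.card p := by rw [← hAP]; exact heK
  obtain ⟨i, hi, hie⟩ := mem_AP.1 h1
  have h2 : ((K.card - 1 : ℕ) : ℤ) * p ∈ K := by
    have : ((K.card - 1 : ℕ) : ℤ) * p ∈ AP K.card p := mem_AP.2 ⟨K.card - 1, by omega, rfl⟩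
    rwa [← hAP] at this
  have h3 : ((K.card - 1 : ℕ) : ℤ) * p ≤ δ - e := by
    rcases hmin _ h2 with h4 | h4
    · rw [h4]; omega
    · exact h4.2
  have h5 : ((K.card - 1 : ℕ) : ℤ) = (K.card : ℤ) - 1 := by
    rw [Nat.cast_sub hcard.le]; simp
  rw [h5] at h3
  have h6 : (i : ℤ) ≤ (K.card : ℤ) - 1 := by omega
  have h7 : (i : ℤ) * p ≤ ((K.card : ℤ) - 1) * p := mul_le_mul_of_nonneg_right h6 hp0.le
  linarith

/-- structure in the red case -/
lemma redstruct (h : KS δ K) {e : ℤ} (he : 0 < e) (heK : e ∈ K)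
    (hmin : ∀ t ∈ K, t = 0 ∨ (e ≤ t ∧ t < δ - e)) {I : Finset ℤ} {τ : ℤ} (i0 : (0 : ℤ) ∈ I)
    (iup : ∀ y ∈ I, y = τ ∨ y + e ∈ I) (hτ : τ + e ∉ K) :
    ∀ x ∈ K, x ∈ I ∨ (δ - e - x ∈ K ∧ x - e ∉ K) := by
  have hnn : ∀ x ∈ K, 0 ≤ x := fun x hx => (h.rg x hx).1
  refine sind hnn (C := fun x => x ∈ I ∨ (δ - e - x ∈ K ∧ x - e ∉ K)) ?_
  intro x hx ih
  rcases hmin x hx with h0 | ⟨h1, h2⟩
  · left; rw [h0]; exact i0
  · by_cases hxe : x - e ∈ K
    · left
      rcases ih _ hxe (by omega) with h3 | h3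
      · rcases iup _ h3 with h4 | h4
        · rw [← h4, sub_add_cancel] at hτ
          exact absurd hx hτ
        · rwa [sub_add_cancel] at h4
      · exact absurd h3.1 (h.exc x _ (by omega) hx)
    · right
      refine ⟨?_, hxe⟩
      rcases h.cov x hx e heK (e - x) (x - e) (x + e - δ) (δ - e - x) rfl rfl rfl (by omega)
        with c | c | c | c
      · have := hnn _ c
        have e0 : x - e = 0 := by omega
        rw [e0] at hxe
        exact absurd h.z hxe
      · exact absurd c hxe
      · have := hnn _ c; omega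
      · exact c

end KS

end Pool.Agent.H642R3.Q
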