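import Pool.Agent.H642R3.Q.Cls

set_option autoImplicit false

namespace Pool.Agent.H642R3.Q

open Finset

namespace KS

variable {δ : ℤ} {K : Finset ℤ}

theorem red_long (h : KS δ K) {e : ℤ} (he : 0 < e) (heK : e ∈ K) (he2 : 2 * e ∈ K)
    (hmin : ∀ t ∈ K, t = 0 ∨ (e ≤ t ∧ t < δ - e)) {r : ℕ} (hr : K.card = r + 1)
    (hδ : δ ≤ 4 * r + 2) (hev : (2 : ℤ) ∣ δ) :
    Alt δ K r ∨ (K = AP (r + 1) e ∧ ((r : ℤ) + 1) * e < δ) ∨
      (K = insert (δ - r * e) (AP r e) ∧ δ - r * e ∉ AP r e ∧ ((r : ℤ) + 1) * e ≤ δ) := by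
  have hnn : ∀ x ∈ K, 0 ≤ x := fun x hx => (h.rg x hx).1
  have hex : ∃ n : ℕ, (n : ℤ) * e ∉ K := by
    by_contra hcon
    push Not at hcon
    have : (Set.range (fun j : ℕ => ((j : ℤ) * e))).Finite :=
      (K.finite_toSet).subset (by rintro _ ⟨j, rfl⟩; exact hcon j)
    refine Set.infinite_range_of_injective (fun a b hab => ?_) this
    have h1 : (a : ℤ) * e = b * e := hab
    have := mul_right_cancel₀ he.ne' h1
    exact_mod_cast this
  obtain ⟨n0, hn0, hmin0⟩ : ∃ n0 : ℕ, (n0 : ℤ) * e ∉ K ∧ ∀ j : ℕ, j < n0 → (j : ℤ) * e ∈ K :=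
    ⟨Nat.find hex, Nat.find_spec hex, fun j hj => by
      have := Nat.find_min hex hj
      rwa [not_not] at this⟩
  have hn3 : 3 ≤ n0 := by
    by_contra hlt
    have : n0 = 0 ∨ n0 = 1 ∨ n0 = 2 := by omega
    rcases this with rfl | rfl | rfl
    · apply hn0; simpa using h.z
    · apply hn0; simpa using heK
    · apply hn0; simpa using he2
  obtain ⟨b, rfl⟩ : ∃ b, n0 = b + 3 := ⟨n0 - 3, by omega⟩
  set τ : ℤ := ((b : ℤ) + 2) * e with hτ
  set I := AP (b + 3) e with hI
  have hIK : ∀ x ∈ I, x ∈ K := by
    intro x hx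
    obtain ⟨i, hi, rfl⟩ := mem_AP.1 hx
    exact hmin0 i hi
  have i0 : (0 : ℤ) ∈ I := mem_AP.2 ⟨0, by omega, by simp⟩
  have eI : e ∈ I := mem_AP.2 ⟨1, by omega, by simp⟩
  have e2I : 2 * e ∈ I := mem_AP.2 ⟨2, by omega, by simp⟩
  have τI : τ ∈ I := mem_AP.2 ⟨b + 2, by omega, by rw [hτ]; push_cast; ring⟩
  have τ2I : τ - 2 * e ∈ I := mem_AP.2 ⟨b, by omega, by rw [hτ]; ring⟩
  have iup : ∀ y ∈ I, y = τ ∨ y + e ∈ I := by
    intro y hy
    obtain ⟨i, hi, rfl⟩ := mem_AP.1 hy
    by_cases hib : i = b + 2
    · left; rw [hib, hτ]; push_cast; ring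
    · right; exact mem_AP.2 ⟨i + 1, by omega, by push_cast; ring⟩
  have hτe : τ + e ∉ K := by
    have : τ + e = ((b + 3 : ℕ) : ℤ) * e := by rw [hτ]; push_cast; ring
    rw [this]; exact hn0
  have st := h.redstruct he heK hmin i0 iup hτe
  have c2 : ∀ z ∈ K, z ∉ I → z ≠ δ - e - τ → δ - e - z ∉ I := by
    intro z hz hzI hzy hs
    rcases iup _ hs with h3 | h3
    · apply hzy; omega
    · exact h.exc _ z (by ring) (hIK _ h3) hz
  have c3 : ∀ z ∈ K, z ∉ I → z ≠ δ - e - τ → z - 2 * e ∈ K := by
    intro z hz hzI hzy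
    have hs := (st z hz).resolve_left hzI
    have hsI := c2 z hz hzI hzy
    have hs2 := (st _ hs.1).resolve_left hsI
    have hz0 : z ≠ 0 := by rintro rfl; exact hzI i0
    have hze : z ≠ e := by rintro rfl; exact hzI eI
    have hz2 : z ≠ 2 * e := by rintro rfl; exact hzI e2I
    have hm := (hmin z hz).resolve_left hz0
    rcases h.cov z hz (2 * e) he2 (2 * e - z) (z - 2 * e) (z + 2 * e - δ) (δ - e - z - e) rfl rfl rfl (by ring)
      with c | c | c | c
    · rcases hmin _ c with h3 | h3
      · omega
      · omega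
    · exact c
    · exfalso
      rcases hmin _ c with h3 | h3
      · apply hsI
        have : δ - e - z = e := by omega
        rw [this]; exact eI
      · omega
    · exact absurd c hs2.2
  have c4 : ∀ z ∈ K, z ∉ I → z ≠ δ - e - τ → (∃ j : ℕ, z = τ + 2 * e * (j + 1)) ∧
      (τ + 2 * e ∈ K ∧ τ + 2 * e ∉ I ∧ τ + 2 * e ≠ δ - e - τ) := by
    refine sind hnn (C := fun z => z ∉ I → z ≠ δ - e - τ → (∃ j : ℕ, z = τ + 2 * e * (j + 1)) ∧
      (τ + 2 * e ∈ K ∧ τ + 2 * e ∉ I ∧ τ + 2 * e ≠ δ - e - τ)) ?_
    intro z hz ih hzI hzy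
    have hs := (st z hz).resolve_left hzI
    have h3 := c3 z hz hzI hzy
    by_cases h4 : z - 2 * e ∈ I
    · rcases iup _ h4 with h5 | h5
      · have e1 : τ + 2 * e = z := by omega
        refine ⟨⟨0, by push_cast; linarith⟩, ?_⟩
        rw [e1]; exact ⟨hz, hzI, hzy⟩
      · exfalso
        apply hs.2
        have e1 : z - 2 * e + e = z - e := by ring
        rw [e1] at h5
        exact hIK _ h5
    · have h5 : z - 2 * e ≠ δ - e - τ := by
        intro h5
        apply c2 z hz hzI hzy
        have e1 : δ - e - z = τ - 2 * e := by omega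
        rw [e1]; exact τ2I
      obtain ⟨⟨j, hj⟩, h6⟩ := ih _ h3 (by omega) h4 h5
      refine ⟨⟨j + 1, ?_⟩, h6⟩
      push_cast
      linarith
  by_cases hZ : ∃ z ∈ K, z ∉ I ∧ z ≠ δ - e - τ
  · left
    obtain ⟨z, hz, hzI, hzy⟩ := hZ
    obtain ⟨-, hw, hwI, hwy⟩ := c4 z hz hzI hzy
    have hs := (st _ hw).resolve_left hwI
    have hsI := c2 _ hw hwI hwy
    obtain ⟨⟨j, hj⟩, -⟩ := c4 _ hs.1 hsI (by omega)
    have hN : δ = (2 * (b : ℤ) + 2 * j + 9) * e := by
      have : δ = 2 * τ + 3 * e + 2 * e * (j + 1) := by linarith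
      rw [this, hτ]; ring
    refine h.alt_odd hr hδ hev he hN (by omega) ?_
    intro t ht
    by_cases htI : t ∈ I
    · obtain ⟨i, hi, rfl⟩ := mem_AP.1 htI
      exact Dvd.intro_left _ rfl
    · by_cases hty : t = δ - e - τ
      · rw [hty, hN, hτ]
        exact ⟨2 * (b : ℤ) + 2 * j + 9 - 1 - (b + 2), by ring⟩
      · obtain ⟨⟨i, hi⟩, -⟩ := c4 t ht htI hty
        rw [hi, hτ]
        exact ⟨(b : ℤ) + 2 + 2 * (i + 1), by ring⟩
  · right
    push Not at hZ
    by_cases hy : δ - e - τ ∈ K ∧ δ - e - τ ∉ I
    · right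
      have hKeq : K = insert (δ - e - τ) I := by
        ext x
        rw [mem_insert]
        constructor
        · intro hx
          by_cases hxI : x ∈ I
          · exact Or.inr hxI
          · exact Or.inl (hZ x hx hxI)
        · rintro (rfl | hx)
          · exact hy.1
          · exact hIK x hx
      have hc : K.card = b + 3 + 1 := by
        rw [hKeq, card_insert_of_notMem hy.2, hI, card_AP he]
      have hrb : r = b + 3 := by omega
      have e1 : δ - (r : ℤ) * e = δ - e - τ := by rw [hrb, hτ]; push_cast; ring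
      rw [e1]
      refine ⟨by rw [hKeq, hI, hrb], by rw [hrb]; exact hy.2, ?_⟩
      rcases hmin _ hy.1 with h3 | h3
      · exact absurd (by rw [h3]; exact i0) hy.2
      · have : e ≤ δ - (r : ℤ) * e := by rw [e1]; exact h3.1
        linarith
    · left
      have hKeq : K = I := by
        ext x
        constructor
        · intro hx
          by_contra hxI
          have := hZ x hx hxI
          exact hy ⟨by rw [← this]; exact hx, by rw [← this]; exact hxI⟩
        · exact hIK x
      have hc : K.card = b + 3 := by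
        rw [hKeq, hI, card_AP he]
      have hrb : r + 1 = b + 3 := by omega
      refine ⟨by rw [hKeq, hI, hrb], ?_⟩
      have h3 := (hmin τ (hIK _ τI)).resolve_left (by
        rw [hτ]; positivity)
      have e1 : ((r : ℤ) + 1) * e = τ + e := by
        have : (r : ℤ) + 1 = b + 3 := by exact_mod_cast hrb
        rw [this, hτ]; ring
      rw [e1]; omega

theorem red_short (h : KS δ K) {e : ℤ} (he : 0 < e) (heK : e ∈ K) (he2 : 2 * e ∉ K)
    (hmin : ∀ t ∈ K, t = 0 ∨ (e ≤ t ∧ t < δ - e)) {r : ℕ} (hr4 : 4 ≤ r) (hr : K.card = r + 1)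
    (hδ : δ ≤ 4 * r + 2) (hev : (2 : ℤ) ∣ δ) :
    Alt δ K r ∨ (∃ p, e < p ∧ K = insert (δ - r * p) (AP r p) ∧ δ - r * p ∉ AP r p ∧ δ = r * p + e) := by
  classical
  have hnn : ∀ x ∈ K, 0 ≤ x := fun x hx => (h.rg x hx).1
  have F1 : ∀ x ∈ K, x ≠ 0 → x ≠ e → (δ - e - x ∈ K ∧ x - e ∉ K) := by
    intro x hx h0 hxe
    have := h.redstruct (I := {0, e}) (τ := e) he heK hmin (by simp) (by
      intro y hy
      rw [mem_insert, mem_singleton] at hy
      rcases hy with rfl | rfl
      · right; simp
      · left; rfl) (by rw [← two_mul]; exact he2) x hx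
    rcases this with h1 | h1
    · rw [mem_insert, mem_singleton] at h1
      rcases h1 with h1 | h1
      · exact absurd h1 h0
      · exact absurd h1 hxe
    · exact h1
  have F2 : ∀ x ∈ K, x ≠ 0 → x ≠ e → x + e ∉ K := by
    intro x hx h0 hxe hc
    exact h.exc (δ - e - x) (x + e) (by ring) (F1 x hx h0 hxe).1 hc
  set Z := K.filter (fun x => x ≠ 0 ∧ x ≠ e) with hZ
  have mZ : ∀ x, x ∈ Z ↔ x ∈ K ∧ x ≠ 0 ∧ x ≠ e := by intro x; rw [hZ, mem_filter]
  have gZ : ∀ x ∈ Z, e < x ∧ x < δ - e := by
    intro x hx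
    obtain ⟨h1, h2, h3⟩ := (mZ x).1 hx
    have := (hmin x h1).resolve_left h2
    omega
  have cZ : Z.card = r - 1 := by
    have : K = insert 0 (insert e Z) := by
      ext x
      rw [mem_insert, mem_insert, mZ]
      constructor
      · intro hx
        by_cases h0 : x = 0
        · exact Or.inl h0
        · by_cases h1 : x = e
          · exact Or.inr (Or.inl h1)
          · exact Or.inr (Or.inr ⟨hx, h0, h1⟩)
      · rintro (rfl | rfl | hx)
        · exact h.z
        · exact heK
        · exact hx.1
    have hc : K.card = Z.card + 1 + 1 := by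
      conv_lhs => rw [this]
      rw [card_insert_of_notMem, card_insert_of_notMem]
      · rw [mZ]; tauto
      · rw [mem_insert, mZ]
        rintro (h1 | h1)
        · omega
        · exact h1.2.1 rfl
    omega
  have Zne : Z.Nonempty := by rw [← card_pos]; omega
  obtain ⟨p, hpZ, hpmin⟩ := Z.exists_min_image id Zne
  simp only [id] at hpmin
  have hp2e : p ≠ 2 * e := by
    intro hc
    apply he2; rw [← hc]; exact ((mZ p).1 hpZ).1
  have hep := (gZ p hpZ).1
  by_cases hy0 : δ - 2 * e ∈ K
  · -- β case
    left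
    have hb : ∀ x ∈ Z, x ≠ δ - 2 * e → x - 2 * e ∈ K := by
      intro x hx hxy
      obtain ⟨h1, h2, h3⟩ := (mZ x).1 hx
      have g1 := gZ x hx
      have s1 := (F1 x h1 h2 h3).1
      have s2 := F1 _ s1 (by omega) (by omega)
      rcases h.cov x h1 _ hy0 (δ - e - x - e) (x - (δ - 2 * e)) (x - 2 * e) (2 * e - x) (by ring) rfl
        (by ring) (by ring) with c | c | c | c
      · exact absurd c s2.2
      · have := hnn _ c
        rcases hmin _ c with h4 | h4 <;> omega
      · exact c
      · rcases hmin _ c with h4 | h4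
        · exfalso; apply he2
          have : 2 * e = x := by omega
          rw [this]; exact h1
        · omega
    have hb2 : ∀ x ∈ K, x ≠ 0 → x ≠ e → x ≠ δ - 2 * e →
        (∃ j : ℕ, x = (2 * (j : ℤ) + 3) * e) ∧ (3 * e ∈ Z ∧ 3 * e ≠ δ - 2 * e) := by
      refine sind hnn (C := fun x => x ≠ 0 → x ≠ e → x ≠ δ - 2 * e →
        (∃ j : ℕ, x = (2 * (j : ℤ) + 3) * e) ∧ (3 * e ∈ Z ∧ 3 * e ≠ δ - 2 * e)) ?_
      intro x hx ih h0 hxe hxy
      have hxZ : x ∈ Z := (mZ x).2 ⟨hx, h0, hxe⟩
      have h1 := hb x hxZ hxy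
      have g1 := gZ x hxZ
      by_cases h2 : x - 2 * e = 0
      · exfalso; apply he2
        have : 2 * e = x := by omega
        rw [this]; exact hx
      · by_cases h3 : x - 2 * e = e
        · have h4 : x = 3 * e := by omega
          refine ⟨⟨0, by push_cast; linarith⟩, ?_⟩
          rw [← h4]; exact ⟨hxZ, hxy⟩
        · obtain ⟨⟨j, hj⟩, h5⟩ := ih _ h1 (by omega) h2 h3 (by omega)
          exact ⟨⟨j + 1, by push_cast; linarith⟩, h5⟩
    obtain ⟨x, hx, hxy⟩ : ∃ x ∈ Z, x ≠ δ - 2 * e := by
      by_contra hcon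
      push Not at hcon
      have : Z ⊆ {δ - 2 * e} := fun x hx => mem_singleton.2 (hcon x hx)
      have := card_le_card this
      rw [card_singleton] at this
      omega
    obtain ⟨hxK, hx0, hxe⟩ := (mZ x).1 hx
    obtain ⟨-, h3Z, h3y⟩ := hb2 x hxK hx0 hxe hxy
    have g3 := gZ _ h3Z
    obtain ⟨k1, k2, k3⟩ := (mZ _).1 h3Z
    have s3 := (F1 _ k1 k2 k3).1
    obtain ⟨⟨j, hj⟩, -⟩ := hb2 _ s3 (by omega) (by omega) (by omega)
    have hN : δ = (2 * (j : ℤ) + 7) * e := by linarith
    refine h.alt_odd hr hδ hev he hN (by omega) ?_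
    intro t ht
    by_cases h0 : t = 0
    · rw [h0]; exact dvd_zero _
    · by_cases h1 : t = e
      · rw [h1]
      · by_cases h2 : t = δ - 2 * e
        · rw [h2, hN]; exact ⟨2 * (j : ℤ) + 7 - 2, by ring⟩
        · obtain ⟨⟨i, hi⟩, -⟩ := hb2 t ht h0 h1 h2
          rw [hi]; exact Dvd.intro_left _ rfl
  · -- α case
    have sZ : ∀ z ∈ Z, δ - e - z ∈ Z := by
      intro z hz
      obtain ⟨h1, h2, h3⟩ := (mZ z).1 hz
      have g1 := gZ z hz
      refine (mZ _).2 ⟨(F1 z h1 h2 h3).1, by omega, ?_⟩
      intro h4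
      apply hy0
      have : δ - 2 * e = z := by omega
      rw [this]; exact h1
    set P := δ - e - p with hP
    have PZ : P ∈ Z := sZ p hpZ
    have leP : ∀ z ∈ Z, z ≤ P := by
      intro z hz
      have := hpmin _ (sZ z hz)
      omega
    have KZ : ∀ z ∈ Z, z ∈ K := fun z hz => ((mZ z).1 hz).1
    have c1 : ∀ z ∈ Z, (z - p ∈ K ∨ δ - e - z - (p - e) ∈ K) := by
      intro z hz
      have g1 := gZ z hz
      have g2 := hpmin z hz
      have g3 := hpmin _ (sZ z hz)
      rcases h.cov z (KZ z hz) p (KZ p hpZ) (p - z) (z - p) (z + p - δ) (δ - e - z - (p - e)) rfl rfl rfl (by ring)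
        with c | c | c | c
      · have := hnn _ c
        left
        have e0 : z - p = 0 := by omega
        rw [e0]; exact h.z
      · exact Or.inl c
      · have := hnn _ c; omega
      · exact Or.inr c
    have c3 : ∀ z ∈ Z, z ≠ p → z - p ∈ K → z - (p - e) ∉ K := by
      intro z hz hzp h1 h2
      have g2 := hpmin z hz
      obtain ⟨k1, k2, k3⟩ := (mZ z).1 hz
      by_cases h3 : z - p = e
      · apply (F1 z k1 k2 k3).2
        have : z - e = p := by omega
        rw [this]; exact KZ p hpZ
      · apply F2 _ h1 (by omega) h3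
        have : z - p + e = z - (p - e) := by ring
        rw [this]; exact h2
    have types : ∀ z ∈ Z, z ≠ p → z ≠ P → (z - p ∈ Z ∧ z + p ∈ Z) ∨
        (z - (p - e) ∈ Z ∧ z + (p - e) ∈ Z ∧ z - p ∉ K) := by
      intro z hz hzp hzP
      have g1 := gZ z hz
      have g2 := hpmin z hz
      have g4 := gZ _ (sZ z hz)
      have g3 := hpmin _ (sZ z hz)
      obtain ⟨k1, k2, k3⟩ := (mZ z).1 hz
      obtain ⟨l1, l2, l3⟩ := (mZ _).1 (sZ z hz)
      have hne : δ - e - z ≠ p := by omega
      by_cases h1 : z - p ∈ K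
      · left
        have h2 := c3 z hz hzp h1
        have h3 : δ - e - z - p ∈ K := by
          rcases c1 _ (sZ z hz) with h4 | h4
          · exact h4
          · exfalso; apply h2
            have : δ - e - (δ - e - z) - (p - e) = z - (p - e) := by ring
            rwa [this] at h4
        have h4 : z - p ∈ Z := by
          refine (mZ _).2 ⟨h1, by omega, ?_⟩
          intro h5
          apply (F1 z k1 k2 k3).2
          have : z - e = p := by omega
          rw [this]; exact KZ p hpZ
        have h5 : δ - e - z - p ∈ Z := by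
          refine (mZ _).2 ⟨h3, by omega, ?_⟩
          intro h5
          apply (F1 _ l1 l2 l3).2
          have : δ - e - z - e = p := by omega
          rw [this]; exact KZ p hpZ
        refine ⟨h4, ?_⟩
        have := sZ _ h5
        have e1 : δ - e - (δ - e - z - p) = z + p := by ring
        rwa [e1] at this
      · right
        have h2 : δ - e - z - (p - e) ∈ K := (c1 z hz).resolve_left h1
        have h3 : δ - e - z - p ∉ K := fun h4 => c3 _ (sZ z hz) hne h4 h2
        have h4 : z - (p - e) ∈ K := by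
          have := (c1 _ (sZ z hz)).resolve_left h3
          have e1 : δ - e - (δ - e - z) - (p - e) = z - (p - e) := by ring
          rwa [e1] at this
        have h5 : z - (p - e) ∈ Z := (mZ _).2 ⟨h4, by omega, by omega⟩
        have h6 : δ - e - z - (p - e) ∈ Z := (mZ _).2 ⟨h2, by omega, by omega⟩
        refine ⟨h5, ?_, h1⟩
        have := sZ _ h6
        have e1 : δ - e - (δ - e - z - (p - e)) = z + (p - e) := by ring
        rwa [e1] at this
    -- second smallest element
    have Z'ne : (Z.erase p).Nonempty := by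
      rw [← card_pos, card_erase_of_mem hpZ]; omega
    obtain ⟨z2, hz2, hz2min⟩ := (Z.erase p).exists_min_image id Z'ne
    simp only [id] at hz2min
    have hz2p : z2 ≠ p := (mem_erase.1 hz2).1
    have hz2Z : z2 ∈ Z := (mem_erase.1 hz2).2
    have hz2P : z2 ≠ P := by
      obtain ⟨z3, hz3⟩ : ((Z.erase p).erase z2).Nonempty := by
        rw [← card_pos, card_erase_of_mem hz2, card_erase_of_mem hpZ]; omega
      have h1 := mem_erase.1 hz3
      have h2 := hz2min _ h1.2
      have h3 := leP _ (mem_erase.1 h1.2).2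
      have := h1.1
      omega
    have small : ∀ z ∈ Z, z < z2 → z = p := by
      intro z hz hlt
      by_contra hne
      have := hz2min z (mem_erase.2 ⟨hne, hz⟩)
      omega
    rcases types z2 hz2Z hz2p hz2P with ⟨t1, t2⟩ | ⟨t1, t2, t3⟩
    · -- type a
      right
      have e2 : z2 = 2 * p := by
        have := small _ t1 (by omega)
        omega
      have cl : ∀ z ∈ Z, z ≠ P → (p ∣ z ∧ z + p ∈ Z) := by
        have hnnZ : ∀ x ∈ Z, 0 ≤ x := fun x hx => hnn x (KZ x hx)
        refine sind hnnZ (C := fun z => z ≠ P → (p ∣ z ∧ z + p ∈ Z)) ?_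
        intro z hz ih hzP
        by_cases hzp : z = p
        · rw [hzp]
          refine ⟨dvd_refl _, ?_⟩
          rw [← two_mul, ← e2]; exact hz2Z
        · have g1 := gZ z hz
          have g5 := leP z hz
          rcases types z hz hzp hzP with ⟨u1, u2⟩ | ⟨u1, u2, u3⟩
          · obtain ⟨v1, -⟩ := ih _ u1 (by omega) (by omega)
            refine ⟨?_, u2⟩
            have := dvd_add v1 (dvd_refl p)
            rwa [sub_add_cancel] at this
          · exfalso
            obtain ⟨-, v2⟩ := ih _ u1 (by omega) (by omega)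
            obtain ⟨k1, k2, k3⟩ := (mZ z).1 hz
            apply F2 z k1 k2 k3
            have : z - (p - e) + p = z + e := by ring
            rw [this] at v2
            exact KZ _ v2
      have Pp : P - p ∈ Z := by
        have := sZ _ hz2Z
        have e1 : δ - e - z2 = P - p := by rw [e2, hP]; ring
        rwa [e1] at this
      have desc : ∀ x ∈ K.erase e, x = 0 ∨ x - p ∈ K.erase e := by
        intro x hx
        obtain ⟨hxe, hxK⟩ := mem_erase.1 hx
        by_cases h0 : x = 0
        · exact Or.inl h0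
        · right
          have hxZ : x ∈ Z := (mZ x).2 ⟨hxK, h0, hxe⟩
          by_cases hxp : x = p
          · rw [hxp, sub_self]
            exact mem_erase.2 ⟨by omega, h.z⟩
          · by_cases hxP : x = P
            · rw [hxP]
              exact mem_erase.2 ⟨((mZ _).1 Pp).2.2, KZ _ Pp⟩
            · rcases types x hxZ hxp hxP with ⟨u1, u2⟩ | ⟨u1, u2, u3⟩
              · exact mem_erase.2 ⟨((mZ _).1 u1).2.2, KZ _ u1⟩
              · exfalso
                have g5 := leP x hxZ
                obtain ⟨-, v2⟩ := cl _ u1 (by omega)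
                obtain ⟨k1, k2, k3⟩ := (mZ x).1 hxZ
                apply F2 x k1 k2 k3
                have : x - (p - e) + p = x + e := by ring
                rw [this] at v2
                exact KZ _ v2
      have hp0 : 0 < p := by omega
      have hAP := prog hp0 (fun x hx => hnn x (mem_erase.1 hx).2) (mem_erase.2 ⟨by omega, h.z⟩) desc
      have hcE : (K.erase e).card = r := by rw [card_erase_of_mem heK]; omega
      rw [hcE] at hAP
      have PinE : P ∈ AP r p := by
        rw [← hAP]; exact mem_erase.2 ⟨((mZ _).1 PZ).2.2, KZ _ PZ⟩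
      obtain ⟨i, hi, hiP⟩ := mem_AP.1 PinE
      have topE : ((r - 1 : ℕ) : ℤ) * p ∈ K.erase e := by
        rw [hAP]; exact mem_AP.2 ⟨r - 1, by omega, rfl⟩
      have topZ : ((r - 1 : ℕ) : ℤ) * p ∈ Z := by
        obtain ⟨q1, q2⟩ := mem_erase.1 topE
        refine (mZ _).2 ⟨q2, ?_, q1⟩
        have : ((r - 1 : ℕ) : ℤ) ≠ 0 := by omega
        exact mul_ne_zero this hp0.ne'
      have h6 := leP _ topZ
      have hi2 : (i : ℤ) ≤ ((r - 1 : ℕ) : ℤ) := by omega
      have h7 : (i : ℤ) * p ≤ ((r - 1 : ℕ) : ℤ) * p := mul_le_mul_of_nonneg_right hi2 hp0.le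
      have h8 : P = ((r : ℤ) - 1) * p := by
        have : ((r - 1 : ℕ) : ℤ) = (r : ℤ) - 1 := by omega
        rw [this] at h6 h7
        linarith
      have hδe : δ = r * p + e := by
        have : δ = P + e + p := by rw [hP]; ring
        rw [this, h8]; ring
      refine ⟨p, hep, ?_, ?_, hδe⟩
      · have e1 : δ - (r : ℤ) * p = e := by rw [hδe]; ring
        rw [e1, ← hAP, insert_erase heK]
      · have e1 : δ - (r : ℤ) * p = e := by rw [hδe]; ring
        rw [e1, ← hAP]
        exact notMem_erase _ _
    · -- type b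
      left
      set q := p - e with hq
      have hz2' : z2 = p + q := by
        have := small _ t1 (by omega)
        omega
      have hq0 : 0 < q := by omega
      have hqe : q ≠ e := by omega
      have qK : q ∉ K := by
        intro hc
        have : q ∈ Z := (mZ _).2 ⟨hc, by omega, hqe⟩
        have := hpmin _ this
        omega
      -- maximal run
      have hex : ∃ n : ℕ, p + (n : ℤ) * q ∉ Z := by
        by_contra hcon
        push Not at hcon
        have : (Set.range (fun j : ℕ => (p + (j : ℤ) * q))).Finite :=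
          (Z.finite_toSet).subset (by rintro _ ⟨j, rfl⟩; exact hcon j)
        refine Set.infinite_range_of_injective (fun a b hab => ?_) this
        have h1 : p + (a : ℤ) * q = p + b * q := hab
        have := mul_right_cancel₀ hq0.ne' (by linarith : (a : ℤ) * q = b * q)
        exact_mod_cast this
      obtain ⟨n0, hn0, hmin0⟩ : ∃ n0 : ℕ, p + (n0 : ℤ) * q ∉ Z ∧ ∀ j : ℕ, j < n0 → p + (j : ℤ) * q ∈ Z :=
        ⟨Nat.find hex, Nat.find_spec hex, fun j hj => by
          have := Nat.find_min hex hj
          rwa [not_not] at this⟩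
      have hn3 : 3 ≤ n0 := by
        by_contra hlt
        have : n0 = 0 ∨ n0 = 1 ∨ n0 = 2 := by omega
        rcases this with rfl | rfl | rfl
        · apply hn0; simpa using hpZ
        · apply hn0
          have : p + ((1 : ℕ) : ℤ) * q = z2 := by rw [hz2']; push_cast; ring
          rw [this]; exact hz2Z
        · apply hn0
          have : p + ((2 : ℕ) : ℤ) * q = z2 + q := by rw [hz2']; push_cast; ring
          rw [this]; exact t2
      obtain ⟨j, rfl⟩ : ∃ j, n0 = j + 1 := ⟨n0 - 1, by omega⟩
      have hjP : p + (j : ℤ) * q = P := by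
        by_contra hne
        have hjZ := hmin0 j (by omega)
        have hjq : 0 < (j : ℤ) * q := by
          have : (0 : ℤ) < j := by omega
          positivity
        rcases types _ hjZ (by omega) hne with ⟨u1, u2⟩ | ⟨u1, u2, u3⟩
        · have := c3 _ hjZ (by omega) (KZ _ u1)
          apply this
          have h9 := hmin0 (j - 1) (by omega)
          have e1 : p + (j : ℤ) * q - (p - e) = p + ((j - 1 : ℕ) : ℤ) * q := by
            have : ((j - 1 : ℕ) : ℤ) = (j : ℤ) - 1 := by omega
            rw [this, hq]; ring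
          rw [e1]; exact KZ _ h9
        · apply hn0
          have e1 : p + ((j + 1 : ℕ) : ℤ) * q = p + (j : ℤ) * q + q := by push_cast; ring
          rw [e1]; exact u2
      have hδj : δ = 2 * p + e + j * q := by
        have : δ = P + e + p := by rw [hP]; ring
        rw [this, ← hjP]; ring
      -- consecutive pairs
      have pairs : ∀ i : ℕ, i < j → ((2 * (i : ℤ) + 1 - j) * q - e ∈ K ∨ e - (2 * (i : ℤ) + 1 - j) * q ∈ K) := by
        intro i hi
        have a1 := hmin0 i (by omega)
        have a2 := hmin0 (i + 1) (by omega)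
        rcases h.cov _ (KZ _ a1) _ (KZ _ a2) q (-q) ((2 * (i : ℤ) + 1 - j) * q - e)
          (e - (2 * (i : ℤ) + 1 - j) * q) (by push_cast; ring) (by push_cast; ring)
          (by rw [hδj]; push_cast; ring) (by rw [hδj]; push_cast; ring) with c | c | c | c
        · exact absurd c qK
        · have := hnn _ c; omega
        · exact Or.inl c
        · exact Or.inr c
      have hcase : q = 2 * e ∨ (e = 2 * q ∧ j % 2 = 1) := by
        rcases Nat.even_or_odd' j with ⟨i, hi | hi⟩
        · -- j = 2 i
          left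
          have hc := pairs i (by omega)
          have e1 : (2 * (i : ℤ) + 1 - j) = 1 := by rw [hi]; push_cast; ring
          rw [e1, one_mul] at hc
          rcases hc with hc | hc
          · have := hnn _ hc
            by_cases h9 : q - e = e
            · omega
            · have : q - e ∈ Z := (mZ _).2 ⟨hc, by omega, h9⟩
              have := hpmin _ this
              omega
          · rcases hmin _ hc with h9 | h9
            · omega
            · omega
        · -- j = 2 i + 1
          have hc := pairs (i + 1) (by omega)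
          have e1 : (2 * ((i + 1 : ℕ) : ℤ) + 1 - j) = 2 := by rw [hi]; push_cast; ring
          rw [e1] at hc
          rcases hc with hc | hc
          · have := hnn _ hc
            by_cases h8 : 2 * q - e = 0
            · right; omega
            · by_cases h9 : 2 * q - e = e
              · omega
              · left
                have h10 : 2 * q - e ∈ Z := (mZ _).2 ⟨hc, h8, h9⟩
                have := small _ h10 (by omega)
                omega
          · rcases hmin _ hc with h9 | h9
            · right; omega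
            · omega
      have divZ : ∀ g : ℤ, g ∣ p → g ∣ q → ∀ z ∈ Z, g ∣ z := by
        intro g gp gq
        have hnnZ : ∀ x ∈ Z, 0 ≤ x := fun x hx => hnn x (KZ x hx)
        refine sind hnnZ (C := fun z => g ∣ z) ?_
        intro z hz ih
        by_cases hzp : z = p
        · rw [hzp]; exact gp
        · by_cases hzP : z = P
          · rw [hzP, ← hjP]
            exact dvd_add gp (Dvd.dvd.mul_left gq _)
          · rcases types z hz hzp hzP with ⟨u1, u2⟩ | ⟨u1, u2, u3⟩
            · have := dvd_add (ih _ u1 (by omega)) gp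
              rwa [sub_add_cancel] at this
            · have := dvd_add (ih _ u1 (by omega)) gq
              have e1 : z - (p - e) + q = z := by rw [hq]; ring
              rwa [e1] at this
      have divK : ∀ g : ℤ, g ∣ p → g ∣ q → g ∣ e → ∀ z ∈ K, g ∣ z := by
        intro g gp gq ge z hz
        by_cases h0 : z = 0
        · rw [h0]; exact dvd_zero _
        · by_cases h1 : z = e
          · rw [h1]; exact ge
          · exact divZ g gp gq z ((mZ z).2 ⟨hz, h0, h1⟩)
      rcases hcase with h9 | ⟨h9, h10⟩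
      · have hp3 : p = 3 * e := by omega
        have hN : δ = (2 * (j : ℤ) + 7) * e := by rw [hδj, hp3, h9]; ring
        exact h.alt_odd hr hδ hev he hN (by omega)
          (divK e (by rw [hp3]; exact Dvd.intro_left _ rfl) (by rw [h9]; exact Dvd.intro_left _ rfl) (dvd_refl _))
      · have hp3 : p = 3 * q := by omega
        have hN : δ = ((j : ℤ) + 8) * q := by rw [hδj, hp3, h9]; ring
        exact h.alt_odd hr hδ hev hq0 hN (by omega)
          (divK q (by rw [hp3]; exact Dvd.intro_left _ rfl) (dvd_refl _) (by rw [h9]; exact Dvd.intro_left _ rfl))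

end KS

end Pool.Agent.H642R3.Q
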