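import Pool.Agent.H642R3.Q.Halved

set_option autoImplicit false

namespace Pool.Agent.H642R3.Q

open Finset

/-- a set of `m` squares with even centred coordinates dominating the board of side `2m+1` exists
only for `m = 1, 5`. -/
theorem even_class (m : ℕ) (D : Finset (ℤ × ℤ)) (hcard : D.card = m)
    (heven : ∀ q ∈ D, Even q.1 ∧ Even q.2)
    (hdom : ∀ x y : ℤ, |x| ≤ m → |y| ≤ m →
      ∃ q ∈ D, x = q.1 ∨ y = q.2 ∨ x - y = q.1 - q.2 ∨ x + y = q.1 + q.2) :
    m = 1 ∨ m = 5 := by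
  classical
  have hm0 : m ≠ 0 := by
    rintro rfl
    obtain ⟨q, hq, -⟩ := hdom 0 0 (by simp) (by simp)
    rw [card_eq_zero] at hcard
    rw [hcard] at hq
    exact absurd hq (notMem_empty q)
  -- every even column and row is occupied
  have hcolE : ∀ x : ℤ, |2 * x| ≤ m → ∃ q ∈ D, q.1 = 2 * x := by
    intro x hx
    obtain ⟨q, hq, h⟩ := hdom (2 * x) 1 hx (by rw [abs_one]; omega)
    obtain ⟨⟨a, ha⟩, ⟨b, hb⟩⟩ := heven q hq
    rcases h with h | h | h | h
    · exact ⟨q, hq, h.symm⟩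
    · omega
    · omega
    · omega
  have hrowE : ∀ x : ℤ, |2 * x| ≤ m → ∃ q ∈ D, q.2 = 2 * x := by
    intro x hx
    obtain ⟨q, hq, h⟩ := hdom 1 (2 * x) (by rw [abs_one]; omega) hx
    obtain ⟨⟨a, ha⟩, ⟨b, hb⟩⟩ := heven q hq
    rcases h with h | h | h | h
    · omega
    · exact ⟨q, hq, h.symm⟩
    · omega
    · omega
  -- m is odd
  have hodd : m % 2 = 1 := by
    by_contra hne
    obtain ⟨j, hj⟩ : ∃ j, m = 2 * j := ⟨m / 2, by omega⟩
    have hsub : (Icc (-(j : ℤ)) j).image (fun x => 2 * x) ⊆ D.image Prod.fst := by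
      intro a ha
      obtain ⟨x, hx, rfl⟩ := mem_image.1 ha
      rw [mem_Icc] at hx
      obtain ⟨q, hq, h⟩ := hcolE x (by rw [abs_le]; constructor <;> omega)
      exact mem_image.2 ⟨q, hq, h⟩
    have h1 := card_le_card hsub
    rw [card_image_of_injective _ (fun a b h => by have h' : 2 * a = 2 * b := h; omega), Int.card_Icc] at h1
    have h2 : (D.image Prod.fst).card ≤ D.card := card_image_le
    omega
  obtain ⟨k, hk⟩ : ∃ k, m = 2 * k + 1 := ⟨m / 2, by omega⟩
  -- small k
  by_cases hk3 : 1 ≤ k ∧ k ≠ 2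
  · exfalso
    set D' : Finset (ℤ × ℤ) := D.image (fun q => (q.1 / 2, q.2 / 2)) with hD'
    have hmem : ∀ q ∈ D, (q.1 / 2, q.2 / 2) ∈ D' := fun q hq => mem_image.2 ⟨q, hq, rfl⟩
    have hcard' : D'.card = 2 * k + 1 := by
      rw [hD', card_image_of_injOn, hcard, hk]
      intro p hp q hq h
      simp only [Prod.mk.injEq] at h
      obtain ⟨⟨a, ha⟩, ⟨b, hb⟩⟩ := heven p hp
      obtain ⟨⟨a', ha'⟩, ⟨b', hb'⟩⟩ := heven q hq
      ext
      · omega
      · omega
    refine halved_main hk3.1 hk3.2 D' hcard' ?_ ?_ ?_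
    · intro a ha
      rw [mem_Icc] at ha
      obtain ⟨q, hq, h⟩ := hcolE a (by rw [abs_le]; constructor <;> omega)
      exact ⟨_, hmem q hq, by simp only; omega⟩
    · intro a ha
      rw [mem_Icc] at ha
      obtain ⟨q, hq, h⟩ := hrowE a (by rw [abs_le]; constructor <;> omega)
      exact ⟨_, hmem q hq, by simp only; omega⟩
    · intro u v huv hle
      rw [Int.odd_iff] at huv
      obtain ⟨q, hq, h⟩ := hdom (v - u) (u + v) (by rw [abs_le]; constructor <;> (cases abs_cases u <;> cases abs_cases v <;> omega))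
        (by rw [abs_le]; constructor <;> (cases abs_cases u <;> cases abs_cases v <;> omega))
      obtain ⟨⟨a, ha⟩, ⟨b, hb⟩⟩ := heven q hq
      rcases h with h | h | h | h
      · omega
      · omega
      · left; exact ⟨_, hmem q hq, by simp only; omega⟩
      · right; exact ⟨_, hmem q hq, by simp only; omega⟩
  · omega

end Pool.Agent.H642R3.Q
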