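import Pool.Agent.H642R3.Q.Sums

set_option autoImplicit false

namespace Pool.Agent.H642R3.Q

/-- parameters for the certificate exist, larger class odd -/
lemma cert_o (k n : ℕ) (hk : 100 ≤ k)
    (hl : 15773 / 10000 * (k : ℚ) + 178865 / 100000 ≤ 2 * (n : ℚ) + 1) :
    ∃ d x1 w0 : ℚ, 0 ≤ d ∧ d ≤ x1 ∧ 0 < x1 ∧ 2 * x1 + d ≤ w0 ∧
      4 * ∑ i ∈ Finset.range k, gq d x1 (i + 1) < SLo (psi d x1 w0) n := by
  have hk' : (100 : ℚ) ≤ k := by exact_mod_cast hk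
  set K : ℚ := (k : ℚ) with hK
  refine ⟨1 / 8 * K, 1 / 8 * K + (3 / 11 * K - 1 / 8 * K), (2 * (n : ℚ) + 1) / 2, by linarith, by linarith, by linarith,
    by linarith, ?_⟩
  have hc : (2 : ℚ) / 3 ≤ 3 / 11 * K - 1 / 8 * K := by linarith
  have hd : (1 : ℚ) ≤ 1 / 8 * K := by linarith
  have h1 := g_sum (d := 1 / 8 * K) (c := 3 / 11 * K - 1 / 8 * K) (by linarith) k
  have h2 := SLo_bound (d := 1 / 8 * K) (c := 3 / 11 * K - 1 / 8 * K) (w0 := (2 * (n : ℚ) + 1) / 2) n hd hc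
  have h3 := final_poly (k := K) (l := 2 * (n : ℚ) + 1) hk' hl
  refine lt_of_le_of_lt (mul_le_mul_of_nonneg_left h1 (by norm_num)) (lt_of_lt_of_le ?_ h2)
  unfold Gf
  rw [← hK, if_pos (by linarith)]
  unfold PP FF
  rw [Fo_zero (z := -(2 * (n : ℚ) - (2 * (n : ℚ) + 1) / 2)) (by linarith),
    Fo_zero (z := -((2 * (n : ℚ) + 1) / 2)) (by linarith),
    Fo_pos (z := (2 * (n : ℚ) - (2 * (n : ℚ) + 1) / 2)) (by linarith),
    Fo_pos (z := ((2 * (n : ℚ) + 1) / 2)) (by linarith)]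
  have e1 : (2 * (n : ℚ) - (2 * (n : ℚ) + 1) / 2) - 1 / 8 * K = (2 * (n : ℚ) + 1) / 2 - 1 - 1 / 8 * K := by ring
  have e2 : K + 1 / 2 - (1 / 8 * K + (3 / 11 * K - 1 / 8 * K)) = K + 1 / 2 - 3 / 11 * K := by ring
  rw [e1, e2]
  have hB : 0 ≤ (2 * ((2 * (n:ℚ) + 1) / 2) - (3 / 11 * K + 1 / 8 * K)) / 2 := by linarith
  refine lt_of_lt_of_le h3 ?_
  rw [← sub_nonneg] at hB ⊢
  refine le_trans hB (le_of_eq ?_)
  ring

/-- parameters for the certificate exist, larger class even -/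
lemma cert_e (k n : ℕ) (hk : 100 ≤ k)
    (hl : 15773 / 10000 * (k : ℚ) + 178865 / 100000 ≤ 2 * (n : ℚ) + 2) :
    ∃ d x1 w0 : ℚ, 0 ≤ d ∧ d ≤ x1 ∧ 0 < x1 ∧ 2 * x1 + d ≤ w0 ∧
      4 * ∑ i ∈ Finset.range k, gq d x1 (i + 1) < SLe (psi d x1 w0) n := by
  have hk' : (100 : ℚ) ≤ k := by exact_mod_cast hk
  set K : ℚ := (k : ℚ) with hK
  refine ⟨1 / 8 * K, 1 / 8 * K + (3 / 11 * K - 1 / 8 * K), (2 * (n : ℚ) + 2) / 2, by linarith, by linarith, by linarith,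
    by linarith, ?_⟩
  have hc : (2 : ℚ) / 3 ≤ 3 / 11 * K - 1 / 8 * K := by linarith
  have hd : (1 : ℚ) ≤ 1 / 8 * K := by linarith
  have h1 := g_sum (d := 1 / 8 * K) (c := 3 / 11 * K - 1 / 8 * K) (by linarith) k
  have h2 := SLe_bound (d := 1 / 8 * K) (c := 3 / 11 * K - 1 / 8 * K) (w0 := (2 * (n : ℚ) + 2) / 2) n hd hc
    (by linarith)
  have h3 := final_poly (k := K) (l := 2 * (n : ℚ) + 2) hk' hl
  refine lt_of_le_of_lt (mul_le_mul_of_nonneg_left h1 (by norm_num)) (lt_of_lt_of_le ?_ h2)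
  unfold Gf
  rw [← hK, if_pos (by linarith)]
  unfold PP FF
  rw [Fo_zero (z := -(2 * (n : ℚ) + 1 - (2 * (n : ℚ) + 2) / 2)) (by linarith),
    Fo_zero (z := -((2 * (n : ℚ) + 2) / 2)) (by linarith),
    Fo_pos (z := (2 * (n : ℚ) + 1 - (2 * (n : ℚ) + 2) / 2)) (by linarith),
    Fo_pos (z := ((2 * (n : ℚ) + 2) / 2)) (by linarith)]
  have e1 : (2 * (n : ℚ) + 1 - (2 * (n : ℚ) + 2) / 2) - 1 / 8 * K = (2 * (n : ℚ) + 2) / 2 - 1 - 1 / 8 * K := by ring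
  have e2 : K + 1 / 2 - (1 / 8 * K + (3 / 11 * K - 1 / 8 * K)) = K + 1 / 2 - 3 / 11 * K := by ring
  rw [e1, e2]
  refine lt_of_lt_of_le h3 (le_of_eq ?_)
  ring

/-- k = 9 -/
lemma cert_9 : ∃ d x1 w0 : ℚ, 0 ≤ d ∧ d ≤ x1 ∧ 0 < x1 ∧ 2 * x1 + d ≤ w0 ∧
      4 * ∑ i ∈ Finset.range 9, gq d x1 (i + 1) < SLe (psi d x1 w0) 7 := by
  refine ⟨3 / 2, 3, 15 / 2, by norm_num, by norm_num, by norm_num, by norm_num, ?_⟩
  norm_num [SLe, psi, gq, eq0, Finset.sum_range_succ, abs_of_nonneg, abs_of_neg, abs_div]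

/-- k = 35 -/
lemma cert_35 : ∃ d x1 w0 : ℚ, 0 ≤ d ∧ d ≤ x1 ∧ 0 < x1 ∧ 2 * x1 + d ≤ w0 ∧
      4 * ∑ i ∈ Finset.range 35, gq d x1 (i + 1) < SLo (psi d x1 w0) 28 := by
  refine ⟨5, 10, 28, by norm_num, by norm_num, by norm_num, by norm_num, ?_⟩
  norm_num [SLo, psi, gq, eq0, Finset.sum_range_succ, abs_of_nonneg, abs_of_neg, abs_div]

end Pool.Agent.H642R3.Q
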