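import Mathlib

set_option autoImplicit false

namespace Pool.Agent.H642R3.Q

open Finset

lemma small3 : ∀ Δ ∈ Icc (1 : ℤ) 3, ∀ K ∈ (Ico (0 : ℤ) 6).powersetCard 2, (0 : ℤ) ∈ K →
    3 * ∑ t ∈ K, (t ^ 2 + 2 * (t - Δ) ^ 2) ≠ 84 := by
  decide +kernel

lemma small7 : ∀ Δ ∈ Icc (1 : ℤ) 7, ∀ K ∈ (Ico (0 : ℤ) 14).powersetCard 4, (0 : ℤ) ∈ K →
    (∀ x ∈ K, 2 * Δ - x ∉ K) →
    (∀ x ∈ K, ∀ y ∈ K, |x - y| ∈ K ∨ |2 * Δ - x - y| ∈ K) →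
    3 * ∑ t ∈ K, (t ^ 2 + 2 * (t - Δ) ^ 2) ≠ 840 := by
  decide +kernel

end Pool.Agent.H642R3.Q
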