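import Pool.Agent.H642R3.Q.Moments
import Pool.Agent.H642R3.Q.Small
import Pool.Agent.H642R3.Q.Classify
import Pool.Agent.H642R3.Q.EvenClass

set_option autoImplicit false

namespace Pool.Agent.H642R3.Q

open Finset

variable {ι : Type}

lemma mem_AP1 {r : ℕ} {t : ℤ} : t ∈ AP r 1 ↔ 0 ≤ t ∧ t < r := by
  rw [mem_AP]
  constructor
  · rintro ⟨i, hi, rfl⟩; omega
  · rintro ⟨h1, h2⟩; exact ⟨t.toNat, by omega, by omega⟩

lemma killB1 {r : ℕ} (hr4 : 4 ≤ r) {D : Finset ι} {X Y : ι → ℤ} (h : Dom (2 * r + 1) D X Y)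
    {K : Finset ℤ} {a δ : ℤ} (d : Data (2 * r + 1) D X Y K a a δ)
    (hδ : δ = 2 * ((2 * r + 1 : ℕ) - a))
    (hf : ((2 * r + 1 : ℕ) : ℤ) * ((2 * r + 1 : ℕ) + 1) ≤ 2 * ∑ t ∈ K, (t + |t - ((2 * r + 1 : ℕ) - a)|))
    (hK : K = insert (δ - r * 1) (AP r 1)) (hn : δ - r * 1 ∉ AP r 1) : False := by
  have hmem : ∀ t : ℤ, t ∈ K ↔ (t = δ - r ∨ (0 ≤ t ∧ t < r)) := by
    intro t; rw [hK, mem_insert, mem_AP1, mul_one]
  have hin : δ - r ∈ K := (hmem _).2 (Or.inl rfl)
  have r1 := d.ks.rg _ hin
  rw [mem_AP1, mul_one] at hn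
  have hr4' : (4 : ℤ) ≤ r := by exact_mod_cast hr4
  have a0 := d.a0
  push_cast at hδ
  have hsum : ∑ t ∈ K, (t + |t - ((2 * r + 1 : ℕ) - a)|) = (3 * (2 * (r : ℤ) + 1 - a) - 2 * r) + r * (2 * (r : ℤ) + 1 - a) := by
    rw [hK, sum_insert (by rw [mem_AP1, mul_one]; exact hn)]
    have e1 : ∑ t ∈ AP r 1, (t + |t - ((2 * r + 1 : ℕ) - a)|) = ∑ t ∈ AP r 1, (2 * (r : ℤ) + 1 - a) := by
      apply sum_congr rfl
      intro t ht
      rw [mem_AP1] at ht
      push_cast
      rw [abs_of_nonpos (by omega)]
      ring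
    rw [e1, sum_const, card_AP (by norm_num), nsmul_eq_mul]
    push_cast
    rw [abs_of_nonneg (by omega), hδ]
    ring
  rw [hsum] at hf
  push_cast at hf
  have ha : a ≤ 1 := by
    by_contra hcon
    push Not at hcon
    nlinarith
  obtain ⟨q, hq, hqu⟩ := (cnt_pos_iff D _ (δ - r)).1 (by
    rw [d.uIn (δ - r), if_pos (Or.inl hin)]; norm_num)
  have hXq : 0 < cnt D X (X q) := (cnt_pos_iff D X _).2 ⟨q, hq, rfl⟩
  have hYq : 0 < cnt D Y (Y q) := (cnt_pos_iff D Y _).2 ⟨q, hq, rfl⟩
  have rX := h.rX q hq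
  have rY := h.rY q hq
  rw [d.xIn _ rX.1 rX.2] at hXq
  rw [d.yIn _ rY.1 rY.2] at hYq
  have hvq : 0 < cnt D (fun q => (X q - a) + (Y q - a) - δ) ((X q - a) + (Y q - a) - δ) :=
    (cnt_pos_iff D _ _).2 ⟨q, hq, rfl⟩
  rw [d.vIn] at hvq
  have nX : ¬ (X q - a ∈ K ∨ a + δ - X q ∈ K) := by
    intro hc; rw [if_pos hc] at hXq; exact lt_irrefl _ hXq
  have nY : ¬ (Y q - a ∈ K ∨ a + δ - Y q ∈ K) := by
    intro hc; rw [if_pos hc] at hYq; exact lt_irrefl _ hYq
  have pV : ((X q - a) + (Y q - a) - δ ∈ K ∨ -((X q - a) + (Y q - a) - δ) ∈ K) := by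
    by_contra hc; rw [if_neg hc] at hvq; exact lt_irrefl _ hvq
  simp only [hmem] at nX nY pV
  push_cast at rX rY
  omega

theorem dom_main {m : ℕ} {D : Finset (ℤ × ℤ)} (h : Dom m D Prod.fst Prod.snd) : m = 1 ∨ m = 5 := by
  classical
  have hm0 : m ≠ 0 := by
    rintro rfl
    obtain ⟨q, hq, -⟩ := h.dom 0 0 le_rfl (by simp) le_rfl (by simp)
    have := h.card
    rw [card_eq_zero] at this
    rw [this] at hq
    exact absurd hq (notMem_empty q)
  obtain ⟨a, c, δ, b⟩ := h.exists_box (by omega)
  obtain ⟨K, d⟩ := h.exists_data b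
  obtain ⟨hac, hδ, hsec, hfir⟩ := moments h d
  subst hac
  have hcK := d.card
  obtain ⟨r, hr⟩ : ∃ r, K.card = r + 1 := ⟨K.card - 1, by
    have : 0 < K.card := card_pos.2 ⟨0, d.ks.z⟩
    omega⟩
  have hm : m = 2 * r + 1 := by omega
  subst hm
  have ks := d.ks
  have a0 := d.a0
  have kpos := ks.pos
  by_cases hr4 : 4 ≤ r
  · exfalso
    have hδle : δ ≤ 4 * r + 2 := by rw [hδ]; push_cast; omega
    have hev : (2 : ℤ) ∣ δ := ⟨_, hδ⟩
    rcases ks.classify hr4 hr hδle hev with ⟨h1, h2⟩ | ⟨g, hg, h1, h2⟩ | ⟨g, hg, h1, h2⟩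
    · -- alternating
      have ha : a = 0 := by
        push_cast at hδ; omega
      subst ha
      have hE : K ∪ K.image (fun t => δ - t) = (Icc (0 : ℤ) (2 * r + 1)).image (fun j => 2 * j) := by
        apply eq_of_subset_of_card_le
        · intro x hx
          rw [mem_union, mem_image] at hx
          rw [mem_image]
          rcases hx with hx | ⟨t, ht, rfl⟩
          · obtain ⟨j, hj⟩ := h1 x hx
            have := ks.rg x hx
            exact ⟨j, by rw [mem_Icc]; omega, hj.symm⟩
          · obtain ⟨j, hj⟩ := h1 t ht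
            have := ks.rg t ht
            exact ⟨2 * r + 1 - j, by rw [mem_Icc]; omega, by omega⟩
        · rw [card_image_of_injective _ (fun x y hxy => by
            have h' : 2 * x = 2 * y := hxy
            omega), Int.card_Icc, card_union_of_disjoint, card_image_of_injective _ (fun x y hxy => by
            have h' : δ - x = δ - y := hxy
            omega), hr]
          · omega
          · rw [disjoint_left]
            intro x hx hx2
            rw [mem_image] at hx2
            obtain ⟨t, ht, rfl⟩ := hx2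
            exact ks.exc t (δ - t) (by ring) ht hx
      have notEven : ∀ y : ℤ, 0 ≤ y → y ≤ 2 * (2 * r + 1) → y % 2 = 0 → (y ∈ K ∨ δ - y ∈ K) := by
        intro y hy0 hy1 hy2
        have : y ∈ K ∪ K.image (fun t => δ - t) := by
          rw [hE, mem_image]
          exact ⟨y / 2, by rw [mem_Icc]; omega, by omega⟩
        rw [mem_union, mem_image] at this
        rcases this with h3 | ⟨t, ht, h3⟩
        · exact Or.inl h3
        · right
          have : δ - y = t := by omega
          rw [this]; exact ht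
      have oX : ∀ q ∈ D, q.1 % 2 = 1 := by
        intro q hq
        by_contra hne
        have rX := h.rX q hq
        have h3 := d.xIn q.1 rX.1 rX.2
        have rX' : 0 ≤ q.1 ∧ q.1 ≤ 2 * (2 * (r : ℤ) + 1) := by
          have := rX; push_cast at this; exact this
        have h4 := notEven q.1 rX'.1 rX'.2 (by omega)
        have h5 : 0 < cnt D Prod.fst q.1 := (cnt_pos_iff D Prod.fst _).2 ⟨q, hq, rfl⟩
        rw [if_pos (by rw [sub_zero, zero_add]; exact h4)] at h3
        omega
      have oY : ∀ q ∈ D, q.2 % 2 = 1 := by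
        intro q hq
        by_contra hne
        have rY := h.rY q hq
        have h3 := d.yIn q.2 rY.1 rY.2
        have rY' : 0 ≤ q.2 ∧ q.2 ≤ 2 * (2 * (r : ℤ) + 1) := by
          have := rY; push_cast at this; exact this
        have h4 := notEven q.2 rY'.1 rY'.2 (by omega)
        have h5 : 0 < cnt D Prod.snd q.2 := (cnt_pos_iff D Prod.snd _).2 ⟨q, hq, rfl⟩
        rw [if_pos (by rw [sub_zero, zero_add]; exact h4)] at h3
        omega
      have hfin := even_class (2 * r + 1) (D.image (fun q => (q.1 - (2 * (r : ℤ) + 1), q.2 - (2 * (r : ℤ) + 1)))) (by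
          rw [card_image_of_injective, h.card]
          intro p q hpq
          simp only [Prod.mk.injEq] at hpq
          ext
          · omega
          · omega) (by
          intro q hq
          rw [mem_image] at hq
          obtain ⟨p, hp, rfl⟩ := hq
          have h3 := oX p hp
          have h4 := oY p hp
          constructor
          · rw [Int.even_iff]; omega
          · rw [Int.even_iff]; omega) (by
          intro x y hx hy
          rw [abs_le] at hx hy
          push_cast at hx hy
          obtain ⟨q, hq, hh⟩ := h.dom (x + (2 * (r : ℤ) + 1)) (y + (2 * (r : ℤ) + 1)) (by omega)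
            (by push_cast; omega) (by omega) (by push_cast; omega)
          refine ⟨_, mem_image.2 ⟨q, hq, rfl⟩, ?_⟩
          simp only
          omega)
      omega
    · -- progression A
      have h3 : (((2 * r + 1 : ℕ) : ℤ) - a) ≤ 2 * r + 1 := by push_cast; omega
      refine KS.killA hr4 hg h3 (by rw [hδ] at h2; exact h2) ?_
      unfold KS.Sec
      rw [← h1]; exact hsec
    · -- progression B
      rcases hg with rfl | rfl
      · exact killB1 hr4 h d hδ hfir h1 h2
      · have h3 : (((2 * r + 1 : ℕ) : ℤ) - a) ≤ 2 * r + 1 := by push_cast; omega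
        have h4 : δ - r * 3 ∈ K := by rw [h1]; exact mem_insert_self _ _
        have h5 := (ks.rg _ h4).1
        have h6 : (2 : ℤ) * (((2 * r + 1 : ℕ) : ℤ) - a) = δ := hδ.symm
        refine KS.killB3 (Δ := ((2 * r + 1 : ℕ) : ℤ) - a) hr4 h3 (by rw [h6]; linarith) (by rw [h6]; exact h2) ?_
        unfold KS.Sec
        rw [h6, ← h1]; exact hsec
  · have hrc : r = 0 ∨ r = 1 ∨ r = 2 ∨ r = 3 := by omega
    rcases hrc with rfl | rfl | rfl | rfl
    · left; rfl
    · exfalso
      have hδ' : δ = 2 * (3 - a) := by rw [hδ]; push_cast; ring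
      refine small3 (3 - a) (by rw [mem_Icc]; omega) K ?_ ks.z ?_
      · rw [mem_powersetCard]
        refine ⟨?_, hr⟩
        intro t ht
        have := ks.rg t ht
        rw [mem_Ico]; omega
      · have := hsec
        push_cast at this
        norm_num at this ⊢
        exact this
    · right; rfl
    · exfalso
      have hδ' : δ = 2 * (7 - a) := by rw [hδ]; push_cast; ring
      refine small7 (7 - a) (by rw [mem_Icc]; omega) K ?_ ks.z ?_ ?_ ?_
      · rw [mem_powersetCard]
        refine ⟨?_, hr⟩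
        intro t ht
        have := ks.rg t ht
        rw [mem_Ico]; omega
      · intro x hx
        rw [← hδ']
        exact ks.exc x (δ - x) (by ring) hx
      · intro x hx y hy
        rw [← hδ']
        have hnn : ∀ t ∈ K, 0 ≤ t := fun t ht => (ks.rg t ht).1
        rcases ks.cov x hx y hy (y - x) (x - y) (x + y - δ) (δ - x - y) rfl rfl rfl rfl with h1 | h1 | h1 | h1
        · left
          have := hnn _ h1
          rw [abs_of_nonpos (by omega)]
          have e1 : -(x - y) = y - x := by ring
          rw [e1]; exact h1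
        · left; rw [abs_of_nonneg (hnn _ h1)]; exact h1
        · right
          have := hnn _ h1
          rw [abs_of_nonpos (by omega)]
          have e1 : -(δ - x - y) = x + y - δ := by ring
          rw [e1]; exact h1
        · right; rw [abs_of_nonneg (hnn _ h1)]; exact h1
      · have := hsec
        push_cast at this
        norm_num at this ⊢
        exact this

end Pool.Agent.H642R3.Q
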