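import Pool.Agent.H642R3.Q.Exist

set_option autoImplicit false

namespace Pool.Agent.H642R3.Q

open Finset

lemma sum_Icc_sym (f : ℤ → ℚ) (hf : ∀ i, f (-i) = f i) (n : ℕ) :
    ∑ i ∈ Icc (-(n : ℤ)) n, f i = f 0 + 2 * ∑ i ∈ range n, f ((i : ℤ) + 1) := by
  induction n with
  | zero => simp
  | succ n ih =>
    have h1 : Icc (-((n + 1 : ℕ) : ℤ)) ((n + 1 : ℕ) : ℤ)
        = insert (-((n : ℤ) + 1)) (insert ((n : ℤ) + 1) (Icc (-(n : ℤ)) n)) := by
      ext x
      simp only [mem_Icc, mem_insert]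
      push_cast
      omega
    rw [h1, sum_insert, sum_insert, ih, sum_range_succ, hf]
    · ring
    · simp
    · simp only [mem_Icc, mem_insert]
      omega

lemma sum_Ico_odd (f : ℤ → ℚ) (hf : ∀ i, f (-i) = f i) (n : ℕ) :
    ∑ i ∈ Ico (-(n : ℤ)) n, f (2 * i + 1) = 2 * ∑ i ∈ range n, f (2 * (i : ℤ) + 1) := by
  induction n with
  | zero => simp
  | succ n ih =>
    have h1 : Ico (-((n + 1 : ℕ) : ℤ)) ((n + 1 : ℕ) : ℤ)
        = insert (-((n : ℤ) + 1)) (insert (n : ℤ) (Ico (-(n : ℤ)) n)) := by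
      ext x
      simp only [mem_Ico, mem_insert]
      push_cast
      omega
    have h2 : f (2 * (-((n : ℤ) + 1)) + 1) = f (2 * (n : ℤ) + 1) := by
      rw [← hf (2 * (n : ℤ) + 1)]
      exact congrArg f (by ring)
    rw [h1, sum_insert, sum_insert, ih, sum_range_succ, h2]
    · ring
    · simp
    · simp only [mem_Ico, mem_insert]
      omega

/-- the symmetric set with even part `2i`, `|i| < A`, odd part `2i+1`, `-B ≤ i < B` -/
noncomputable def TT (A B : ℕ) : Finset ℤ :=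
  (Ioo (-(A : ℤ)) A).image (fun i => 2 * i) ∪ (Ico (-(B : ℤ)) B).image (fun i => 2 * i + 1)

lemma TT_sum (A B : ℕ) (f : ℤ → ℚ) :
    ∑ w ∈ TT A B, f w = ∑ i ∈ Ioo (-(A : ℤ)) A, f (2 * i) + ∑ i ∈ Ico (-(B : ℤ)) B, f (2 * i + 1) := by
  unfold TT
  rw [sum_union, sum_image, sum_image]
  · intro a _ b _ h
    simp only at h
    omega
  · intro a _ b _ h
    simp only at h
    omega
  · rw [disjoint_left]
    intro x hx hy
    simp only [mem_image] at hx hy
    obtain ⟨a, -, rfl⟩ := hx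
    obtain ⟨b, -, hb⟩ := hy
    omega

lemma TT_card (A B : ℕ) : (TT A B).card = (2 * A - 1) + 2 * B := by
  unfold TT
  rw [card_union_of_disjoint, card_image_of_injective, card_image_of_injective, Int.card_Ioo, Int.card_Ico]
  · omega
  · intro a b h
    simp only at h
    omega
  · intro a b h
    simp only at h
    omega
  · rw [disjoint_left]
    intro x hx hy
    simp only [mem_image] at hx hy
    obtain ⟨a, -, rfl⟩ := hx
    obtain ⟨b, -, hb⟩ := hy
    omega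

lemma exists_AB (S : Finset ℤ) : ∃ A B : ℕ, TT A B ⊆ S ∧
    (∃ w, |w| = 2 * (A : ℤ) ∧ w ∉ S) ∧ (∃ w, |w| = 2 * (B : ℤ) + 1 ∧ w ∉ S) := by
  classical
  have hE : ∃ j : ℕ, ¬ ((2 * (j : ℤ)) ∈ S ∧ (-(2 * (j : ℤ))) ∈ S) := by
    by_contra h
    push Not at h
    have : (Set.range (fun j : ℕ => (2 * (j : ℤ)))).Finite :=
      (S.finite_toSet).subset (by rintro _ ⟨j, rfl⟩; exact (h j).1)
    exact Set.infinite_range_of_injective (fun a b hab => by simp at hab; exact hab) this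
  have hO : ∃ j : ℕ, ¬ ((2 * (j : ℤ) + 1) ∈ S ∧ (-(2 * (j : ℤ) + 1)) ∈ S) := by
    by_contra h
    push Not at h
    have : (Set.range (fun j : ℕ => (2 * (j : ℤ) + 1))).Finite :=
      (S.finite_toSet).subset (by rintro _ ⟨j, rfl⟩; exact (h j).1)
    exact Set.infinite_range_of_injective (fun a b hab => by simp at hab; exact hab) this
  refine ⟨Nat.find hE, Nat.find hO, ?_, ?_, ?_⟩
  · intro x hx
    unfold TT at hx
    rw [mem_union, mem_image, mem_image] at hx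
    rcases hx with ⟨i, hi, rfl⟩ | ⟨i, hi, rfl⟩
    · rw [mem_Ioo] at hi
      have hlt : i.natAbs < Nat.find hE := by omega
      have := Nat.find_min hE hlt
      push Not at this
      rcases Int.natAbs_eq i with h | h
      · rw [h]; exact this.1
      · rw [h]
        have h2 := this.2
        rw [mul_neg]; exact h2
    · rw [mem_Ico] at hi
      rcases le_or_gt 0 i with h | h
      · have hlt : i.toNat < Nat.find hO := by omega
        have := Nat.find_min hO hlt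
        push Not at this
        have h2 := this.1
        rwa [Int.toNat_of_nonneg h] at h2
      · have hlt : (-i-1).toNat < Nat.find hO := by omega
        have := Nat.find_min hO hlt
        push Not at this
        have h2 := this.2
        rw [Int.toNat_of_nonneg (by omega)] at h2
        have e : -(2 * (-i - 1) + 1) = 2 * i + 1 := by ring
        rwa [e] at h2
  · have := Nat.find_spec hE
    by_cases h : (2 * ((Nat.find hE : ℕ) : ℤ)) ∈ S
    · refine ⟨-(2 * ((Nat.find hE : ℕ) : ℤ)), ?_, fun h2 => this ⟨h, h2⟩⟩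
      rw [abs_neg, abs_of_nonneg]; positivity
    · refine ⟨(2 * ((Nat.find hE : ℕ) : ℤ)), ?_, h⟩
      rw [abs_of_nonneg]; positivity
  · have := Nat.find_spec hO
    by_cases h : (2 * ((Nat.find hO : ℕ) : ℤ) + 1) ∈ S
    · refine ⟨-(2 * ((Nat.find hO : ℕ) : ℤ) + 1), ?_, fun h2 => this ⟨h, h2⟩⟩
      rw [abs_neg, abs_of_nonneg]; positivity
    · refine ⟨(2 * ((Nat.find hO : ℕ) : ℤ) + 1), ?_, h⟩
      rw [abs_of_nonneg]; positivity

/-- the structure of the difference and sum sets -/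
lemma struct {k : ℕ} {US VS : Finset ℤ} (hU : US.card ≤ 2 * k + 1) (hV : VS.card ≤ 2 * k + 1)
    (hcov : ∀ u v : ℤ, Odd (u + v) → |u| + |v| ≤ 2 * k + 1 → u ∈ US ∨ v ∈ VS) :
    ∃ A B : ℕ, 1 ≤ A ∧ A + B = k + 1 ∧ US = TT A B ∧ VS = TT A B := by
  obtain ⟨A, B, hT, ⟨u, hu, huS⟩, ⟨u', hu', huS'⟩⟩ := exists_AB US
  obtain ⟨A', B', hT', ⟨v, hv, hvS⟩, ⟨v', hv', hvS'⟩⟩ := exists_AB VS
  have c1 := card_le_card hT
  have c2 := card_le_card hT'
  rw [TT_card] at c1 c2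
  have pu : u % 2 = 0 := by rcases abs_eq (by positivity) |>.1 hu with h | h <;> omega
  have pu' : u' % 2 = 1 := by rcases abs_eq (by positivity) |>.1 hu' with h | h <;> omega
  have pv : v % 2 = 0 := by rcases abs_eq (by positivity) |>.1 hv with h | h <;> omega
  have pv' : v' % 2 = 1 := by rcases abs_eq (by positivity) |>.1 hv' with h | h <;> omega
  have d1 : k + 1 ≤ A + B' := by
    by_contra hlt
    rcases hcov u v' (by rw [Int.odd_iff]; omega) (by rw [hu, hv']; omega) with h | h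
    · exact huS h
    · exact hvS' h
  have d2 : k + 1 ≤ A' + B := by
    by_contra hlt
    rcases hcov u' v (by rw [Int.odd_iff]; omega) (by rw [hu', hv]; omega) with h | h
    · exact huS' h
    · exact hvS h
  have hA : 1 ≤ A := by omega
  have hA' : 1 ≤ A' := by omega
  have e1 : A' = A := by omega
  have e2 : B' = B := by omega
  subst e1 e2
  refine ⟨A', B', hA, by omega, ?_, ?_⟩
  · exact (eq_of_subset_of_card_le hT (by rw [TT_card]; omega)).symm
  · exact (eq_of_subset_of_card_le hT' (by rw [TT_card]; omega)).symm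

/-- numeric classification for small k -/
lemma small_k : ∀ k : ℕ, k < 100 → 1 ≤ k → k ≠ 2 → ∀ A : ℕ, A < 101 → 1 ≤ A → A ≤ k + 1 →
    3 * ((2 * (A : ℤ) - 2 * ((k : ℤ) + 1 - A) - 1)) ^ 2 = (2 * (k : ℤ) + 1) ^ 2 + 2 →
    (k = 9 ∧ A = 8) ∨ (k = 35 ∧ A = 8) := by
  have : ∀ k : Fin 100, 1 ≤ k.val → k.val ≠ 2 → ∀ A : Fin 101, 1 ≤ A.val → A.val ≤ k.val + 1 →
    3 * ((2 * (A.val : ℤ) - 2 * ((k.val : ℤ) + 1 - A.val) - 1)) ^ 2 = (2 * (k.val : ℤ) + 1) ^ 2 + 2 →
    (k.val = 9 ∧ A.val = 8) ∨ (k.val = 35 ∧ A.val = 8) := by decide +kernel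
  intro k hk h3 h3' A hA h1 h2 h
  exact this ⟨k, hk⟩ h3 h3' ⟨A, hA⟩ h1 h2 h

lemma sum_sq_range (n : ℕ) : ∑ i ∈ range n, (((i : ℤ) + 1 : ℤ) : ℚ) ^ 2 = n * (n + 1) * (2 * n + 1) / 6 := by
  induction n with
  | zero => simp
  | succ n ih => rw [sum_range_succ, ih]; push_cast; ring

lemma sum_odd_sq_range (n : ℕ) : ∑ i ∈ range n, ((2 * (i : ℤ) + 1 : ℤ) : ℚ) ^ 2 = n * (2 * n - 1) * (2 * n + 1) / 3 := by
  induction n with
  | zero => simp
  | succ n ih => rw [sum_range_succ, ih]; push_cast; ring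

/-- Configurations in halved coordinates do not exist for `k ≥ 1`, `k ≠ 2`. -/
theorem halved_main {k : ℕ} (hk : 1 ≤ k) (hk2 : k ≠ 2) (D : Finset (ℤ × ℤ)) (hcard : D.card = 2 * k + 1)
    (hX : ∀ a ∈ Icc (-(k : ℤ)) k, ∃ q ∈ D, q.1 = a)
    (hY : ∀ a ∈ Icc (-(k : ℤ)) k, ∃ q ∈ D, q.2 = a)
    (hcov : ∀ u v : ℤ, Odd (u + v) → |u| + |v| ≤ 2 * k + 1 →
      (∃ q ∈ D, q.2 - q.1 = u) ∨ (∃ q ∈ D, q.1 + q.2 = v)) : False := by
  classical
  have cIcc : (Icc (-(k : ℤ)) k).card = 2 * k + 1 := by rw [Int.card_Icc]; omega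
  have sumProj : ∀ (p : ℤ × ℤ → ℤ), (∀ a ∈ Icc (-(k : ℤ)) k, ∃ q ∈ D, p q = a) → ∀ f : ℤ → ℚ,
      ∑ q ∈ D, f (p q) = ∑ a ∈ Icc (-(k : ℤ)) k, f a := by
    intro p hp f
    have hsub : Icc (-(k : ℤ)) k ⊆ D.image p := by
      intro a ha
      obtain ⟨q, hq, hqa⟩ := hp a ha
      exact mem_image.2 ⟨q, hq, hqa⟩
    have hle : (D.image p).card ≤ (Icc (-(k : ℤ)) k).card := by
      rw [cIcc, ← hcard]; exact card_image_le
    have heq : Icc (-(k : ℤ)) k = D.image p := eq_of_subset_of_card_le hsub hle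
    have hinj : Set.InjOn p D := by
      apply card_image_iff.1
      rw [← heq, cIcc, hcard]
    rw [heq, sum_image hinj]
  have sX := sumProj Prod.fst hX
  have sY := sumProj Prod.snd hY
  obtain ⟨A, B, hA, hAB, hUS, hVS⟩ := struct (k := k) (US := D.image (fun q => q.2 - q.1))
    (VS := D.image (fun q => q.1 + q.2)) (by rw [← hcard]; exact card_image_le)
    (by rw [← hcard]; exact card_image_le) (by
      intro u v h1 h2
      simp only [mem_image]
      exact hcov u v h1 h2)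
  have sU : ∀ f : ℤ → ℚ, ∑ q ∈ D, f (q.2 - q.1) = ∑ w ∈ TT A B, f w := by
    intro f
    have hinj : Set.InjOn (fun q : ℤ × ℤ => q.2 - q.1) D := by
      apply card_image_iff.1
      rw [hUS, TT_card, hcard]; omega
    rw [← hUS, sum_image hinj]
  have sV : ∀ f : ℤ → ℚ, ∑ q ∈ D, f (q.1 + q.2) = ∑ w ∈ TT A B, f w := by
    intro f
    have hinj : Set.InjOn (fun q : ℤ × ℤ => q.1 + q.2) D := by
      apply card_image_iff.1
      rw [hVS, TT_card, hcard]; omega
    rw [← hVS, sum_image hinj]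
  obtain ⟨n, rfl⟩ : ∃ n, A = n + 1 := ⟨A - 1, by omega⟩
  have hIoo : Ioo (-((n + 1 : ℕ) : ℤ)) ((n + 1 : ℕ) : ℤ) = Icc (-(n : ℤ)) n := by
    ext x; simp only [mem_Ioo, mem_Icc]; push_cast; omega
  -- moment identity
  have mom : 3 * ((2 * ((n + 1 : ℕ) : ℤ) - 2 * ((k : ℤ) + 1 - ((n + 1 : ℕ) : ℤ)) - 1)) ^ 2 = (2 * (k : ℤ) + 1) ^ 2 + 2 := by
    have h1 : ∑ q ∈ D, (((q.2 - q.1 : ℤ) : ℚ) ^ 2) + ∑ q ∈ D, (((q.1 + q.2 : ℤ) : ℚ) ^ 2)
        = 2 * ∑ q ∈ D, ((q.1 : ℚ) ^ 2) + 2 * ∑ q ∈ D, ((q.2 : ℚ) ^ 2) := by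
      rw [mul_sum, mul_sum, ← sum_add_distrib, ← sum_add_distrib]
      apply sum_congr rfl
      intro q _
      push_cast
      ring
    rw [sU (fun w => (w : ℚ) ^ 2), sV (fun w => (w : ℚ) ^ 2), sX (fun w => (w : ℚ) ^ 2),
      sY (fun w => (w : ℚ) ^ 2), TT_sum, hIoo, sum_Ico_odd (fun w => (w : ℚ) ^ 2) (by intro i; push_cast; ring),
      sum_Icc_sym (fun w => (w : ℚ) ^ 2) (by intro i; push_cast; ring), sum_sq_range, sum_odd_sq_range] at h1
    have h2 : ∑ i ∈ Icc (-(n : ℤ)) n, ((2 * i : ℤ) : ℚ) ^ 2 = 4 * ∑ i ∈ Icc (-(n : ℤ)) n, ((i : ℤ) : ℚ) ^ 2 := by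
      rw [mul_sum]; apply sum_congr rfl; intro i _; push_cast; ring
    rw [h2, sum_Icc_sym (fun w => (w : ℚ) ^ 2) (by intro i; push_cast; ring), sum_sq_range] at h1
    have hBk : (B : ℚ) = k - n := by
      have : ((n + 1 + B : ℕ) : ℚ) = ((k + 1 : ℕ) : ℚ) := by rw [hAB]
      push_cast at this
      linarith
    rw [hBk] at h1
    have h3 : ((3 * ((2 * ((n + 1 : ℕ) : ℤ) - 2 * ((k : ℤ) + 1 - ((n + 1 : ℕ) : ℤ)) - 1)) ^ 2 : ℤ) : ℚ) * (2 * k + 1) = (((2 * (k : ℤ) + 1) ^ 2 + 2 : ℤ) : ℚ) * (2 * k + 1) := by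
      push_cast at h1 ⊢
      linarith
    have h4 : (2 * (k : ℚ) + 1) ≠ 0 := by positivity
    have h5 := mul_right_cancel₀ h4 h3
    exact_mod_cast h5
  -- main inequality
  have key : ∀ d x1 w0 : ℚ, 0 ≤ d → d ≤ x1 → 0 < x1 → 2 * x1 + d ≤ w0 → ∀ r : ℤ,
      (2 * ∑ w ∈ TT (n + 1) B, (if w % 2 = r then psi d x1 w0 |(w : ℚ)| else 0))
        ≤ 8 * ∑ i ∈ Finset.range k, gq d x1 (i + 1) := by
    intro d x1 w0 h0 h1 hx1 hB r
    have hg0 : ∀ x : ℚ, 0 ≤ gq d x1 x := by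
      intro x
      unfold gq
      split_ifs with h
      · exact mul_nonneg (by linarith) (by linarith)
      · exact le_rfl
    have e1 : 2 * ∑ w ∈ TT (n + 1) B, (if w % 2 = r then psi d x1 w0 |(w : ℚ)| else 0)
        = ∑ q ∈ D, ((if (q.2 - q.1) % 2 = r then psi d x1 w0 |((q.2 - q.1 : ℤ) : ℚ)| else 0)
            + (if (q.1 + q.2) % 2 = r then psi d x1 w0 |((q.1 + q.2 : ℤ) : ℚ)| else 0)) := by
      rw [sum_add_distrib, sU (fun w => if w % 2 = r then psi d x1 w0 |(w : ℚ)| else 0),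
        sV (fun w => if w % 2 = r then psi d x1 w0 |(w : ℚ)| else 0)]
      ring
    have e2 : 8 * ∑ i ∈ Finset.range k, gq d x1 (i + 1)
        = ∑ q ∈ D, (2 * gq d x1 |((q.1 : ℤ) : ℚ)| + 2 * gq d x1 |((q.2 : ℤ) : ℚ)|) := by
      rw [sum_add_distrib, sX (fun w => 2 * gq d x1 |(w : ℚ)|), sY (fun w => 2 * gq d x1 |(w : ℚ)|),
        sum_Icc_sym (fun w => 2 * gq d x1 |(w : ℚ)|) (by intro i; push_cast; rw [abs_neg])]
      have z0 : gq d x1 |((0 : ℤ) : ℚ)| = 0 := by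
        unfold gq; rw [Int.cast_zero, abs_zero, if_neg (not_le.2 hx1)]
      rw [z0]
      have z1 : ∑ i ∈ range k, 2 * gq d x1 |(((i : ℤ) + 1 : ℤ) : ℚ)| = 2 * ∑ i ∈ range k, gq d x1 ((i : ℚ) + 1) := by
        rw [mul_sum]
        apply sum_congr rfl
        intro i _
        rw [abs_of_nonneg (by positivity)]
        push_cast
        rfl
      rw [z1]
      ring
    rw [e1, e2]
    apply sum_le_sum
    intro q _
    by_cases hPq : (q.1 + q.2) % 2 = r
    · rw [if_pos (by omega : (q.2 - q.1) % 2 = r), if_pos hPq]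
      push_cast
      -- reduce to |x|,|y|
      have gen : ∀ x y : ℚ, 0 ≤ x → 0 ≤ y →
          psi d x1 w0 |x - y| + psi d x1 w0 (x + y) ≤ 2 * gq d x1 x + 2 * gq d x1 y := by
        intro x y hx hy
        rcases le_total y x with h | h
        · rw [abs_of_nonneg (sub_nonneg.2 h)]
          exact cert h0 h1 hB hy h
        · rw [abs_sub_comm, abs_of_nonneg (sub_nonneg.2 h), add_comm x y]
          have := cert (w0 := w0) h0 h1 hB hx h
          linarith
      rcases le_total 0 (q.1 : ℚ) with hx | hx <;> rcases le_total 0 (q.2 : ℚ) with hy | hy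
      · have := gen _ _ hx hy
        rw [abs_sub_comm] at this
        rw [abs_of_nonneg hx, abs_of_nonneg hy, abs_of_nonneg (add_nonneg hx hy)]
        exact this
      · have := gen _ _ hx (neg_nonneg.2 hy)
        rw [abs_of_nonneg hx, abs_of_nonpos hy]
        have a1 : |(q.2 : ℚ) - q.1| = (q.1 : ℚ) + -(q.2 : ℚ) := by
          rw [abs_of_nonpos (by linarith)]; ring
        have a2 : |(q.1 : ℚ) - -(q.2 : ℚ)| = |(q.1 : ℚ) + q.2| := by rw [sub_neg_eq_add]
        rw [a2] at this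
        rw [a1]
        linarith
      · have := gen _ _ (neg_nonneg.2 hx) hy
        rw [abs_of_nonpos hx, abs_of_nonneg hy]
        have a1 : |(q.2 : ℚ) - q.1| = -(q.1 : ℚ) + (q.2 : ℚ) := by
          rw [abs_of_nonneg (by linarith)]; ring
        have a2 : |-(q.1 : ℚ) - (q.2 : ℚ)| = |(q.1 : ℚ) + q.2| := by
          rw [← abs_neg]; congr 1; ring
        rw [a2] at this
        rw [a1]
        linarith
      · have := gen _ _ (neg_nonneg.2 hx) (neg_nonneg.2 hy)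
        rw [abs_of_nonpos hx, abs_of_nonpos hy]
        have a1 : |(q.1 : ℚ) + q.2| = -(q.1 : ℚ) + -(q.2 : ℚ) := by
          rw [abs_of_nonpos (by linarith)]; ring
        have a2 : |-(q.1 : ℚ) - -(q.2 : ℚ)| = |(q.2 : ℚ) - q.1| := by
          congr 1; ring
        rw [a2] at this
        rw [a1]
        linarith
    · rw [if_neg (by omega : ¬ (q.2 - q.1) % 2 = r), if_neg hPq]
      have := hg0 |((q.1 : ℤ) : ℚ)|
      have := hg0 |((q.2 : ℤ) : ℚ)|
      linarith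
  -- even class
  have keyE : ∀ d x1 w0 : ℚ, 0 ≤ d → d ≤ x1 → 0 < x1 → 2 * x1 + d ≤ w0 →
      SLe (psi d x1 w0) n ≤ 4 * ∑ i ∈ Finset.range k, gq d x1 (i + 1) := by
    intro d x1 w0 h0 h1 hx1 hB
    have := key d x1 w0 h0 h1 hx1 hB 0
    rw [TT_sum, hIoo] at this
    have z1 : ∑ i ∈ Ico (-(B : ℤ)) B, (if (2 * i + 1) % 2 = 0 then psi d x1 w0 |((2 * i + 1 : ℤ) : ℚ)| else 0) = 0 := by
      apply sum_eq_zero
      intro i _
      rw [if_neg (by omega)]
    have z2 : ∑ i ∈ Icc (-(n : ℤ)) n, (if (2 * i) % 2 = 0 then psi d x1 w0 |((2 * i : ℤ) : ℚ)| else 0)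
        = SLe (psi d x1 w0) n := by
      have : ∀ i ∈ Icc (-(n : ℤ)) n, (if (2 * i) % 2 = 0 then psi d x1 w0 |((2 * i : ℤ) : ℚ)| else 0)
          = (fun j : ℤ => psi d x1 w0 |((2 * j : ℤ) : ℚ)|) i := by
        intro i _
        rw [if_pos (by omega)]
      rw [sum_congr rfl this, sum_Icc_sym _ (by intro i; congr 1; push_cast; rw [mul_neg, abs_neg])]
      unfold SLe
      simp only [mul_zero, Int.cast_zero, abs_zero]
      congr 2
      apply sum_congr rfl
      intro i _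
      congr 1
      push_cast
      rw [abs_of_nonneg (by positivity)]
    rw [z1, z2] at this
    linarith
  have keyO : ∀ d x1 w0 : ℚ, 0 ≤ d → d ≤ x1 → 0 < x1 → 2 * x1 + d ≤ w0 →
      SLo (psi d x1 w0) B ≤ 4 * ∑ i ∈ Finset.range k, gq d x1 (i + 1) := by
    intro d x1 w0 h0 h1 hx1 hB
    have := key d x1 w0 h0 h1 hx1 hB 1
    rw [TT_sum, hIoo] at this
    have z1 : ∑ i ∈ Icc (-(n : ℤ)) n, (if (2 * i) % 2 = 1 then psi d x1 w0 |((2 * i : ℤ) : ℚ)| else 0) = 0 := by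
      apply sum_eq_zero
      intro i _
      rw [if_neg (by omega)]
    have z2 : ∑ i ∈ Ico (-(B : ℤ)) B, (if (2 * i + 1) % 2 = 1 then psi d x1 w0 |((2 * i + 1 : ℤ) : ℚ)| else 0)
        = SLo (psi d x1 w0) B := by
      have : ∀ i ∈ Ico (-(B : ℤ)) B, (if (2 * i + 1) % 2 = 1 then psi d x1 w0 |((2 * i + 1 : ℤ) : ℚ)| else 0)
          = (fun j : ℤ => psi d x1 w0 |(j : ℚ)|) (2 * i + 1) := by
        intro i _
        rw [if_pos (by omega)]
      rw [sum_congr rfl this, sum_Ico_odd (fun j : ℤ => psi d x1 w0 |(j : ℚ)|) (by intro i; congr 1; push_cast; rw [abs_neg])]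
      unfold SLo
      congr 1
      apply sum_congr rfl
      intro i _
      congr 1
      push_cast
      rw [abs_of_nonneg (by positivity)]
    rw [z1, z2] at this
    linarith
  -- finish
  rcases lt_or_ge k 100 with hk100 | hk100
  · rcases small_k k hk100 hk hk2 (n + 1) (by omega) (by omega) (by omega) mom with ⟨rfl, h8⟩ | ⟨rfl, h8⟩
    · have hn : n = 7 := by omega
      subst hn
      obtain ⟨d, x1, w0, h0, h1, hx1, hB, hlt⟩ := cert_9
      exact absurd (keyE d x1 w0 h0 h1 hx1 hB) (not_le.2 hlt)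
    · have hn : n = 7 := by omega
      subst hn
      have hB28 : B = 28 := by omega
      subst hB28
      obtain ⟨d, x1, w0, h0, h1, hx1, hB, hlt⟩ := cert_35
      exact absurd (keyO d x1 w0 h0 h1 hx1 hB) (not_le.2 hlt)
  · -- generic
    have hBk : (B : ℚ) = k - n := by
      have : ((n + 1 + B : ℕ) : ℚ) = ((k + 1 : ℕ) : ℚ) := by rw [hAB]
      push_cast at this
      linarith
    have momQ : 3 * (4 * (n : ℚ) + 1 - 2 * k) ^ 2 = (2 * (k : ℚ) + 1) ^ 2 + 2 := by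
      have : ((3 * ((2 * ((n + 1 : ℕ) : ℤ) - 2 * ((k : ℤ) + 1 - ((n + 1 : ℕ) : ℤ)) - 1)) ^ 2 : ℤ) : ℚ) = (((2 * (k : ℤ) + 1) ^ 2 + 2 : ℤ) : ℚ) := by
        exact_mod_cast mom
      push_cast at this
      rw [← this]
      ring
    have hkQ : (100 : ℚ) ≤ k := by exact_mod_cast hk100
    rcases le_total 0 (4 * (n : ℚ) + 1 - 2 * k) with hs | hs
    · -- even larger
      have hy : 5773 / 10000 * (2 * (k : ℚ) + 1) ≤ 4 * (n : ℚ) + 1 - 2 * k := by
        by_contra hcon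
        push Not at hcon
        nlinarith
      obtain ⟨d, x1, w0, h0, h1, hx1, hB, hlt⟩ := cert_e k n hk100 (by linarith)
      exact absurd (keyE d x1 w0 h0 h1 hx1 hB) (not_le.2 hlt)
    · have hy : 5773 / 10000 * (2 * (k : ℚ) + 1) ≤ -(4 * (n : ℚ) + 1 - 2 * k) := by
        by_contra hcon
        push Not at hcon
        nlinarith
      obtain ⟨d, x1, w0, h0, h1, hx1, hB, hlt⟩ := cert_o k B hk100 (by linarith)
      exact absurd (keyO d x1 w0 h0 h1 hx1 hB) (not_le.2 hlt)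

end Pool.Agent.H642R3.Q
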