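import Pool.Agent.H642R3.Q.Box
import Pool.Agent.H642R3.Q.Cfg
import Pool.Agent.H642R3.Q.Cls2

set_option autoImplicit false

namespace Pool.Agent.H642R3.Q

open Finset

variable {ι : Type}

lemma fib_sum (D : Finset ι) (g : ι → ℤ) (f : ℤ → ℤ) (W : Finset ℤ) (h : ∀ q ∈ D, g q ∈ W) :
    ∑ q ∈ D, f (g q) = ∑ w ∈ W, (cnt D g w : ℤ) * f w := by
  rw [← sum_fiberwise_of_maps_to h]
  apply sum_congr rfl
  intro w _
  unfold cnt
  rw [← nsmul_eq_mul, ← sum_const]
  apply sum_congr rfl
  intro q hq
  rw [(mem_filter.1 hq).2]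

/-- everything extracted from the box -/
structure Data (m : ℕ) (D : Finset ι) (X Y : ι → ℤ) (K : Finset ℤ) (a c δ : ℤ) : Prop where
  ks : KS δ K
  card : 2 * K.card = m + 1
  a0 : 0 ≤ a
  aδ : a + δ ≤ 2 * m
  c0 : 0 ≤ c
  cδ : c + δ ≤ 2 * m
  uIn : ∀ t : ℤ, cnt D (fun q => (Y q - c) - (X q - a)) t = if t ∈ K ∨ -t ∈ K then 1 else 0
  vIn : ∀ t : ℤ, cnt D (fun q => (X q - a) + (Y q - c) - δ) t = if t ∈ K ∨ -t ∈ K then 1 else 0
  yIn : ∀ y : ℤ, 0 ≤ y → y ≤ 2 * m → cnt D Y y = if y - c ∈ K ∨ c + δ - y ∈ K then 0 else 1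
  xIn : ∀ y : ℤ, 0 ≤ y → y ≤ 2 * m → cnt D X y = if y - a ∈ K ∨ a + δ - y ∈ K then 0 else 1

namespace Dom

variable {m : ℕ} {D : Finset ι} {X Y : ι → ℤ}

theorem exists_data (h : Dom m D X Y) {a c δ : ℤ} (b : Box m D X Y a c δ) :
    ∃ K : Finset ℤ, Data m D X Y K a c δ := by
  classical
  have hδ := b.hδ
  obtain ⟨R1, R2, R3, R4⟩ := h.box_row b
  obtain ⟨C1', C2', C3, C4'⟩ := h.swap.box_row b.swap
  set u : ι → ℤ := fun q => (Y q - c) - (X q - a) with hu
  set v : ι → ℤ := fun q => (X q - a) + (Y q - c) - δ with hv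
  have C1 : ∀ t, 0 ≤ t → t ≤ δ → cnt D X (a + t) + cnt D u (-t) + cnt D v (t - δ) = 1 ∧
      cnt D X (a + t) + cnt D u (δ - t) + cnt D v t = 1 := by
    intro t h0 h1
    have := C1' t h0 h1
    have f1 : cnt D (fun q => (X q - a) - (Y q - c)) t = cnt D u (-t) :=
      cnt_congr D (fun q _ => by simp only [hu]; constructor <;> intro hx <;> omega)
    have f2 : cnt D (fun q => (Y q - c) + (X q - a) - δ) (t - δ) = cnt D v (t - δ) :=
      cnt_congr D (fun q _ => by simp only [hv]; constructor <;> intro hx <;> omega)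
    have f3 : cnt D (fun q => (X q - a) - (Y q - c)) (t - δ) = cnt D u (δ - t) :=
      cnt_congr D (fun q _ => by simp only [hu]; constructor <;> intro hx <;> omega)
    have f4 : cnt D (fun q => (Y q - c) + (X q - a) - δ) t = cnt D v t :=
      cnt_congr D (fun q _ => by simp only [hv]; constructor <;> intro hx <;> omega)
    rw [f1, f2, f3, f4] at this
    exact this
  -- range
  have ru : ∀ w : ℤ, 0 < cnt D u w → -δ < w ∧ w < δ := by
    intro w hw
    obtain ⟨q, hq, hqw⟩ := (cnt_pos_iff D u w).1 hw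
    have := (R2 q hq).1
    rw [← hqw]; exact this
  have rv : ∀ w : ℤ, 0 < cnt D v w → -δ < w ∧ w < δ := by
    intro w hw
    obtain ⟨q, hq, hqw⟩ := (cnt_pos_iff D v w).1 hw
    have := (R2 q hq).2
    rw [← hqw]; exact this
  set A := (Ico 0 δ).filter (fun t => 0 < cnt D u t) with hA
  set B := (Ico 0 δ).filter (fun t => 0 < cnt D u (-t)) with hB
  set P := (Ico 0 δ).filter (fun t => 0 < cnt D v (-t)) with hP
  set Q := (Ico 0 δ).filter (fun t => 0 < cnt D v t) with hQ
  have mA : ∀ t, t ∈ A ↔ (0 ≤ t ∧ 0 < cnt D u t) := by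
    intro t; rw [hA, mem_filter, mem_Ico]
    constructor
    · rintro ⟨h1, h2⟩; exact ⟨h1.1, h2⟩
    · rintro ⟨h1, h2⟩; exact ⟨⟨h1, (ru _ h2).2⟩, h2⟩
  have mB : ∀ t, t ∈ B ↔ (0 ≤ t ∧ 0 < cnt D u (-t)) := by
    intro t; rw [hB, mem_filter, mem_Ico]
    constructor
    · rintro ⟨h1, h2⟩; exact ⟨h1.1, h2⟩
    · rintro ⟨h1, h2⟩; exact ⟨⟨h1, by have := (ru _ h2).1; omega⟩, h2⟩
  have mP : ∀ t, t ∈ P ↔ (0 ≤ t ∧ 0 < cnt D v (-t)) := by
    intro t; rw [hP, mem_filter, mem_Ico]
    constructor
    · rintro ⟨h1, h2⟩; exact ⟨h1.1, h2⟩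
    · rintro ⟨h1, h2⟩; exact ⟨⟨h1, by have := (rv _ h2).1; omega⟩, h2⟩
  have mQ : ∀ t, t ∈ Q ↔ (0 ≤ t ∧ 0 < cnt D v t) := by
    intro t; rw [hQ, mem_filter, mem_Ico]
    constructor
    · rintro ⟨h1, h2⟩; exact ⟨h1.1, h2⟩
    · rintro ⟨h1, h2⟩; exact ⟨⟨h1, (rv _ h2).2⟩, h2⟩
  have nu : ∀ w, ¬ (-δ < w ∧ w < δ) → cnt D u w = 0 := by
    intro w hw
    by_contra hne
    exact hw (ru w (by omega))
  have nv : ∀ w, ¬ (-δ < w ∧ w < δ) → cnt D v w = 0 := by
    intro w hw
    by_contra hne
    exact hw (rv w (by omega))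
  have Yc : cnt D Y c = 0 := by
    by_contra hne
    obtain ⟨q, hq, hqw⟩ := (cnt_pos_iff D Y c).1 (by omega)
    exact b.ec q hq hqw
  have u0 : cnt D u 0 = 1 := by
    have := (R1 0 le_rfl hδ.le).1
    rw [add_zero, Yc, nv (0 - δ) (by omega)] at this
    omega
  have v0 : cnt D v 0 = 1 := by
    have := (R1 0 le_rfl hδ.le).2
    rw [add_zero, Yc, nu (0 - δ) (by omega)] at this
    omega
  -- counts
  have ule : ∀ t, cnt D u t ≤ 1 := by
    intro t
    by_cases h1 : -δ < t ∧ t < δ
    · rcases le_total 0 t with h2 | h2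
      · have := (R1 t h2 h1.2.le).1; omega
      · have := (C1 (-t) (by omega) (by omega)).1
        rw [neg_neg] at this; omega
    · rw [nu t h1]; omega
  have vle : ∀ t, cnt D v t ≤ 1 := by
    intro t
    by_cases h1 : -δ < t ∧ t < δ
    · rcases le_total 0 t with h2 | h2
      · have := (R1 t h2 h1.2.le).2; omega
      · have := (R1 (t + δ) (by omega) (by omega)).1
        rw [add_sub_cancel_right] at this; omega
    · rw [nv t h1]; omega
  have cardgen : ∀ g : ι → ℤ, (∀ t, cnt D g t ≤ 1) →
      ((Ico 0 δ).filter (fun t => 0 < cnt D g t)).card = (D.filter (fun q => g q ∈ Ico 0 δ)).card := by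
    intro g hg
    rw [← cnt_sum, card_filter]
    apply sum_congr rfl
    intro t _
    have := hg t
    split_ifs with h1 <;> omega
  have cA : A.card = (D.filter (fun q => 0 ≤ u q)).card := by
    rw [hA, cardgen u ule]
    congr 1
    apply filter_congr
    intro q hq
    have := (R2 q hq).1
    rw [mem_Ico]; simp only [hu] at *; omega
  have cQ : Q.card = (D.filter (fun q => 0 ≤ v q)).card := by
    rw [hQ, cardgen v vle]
    congr 1
    apply filter_congr
    intro q hq
    have := (R2 q hq).2
    rw [mem_Ico]; simp only [hv] at *; omega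
  have cB : B.card = (D.filter (fun q => u q ≤ 0)).card := by
    have e1 : ∀ t, cnt D u (-t) = cnt D (fun q => - u q) t := fun t =>
      cnt_congr D (fun q _ => by constructor <;> intro hx <;> omega)
    have e2 : B = (Ico 0 δ).filter (fun t => 0 < cnt D (fun q => - u q) t) := by
      rw [hB]; apply filter_congr; intro t _; rw [e1]
    rw [e2, cardgen _ (by intro t; rw [← e1]; exact ule _)]
    congr 1
    apply filter_congr
    intro q hq
    have := (R2 q hq).1
    rw [mem_Ico]; simp only [hu] at *; omega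
  have cP : P.card = (D.filter (fun q => v q ≤ 0)).card := by
    have e1 : ∀ t, cnt D v (-t) = cnt D (fun q => - v q) t := fun t =>
      cnt_congr D (fun q _ => by constructor <;> intro hx <;> omega)
    have e2 : P = (Ico 0 δ).filter (fun t => 0 < cnt D (fun q => - v q) t) := by
      rw [hP]; apply filter_congr; intro t _; rw [e1]
    rw [e2, cardgen _ (by intro t; rw [← e1]; exact vle _)]
    congr 1
    apply filter_congr
    intro q hq
    have := (R2 q hq).2
    rw [mem_Ico]; simp only [hv] at *; omega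
  have sumAll : ∀ g1 g2 g3 : ι → ℤ, (∀ t, 0 ≤ t → t ≤ δ → cnt D g1 t + cnt D g2 t + cnt D g3 t = 1) →
      ((D.filter (fun q => g1 q ∈ Icc 0 δ)).card + (D.filter (fun q => g2 q ∈ Icc 0 δ)).card
        + (D.filter (fun q => g3 q ∈ Icc 0 δ)).card : ℤ) = δ + 1 := by
    intro g1 g2 g3 hg
    have : ∑ t ∈ Icc 0 δ, (cnt D g1 t + cnt D g2 t + cnt D g3 t) = ∑ t ∈ Icc 0 δ, 1 := by
      apply sum_congr rfl
      intro t ht
      rw [mem_Icc] at ht
      exact hg t ht.1 ht.2
    rw [sum_add_distrib, sum_add_distrib, cnt_sum, cnt_sum, cnt_sum, sum_const, smul_eq_mul, mul_one,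
      Int.card_Icc] at this
    omega
  have fY : (D.filter (fun q => Y q - c ∈ Icc 0 δ)).card = (D.filter (fun q => Y q ∈ Icc c (c + δ))).card := by
    congr 1; apply filter_congr; intro q _; rw [mem_Icc, mem_Icc]; omega
  have fX : (D.filter (fun q => X q - a ∈ Icc 0 δ)).card = (D.filter (fun q => X q ∈ Icc a (a + δ))).card := by
    congr 1; apply filter_congr; intro q _; rw [mem_Icc, mem_Icc]; omega
  have fu1 : (D.filter (fun q => u q ∈ Icc 0 δ)).card = (D.filter (fun q => 0 ≤ u q)).card := by
    congr 1; apply filter_congr; intro q hq; have := (R2 q hq).1; rw [mem_Icc]; simp only [hu] at *; omega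
  have fu2 : (D.filter (fun q => u q + δ ∈ Icc 0 δ)).card = (D.filter (fun q => u q ≤ 0)).card := by
    congr 1; apply filter_congr; intro q hq; have := (R2 q hq).1; rw [mem_Icc]; simp only [hu] at *; omega
  have fu3 : (D.filter (fun q => - u q ∈ Icc 0 δ)).card = (D.filter (fun q => u q ≤ 0)).card := by
    congr 1; apply filter_congr; intro q hq; have := (R2 q hq).1; rw [mem_Icc]; simp only [hu] at *; omega
  have fv1 : (D.filter (fun q => v q ∈ Icc 0 δ)).card = (D.filter (fun q => 0 ≤ v q)).card := by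
    congr 1; apply filter_congr; intro q hq; have := (R2 q hq).2; rw [mem_Icc]; simp only [hv] at *; omega
  have fv2 : (D.filter (fun q => v q + δ ∈ Icc 0 δ)).card = (D.filter (fun q => v q ≤ 0)).card := by
    congr 1; apply filter_congr; intro q hq; have := (R2 q hq).2; rw [mem_Icc]; simp only [hv] at *; omega
  have S1 := sumAll (fun q => Y q - c) u (fun q => v q + δ) (by
    intro t h0 h1
    have := (R1 t h0 h1).1
    rw [cnt_congr D (f := Y) (g := fun q => Y q - c) (y := c + t) (z := t) (fun q _ => by constructor <;> intro hx <;> omega),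
      cnt_congr D (f := v) (g := fun q => v q + δ) (y := t - δ) (z := t) (fun q _ => by constructor <;> intro hx <;> omega)] at this
    exact this)
  have S2 := sumAll (fun q => Y q - c) (fun q => u q + δ) v (by
    intro t h0 h1
    have := (R1 t h0 h1).2
    rw [cnt_congr D (f := Y) (g := fun q => Y q - c) (y := c + t) (z := t) (fun q _ => by constructor <;> intro hx <;> omega),
      cnt_congr D (f := u) (g := fun q => u q + δ) (y := t - δ) (z := t) (fun q _ => by constructor <;> intro hx <;> omega)] at this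
    exact this)
  have S3 := sumAll (fun q => X q - a) (fun q => - u q) (fun q => v q + δ) (by
    intro t h0 h1
    have := (C1 t h0 h1).1
    rw [cnt_congr D (f := X) (g := fun q => X q - a) (y := a + t) (z := t) (fun q _ => by constructor <;> intro hx <;> omega),
      cnt_congr D (f := v) (g := fun q => v q + δ) (y := t - δ) (z := t) (fun q _ => by constructor <;> intro hx <;> omega),
      cnt_congr D (f := u) (g := fun q => - u q) (y := - t) (z := t) (fun q _ => by constructor <;> intro hx <;> omega)] at this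
    exact this)
  simp only [fY, fX, fu1, fu2, fu3, fv1, fv2] at S1 S2 S3
  have cU : (D.filter (fun q => 0 ≤ u q)).card + (D.filter (fun q => u q ≤ 0)).card = m + 1 := by
    rw [← card_union_add_card_inter, ← filter_or, ← filter_and]
    have e1 : D.filter (fun q => 0 ≤ u q ∨ u q ≤ 0) = D := by
      apply filter_true_of_mem; intro q _; omega
    have e2 : D.filter (fun q => 0 ≤ u q ∧ u q ≤ 0) = D.filter (fun q => u q = 0) := by
      apply filter_congr; intro q _; constructor <;> intro hx <;> omega
    rw [e1, e2, h.card]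
    have := u0
    unfold cnt at this
    rw [this]
  have cV : (D.filter (fun q => 0 ≤ v q)).card + (D.filter (fun q => v q ≤ 0)).card = m + 1 := by
    rw [← card_union_add_card_inter, ← filter_or, ← filter_and]
    have e1 : D.filter (fun q => 0 ≤ v q ∨ v q ≤ 0) = D := by
      apply filter_true_of_mem; intro q _; omega
    have e2 : D.filter (fun q => 0 ≤ v q ∧ v q ≤ 0) = D.filter (fun q => v q = 0) := by
      apply filter_congr; intro q _; constructor <;> intro hx <;> omega
    rw [e1, e2, h.card]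
    have := v0
    unfold cnt at this
    rw [this]
  have cfg : Cfg δ A B P Q := by
    refine ⟨hδ, ?_, ?_, ?_, ?_, ?_, ?_, ?_, ?_, ?_, ?_, ?_, ?_, ?_, ?_, ?_⟩
    · intro t ht; rw [hA, mem_filter, mem_Ico] at ht; exact ht.1
    · intro t ht; rw [hB, mem_filter, mem_Ico] at ht; exact ht.1
    · intro t ht; rw [hP, mem_filter, mem_Ico] at ht; exact ht.1
    · intro t ht; rw [hQ, mem_filter, mem_Ico] at ht; exact ht.1
    · exact (mA 0).2 ⟨le_rfl, by omega⟩
    · exact (mB 0).2 ⟨le_rfl, by rw [neg_zero]; omega⟩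
    · exact (mP 0).2 ⟨le_rfl, by rw [neg_zero]; omega⟩
    · exact (mQ 0).2 ⟨le_rfl, by omega⟩
    · -- exc
      intro t t' e hh
      rw [mP, mQ]
      by_cases ht' : 0 ≤ t'
      · have ht : 0 ≤ t := by
          rcases hh with hh | hh
          · exact ((mA t).1 hh).1
          · exact ((mB t).1 hh).1
        have r1 := R1 t ht (by omega)
        have r2 := R1 t' ht' (by omega)
        have c1 := C1 t ht (by omega)
        have c2 := C1 t' ht' (by omega)
        have e1 : t - δ = -t' := by omega
        have e2 : t' - δ = -t := by omega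
        have e3 : δ - t' = t := by omega
        rw [e1] at r1 c1
        rw [e2] at r2 c2
        rw [e3] at c2
        rcases hh with hh | hh
        · have := ((mA t).1 hh).2
          omega
        · have := ((mB t).1 hh).2
          omega
      · omega
    · -- row
      intro t t' ht ht' e
      rw [mA, mP, mB, mQ]
      have r1 := R1 t ht (by omega)
      have e1 : t - δ = -t' := by omega
      rw [e1] at r1
      omega
    · intro t t' ht ht' e
      rw [mA, mP, mB, mQ]
      have r1 := C1 t ht (by omega)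
      have e1 : t - δ = -t' := by omega
      have e2 : δ - t = t' := by omega
      rw [e1, e2] at r1
      omega
    · -- cov
      intro x x' y y' hx hy h1 h2 h3 h4 hX hY z1 z2 w1 w2 e1 e2 e3 e4
      have Xe : cnt D X (a + x) = 0 := by
        have c1 := C1 x h1 (by omega)
        have e5 : x - δ = -x' := by omega
        rw [e5] at c1
        rw [mB, mP] at hX
        omega
      have Ye : cnt D Y (c + y) = 0 := by
        have c1 := R1 y h3 (by omega)
        have e5 : y - δ = -y' := by omega
        rw [e5] at c1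
        rw [mA, mP] at hY
        omega
      have b1 := b.a0
      have b2 := b.aδ
      have b3 := b.c0
      have b4 := b.cδ
      obtain ⟨q, hq, hh⟩ := h.dom (a + x) (c + y) (by omega) (by omega) (by omega) (by omega)
      rw [mA, mB, mQ, mP]
      rcases hh with hh | hh | hh | hh
      · exfalso
        have := (cnt_pos_iff D X (a + x)).2 ⟨q, hq, hh.symm⟩
        omega
      · exfalso
        have := (cnt_pos_iff D Y (c + y)).2 ⟨q, hq, hh.symm⟩
        omega
      · have k1 : 0 < cnt D u z1 := (cnt_pos_iff D u z1).2 ⟨q, hq, by simp only [hu]; omega⟩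
        rcases le_total 0 z1 with k2 | k2
        · exact Or.inl ⟨k2, k1⟩
        · right; left
          have : -z2 = z1 := by omega
          rw [this]
          exact ⟨by omega, k1⟩
      · have k1 : 0 < cnt D v w1 := (cnt_pos_iff D v w1).2 ⟨q, hq, by simp only [hv]; omega⟩
        rcases le_total 0 w1 with k2 | k2
        · exact Or.inr (Or.inr (Or.inl ⟨k2, k1⟩))
        · right; right; right
          have : -w2 = w1 := by omega
          rw [this]
          exact ⟨by omega, k1⟩
    · rw [cA, cB]; omega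
    · rw [cA, cP]; omega
    · rw [cA, cQ]; omega
  obtain ⟨eB, eP, eQ⟩ := cfg.all_eq
  refine ⟨A, ⟨⟨hδ, cfg.rA, cfg.zA, ?_, ?_⟩, ?_, b.a0, b.aδ, b.c0, b.cδ, ?_, ?_, ?_, ?_⟩⟩
  · intro t t' e ht
    have := (cfg.exc t t' e (Or.inl ht)).1
    rwa [eP] at this
  · intro x hx y hy z1 z2 w1 w2 e1 e2 e3 e4
    have rx := cfg.rA x hx
    have ry := cfg.rA y hy
    have := cfg.cov x (δ - x) y (δ - y) (by ring) (by ring) rx.1 (by omega) ry.1 (by omega)
      (Or.inl (by rw [eB]; exact hx)) (Or.inl hy) z1 z2 w1 w2 e1 e2 e3 e4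
    rw [eB, eQ, eP] at this
    exact this
  · have := cfg.cAB
    rw [cA, cB] at this
    rw [cA]
    omega
  · intro t
    change cnt D u t = _
    have h1 := ule t
    have h2 := mA t
    have h3 := mB (-t)
    rw [eB, neg_neg] at h3
    split_ifs with h4
    · rcases h4 with h4 | h4
      · have := (h2.1 h4).2; omega
      · have := (h3.1 h4).2; omega
    · by_contra hne
      apply h4
      rcases le_total 0 t with h5 | h5
      · exact Or.inl (h2.2 ⟨h5, by omega⟩)
      · exact Or.inr (h3.2 ⟨by omega, by omega⟩)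
  · intro t
    change cnt D v t = _
    have h1 := vle t
    have h2 := mQ t
    have h3 := mP (-t)
    rw [eP, neg_neg] at h3
    rw [eQ] at h2
    split_ifs with h4
    · rcases h4 with h4 | h4
      · have := (h2.1 h4).2; omega
      · have := (h3.1 h4).2; omega
    · by_contra hne
      apply h4
      rcases le_total 0 t with h5 | h5
      · exact Or.inl (h2.2 ⟨h5, by omega⟩)
      · exact Or.inr (h3.2 ⟨by omega, by omega⟩)
  · intro y h0 h1
    by_cases h2 : y < c ∨ c + δ < y
    · rw [R3 y h0 h1 h2, if_neg]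
      rintro (h3 | h3)
      · have := cfg.rA _ h3; omega
      · have := cfg.rA _ h3; omega
    · have r1 := (R1 (y - c) (by omega) (by omega)).1
      have e1 : c + (y - c) = y := by ring
      have e2 : y - c - δ = -(c + δ - y) := by ring
      rw [e1, e2] at r1
      have k1 := mA (y - c)
      have k2 := mP (c + δ - y)
      rw [eP] at k2
      split_ifs with h4
      · rcases h4 with h4 | h4
        · have := (k1.1 h4).2; omega
        · have := (k2.1 h4).2; omega
      · push Not at h4
        have k3 : ¬ 0 < cnt D u (y - c) := fun hh => h4.1 (k1.2 ⟨by omega, hh⟩)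
        have k4 : ¬ 0 < cnt D v (-(c + δ - y)) := fun hh => h4.2 (k2.2 ⟨by omega, hh⟩)
        omega
  · intro y h0 h1
    by_cases h2 : y < a ∨ a + δ < y
    · rw [C3 y h0 h1 h2, if_neg]
      rintro (h3 | h3)
      · have := cfg.rA _ h3; omega
      · have := cfg.rA _ h3; omega
    · have r1 := (C1 (y - a) (by omega) (by omega)).1
      have e1 : a + (y - a) = y := by ring
      have e2 : y - a - δ = -(a + δ - y) := by ring
      rw [e1, e2] at r1
      have k1 := mB (y - a)
      have k2 := mP (a + δ - y)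
      rw [eP] at k2
      rw [eB] at k1
      split_ifs with h4
      · rcases h4 with h4 | h4
        · have := (k1.1 h4).2; omega
        · have := (k2.1 h4).2; omega
      · push Not at h4
        have k3 : ¬ 0 < cnt D u (-(y - a)) := fun hh => h4.1 (k1.2 ⟨by omega, hh⟩)
        have k4 : ¬ 0 < cnt D v (-(a + δ - y)) := fun hh => h4.2 (k2.2 ⟨by omega, hh⟩)
        omega

end Dom

end Pool.Agent.H642R3.Q
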