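import Pool.Agent.H642R3.Q.Link
import Pool.Agent.H642R3.Q.Halved

set_option autoImplicit false

namespace Pool.Agent.H642R3.Q

open Finset

variable {ι : Type}

lemma fib_sumQ (D : Finset ι) (g : ι → ℤ) (f : ℤ → ℚ) (W : Finset ℤ) (h : ∀ q ∈ D, g q ∈ W) :
    ∑ q ∈ D, f (g q) = ∑ w ∈ W, (cnt D g w : ℚ) * f w := by
  rw [← sum_fiberwise_of_maps_to h]
  apply sum_congr rfl
  intro w _
  unfold cnt
  rw [← nsmul_eq_mul, ← sum_const]
  apply sum_congr rfl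
  intro q hq
  rw [(mem_filter.1 hq).2]

/-- sums over differences -/
lemma sum_pm {K : Finset ℤ} (hnn : ∀ t ∈ K, 0 ≤ t) (h0 : (0 : ℤ) ∈ K) (D : Finset ι) (g : ι → ℤ)
    (hg : ∀ t : ℤ, cnt D g t = if t ∈ K ∨ -t ∈ K then 1 else 0) (f : ℤ → ℚ) :
    ∑ q ∈ D, f (g q) = ∑ t ∈ K, f t + ∑ t ∈ K, f (-t) - f 0 := by
  classical
  have hmaps : ∀ q ∈ D, g q ∈ K ∪ K.image (fun t => -t) := by
    intro q hq
    have h1 : 0 < cnt D g (g q) := (cnt_pos_iff D g (g q)).2 ⟨q, hq, rfl⟩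
    rw [hg] at h1
    split_ifs at h1 with h2
    · rw [mem_union, mem_image]
      rcases h2 with h2 | h2
      · exact Or.inl h2
      · exact Or.inr ⟨-g q, h2, by ring⟩
    · exact absurd h1 (lt_irrefl _)
  rw [fib_sumQ D g f _ hmaps]
  have e1 : ∑ w ∈ K ∪ K.image (fun t => -t), (cnt D g w : ℚ) * f w = ∑ w ∈ K ∪ K.image (fun t => -t), f w := by
    apply sum_congr rfl
    intro w hw
    rw [hg, if_pos]
    · simp
    · rw [mem_union, mem_image] at hw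
      rcases hw with hw | ⟨t, ht, rfl⟩
      · exact Or.inl hw
      · right; rw [neg_neg]; exact ht
  rw [e1]
  have e2 := sum_union_inter (s₁ := K) (s₂ := K.image (fun t => -t)) (f := f)
  have e3 : K ∩ K.image (fun t => -t) = {0} := by
    ext t
    rw [mem_inter, mem_image, mem_singleton]
    constructor
    · rintro ⟨h1, s, h2, rfl⟩
      have := hnn _ h1
      have := hnn _ h2
      omega
    · rintro rfl
      exact ⟨h0, 0, h0, by ring⟩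
  have e4 : ∑ t ∈ K.image (fun t => -t), f t = ∑ t ∈ K, f (-t) := by
    rw [sum_image]
    intro a _ b _ hab
    have : -a = -b := hab
    omega
  rw [e3, sum_singleton, e4] at e2
  linarith

/-- sums over occupied rows -/
lemma sum_rows {K : Finset ℤ} {δ c : ℤ} {m : ℕ} (hK : ∀ t ∈ K, 0 ≤ t ∧ t < δ)
    (hexc : ∀ t t', t + t' = δ → t ∈ K → t' ∉ K) (c0 : 0 ≤ c) (cδ : c + δ ≤ 2 * m)
    (D : Finset ι) (Y : ι → ℤ) (rY : ∀ q ∈ D, 0 ≤ Y q ∧ Y q ≤ 2 * m)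
    (hY : ∀ y : ℤ, 0 ≤ y → y ≤ 2 * m → cnt D Y y = if y - c ∈ K ∨ c + δ - y ∈ K then 0 else 1)
    (f : ℤ → ℚ) :
    ∑ q ∈ D, f (Y q - m) = ∑ j ∈ Icc (-(m : ℤ)) m, f j
      - (∑ t ∈ K, f (c + t - m) + ∑ t ∈ K, f (c + δ - t - m)) := by
  classical
  have hmaps : ∀ q ∈ D, Y q ∈ Icc (0 : ℤ) (2 * m) := by
    intro q hq; rw [mem_Icc]; exact rY q hq
  rw [fib_sumQ D Y (fun y => f (y - m)) _ hmaps]
  have e1 : ∑ w ∈ Icc (0 : ℤ) (2 * m), (cnt D Y w : ℚ) * f (w - m) =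
      ∑ w ∈ Icc (0 : ℤ) (2 * m), f (w - m) - ∑ w ∈ Icc (0 : ℤ) (2 * m), (if w - c ∈ K ∨ c + δ - w ∈ K then f (w - m) else 0) := by
    rw [← sum_sub_distrib]
    apply sum_congr rfl
    intro w hw
    rw [mem_Icc] at hw
    rw [hY w hw.1 hw.2]
    split_ifs <;> simp
  rw [e1, ← sum_filter]
  have e2 : (Icc (0 : ℤ) (2 * m)).filter (fun w => w - c ∈ K ∨ c + δ - w ∈ K)
      = K.image (fun t => c + t) ∪ K.image (fun t => c + δ - t) := by
    ext w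
    rw [mem_filter, mem_Icc, mem_union, mem_image, mem_image]
    constructor
    · rintro ⟨_, h2 | h2⟩
      · exact Or.inl ⟨_, h2, by ring⟩
      · exact Or.inr ⟨_, h2, by ring⟩
    · rintro (⟨t, ht, rfl⟩ | ⟨t, ht, rfl⟩)
      · have := hK t ht
        refine ⟨by omega, Or.inl ?_⟩
        rw [add_sub_cancel_left]; exact ht
      · have := hK t ht
        refine ⟨by omega, Or.inr ?_⟩
        rw [sub_sub_cancel]; exact ht
  rw [e2, sum_union, sum_image, sum_image]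
  · congr 1
    have e3 : Icc (0 : ℤ) (2 * m) = (Icc (-(m : ℤ)) m).image (fun j : ℤ => j + m) := by
      ext w
      rw [mem_Icc, mem_image]
      constructor
      · rintro h1
        exact ⟨w - m, by rw [mem_Icc]; omega, by ring⟩
      · rintro ⟨j, hj, rfl⟩
        rw [mem_Icc] at hj; omega
    rw [e3, sum_image]
    · apply sum_congr rfl
      intro j _
      rw [add_sub_cancel_right]
    · intro x _ y _ hxy
      have : x + (m : ℤ) = y + m := hxy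
      omega
  · intro x _ y _ hxy
    have : c + δ - x = c + δ - y := hxy
    omega
  · intro x _ y _ hxy
    have : c + x = c + y := hxy
    omega
  · rw [disjoint_left]
    intro w hw hw2
    rw [mem_image] at hw hw2
    obtain ⟨t, ht, rfl⟩ := hw
    obtain ⟨s, hs, hst⟩ := hw2
    exact hexc t s (by omega) ht hs

lemma sum_Icc_id (m : ℕ) : ∑ j ∈ Icc (-(m : ℤ)) m, ((j : ℤ) : ℚ) = 0 := by
  have : ∑ j ∈ Icc (-(m : ℤ)) m, ((j : ℤ) : ℚ) = ∑ j ∈ Icc (-(m : ℤ)) m, ((-j : ℤ) : ℚ) := by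
    apply sum_nbij' (fun j => -j) (fun j => -j)
    · intro j hj; rw [mem_Icc] at *; omega
    · intro j hj; rw [mem_Icc] at *; omega
    · intro j _; ring
    · intro j _; ring
    · intro j _; rw [neg_neg]
  have h2 : ∑ j ∈ Icc (-(m : ℤ)) m, ((-j : ℤ) : ℚ) = - ∑ j ∈ Icc (-(m : ℤ)) m, ((j : ℤ) : ℚ) := by
    rw [← sum_neg_distrib]; apply sum_congr rfl; intro j _; push_cast; ring
  linarith

lemma sum_abs_range (n : ℕ) : ∑ i ∈ range n, |(((i : ℤ) + 1 : ℤ) : ℚ)| = n * (n + 1) / 2 := by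
  induction n with
  | zero => simp
  | succ n ih =>
    rw [sum_range_succ, ih, abs_of_nonneg (by positivity)]
    push_cast; ring

/-- all moment facts -/
theorem moments {m : ℕ} {D : Finset ι} {X Y : ι → ℤ} (h : Dom m D X Y) {K : Finset ℤ} {a c δ : ℤ}
    (d : Data m D X Y K a c δ) :
    a = c ∧ δ = 2 * (m - a) ∧
    3 * ∑ t ∈ K, (t ^ 2 + 2 * (t - (m - a)) ^ 2) = (m : ℤ) * (m + 1) * (2 * m + 1) ∧
    (m : ℤ) * (m + 1) ≤ 2 * ∑ t ∈ K, (t + |t - (m - a)|) := by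
  have hnn : ∀ t ∈ K, 0 ≤ t := fun t ht => (d.ks.rg t ht).1
  have hU := sum_pm hnn d.ks.z D _ d.uIn
  have hV := sum_pm hnn d.ks.z D _ d.vIn
  have hY := sum_rows d.ks.rg d.ks.exc d.c0 d.cδ D Y h.rY d.yIn
  have hX := sum_rows d.ks.rg d.ks.exc d.a0 d.aδ D X h.rX d.xIn
  have hcK : (K.card : ℚ) = (m + 1) / 2 := by
    have := d.card
    have h2 : ((2 * K.card : ℕ) : ℚ) = ((m + 1 : ℕ) : ℚ) := by rw [this]
    push_cast at h2
    linarith
  have hcD : (D.card : ℚ) = m := by rw [h.card]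
  -- first moments
  have U1 := hU (fun t => (t : ℚ))
  have V1 := hV (fun t => (t : ℚ))
  have Y1 := hY (fun t => (t : ℚ))
  have X1 := hX (fun t => (t : ℚ))
  rw [sum_Icc_id] at Y1 X1
  have zU : ∑ t ∈ K, ((t : ℤ) : ℚ) + ∑ t ∈ K, ((-t : ℤ) : ℚ) - ((0 : ℤ) : ℚ) = 0 := by
    rw [← sum_add_distrib]
    simp
  rw [zU] at U1 V1
  have kY : ∑ t ∈ K, ((c + t - m : ℤ) : ℚ) + ∑ t ∈ K, ((c + δ - t - m : ℤ) : ℚ) = (m + 1) / 2 * (2 * c + δ - 2 * m) := by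
    rw [← sum_add_distrib]
    have : ∀ t ∈ K, (((c + t - m : ℤ) : ℚ) + ((c + δ - t - m : ℤ) : ℚ)) = 2 * c + δ - 2 * m := by
      intro t _; push_cast; ring
    rw [sum_congr rfl this, sum_const, nsmul_eq_mul, hcK]
  have kX : ∑ t ∈ K, ((a + t - m : ℤ) : ℚ) + ∑ t ∈ K, ((a + δ - t - m : ℤ) : ℚ) = (m + 1) / 2 * (2 * a + δ - 2 * m) := by
    rw [← sum_add_distrib]
    have : ∀ t ∈ K, (((a + t - m : ℤ) : ℚ) + ((a + δ - t - m : ℤ) : ℚ)) = 2 * a + δ - 2 * m := by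
      intro t _; push_cast; ring
    rw [sum_congr rfl this, sum_const, nsmul_eq_mul, hcK]
  rw [kY] at Y1
  rw [kX] at X1
  have dU : ∑ q ∈ D, (((Y q - c) - (X q - a) : ℤ) : ℚ) = ∑ q ∈ D, ((Y q - m : ℤ) : ℚ) - ∑ q ∈ D, ((X q - m : ℤ) : ℚ) + m * (a - c) := by
    rw [← hcD, ← sum_sub_distrib]
    rw [← nsmul_eq_mul, ← sum_const, ← sum_add_distrib]
    apply sum_congr rfl
    intro q _; push_cast; ring
  have dV : ∑ q ∈ D, (((X q - a) + (Y q - c) - δ : ℤ) : ℚ) = ∑ q ∈ D, ((Y q - m : ℤ) : ℚ) + ∑ q ∈ D, ((X q - m : ℤ) : ℚ) + m * (2 * m - a - c - δ) := by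
    have e0 : (m : ℚ) * (2 * m - a - c - δ) = ∑ q ∈ D, (2 * (m : ℚ) - a - c - δ) := by
      rw [sum_const, nsmul_eq_mul, hcD]
    rw [e0, ← sum_add_distrib, ← sum_add_distrib]
    apply sum_congr rfl
    intro q _; push_cast; ring
  rw [dU, Y1, X1] at U1
  rw [dV, Y1, X1] at V1
  have hac : (a : ℚ) = c := by
    have h1 : (2 * (m : ℚ) + 1) * (a - c) = 0 := by linarith
    have h2 : (2 * (m : ℚ) + 1) ≠ 0 := by positivity
    have := (mul_eq_zero.1 h1).resolve_left h2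
    linarith
  have hδ : (δ : ℚ) = 2 * (m - a) := by
    rw [← hac] at V1
    have h1 : (2 * (m : ℚ) + 1) * (2 * m - 2 * a - δ) = 0 := by linarith
    have h2 : (2 * (m : ℚ) + 1) ≠ 0 := by positivity
    have := (mul_eq_zero.1 h1).resolve_left h2
    linarith
  have hacZ : a = c := by exact_mod_cast hac
  have hδZ : δ = 2 * (m - a) := by exact_mod_cast hδ
  subst hacZ
  refine ⟨rfl, hδZ, ?_, ?_⟩
  · -- second moment
    have U2 := hU (fun t => (t : ℚ) ^ 2)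
    have V2 := hV (fun t => (t : ℚ) ^ 2)
    have Y2 := hY (fun t => (t : ℚ) ^ 2)
    have X2 := hX (fun t => (t : ℚ) ^ 2)
    have dUV : ∑ q ∈ D, ((((Y q - a) - (X q - a) : ℤ) : ℚ) ^ 2) + ∑ q ∈ D, ((((X q - a) + (Y q - a) - δ : ℤ) : ℚ) ^ 2)
        = 2 * ∑ q ∈ D, (((Y q - m : ℤ) : ℚ) ^ 2) + 2 * ∑ q ∈ D, (((X q - m : ℤ) : ℚ) ^ 2) := by
      rw [← sum_add_distrib, mul_sum, mul_sum, ← sum_add_distrib]
      apply sum_congr rfl
      intro q _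
      push_cast
      rw [hδ]
      ring
    have n1 : ∑ t ∈ K, (((-t : ℤ) : ℚ) ^ 2) = ∑ t ∈ K, ((t : ℚ) ^ 2) := by
      apply sum_congr rfl; intro t _; push_cast; ring
    have n2 : ∑ t ∈ K, (((a + t - m : ℤ) : ℚ) ^ 2) = ∑ t ∈ K, (((t : ℚ) - (m - a)) ^ 2) := by
      apply sum_congr rfl; intro t _; push_cast; ring
    have n3 : ∑ t ∈ K, (((a + δ - t - m : ℤ) : ℚ) ^ 2) = ∑ t ∈ K, (((t : ℚ) - (m - a)) ^ 2) := by
      apply sum_congr rfl; intro t _; push_cast; rw [hδ]; ring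
    have n4 : ∑ j ∈ Icc (-(m : ℤ)) m, ((j : ℚ) ^ 2) = m * (m + 1) * (2 * m + 1) / 3 := by
      rw [sum_Icc_sym (fun w => (w : ℚ) ^ 2) (by intro i; push_cast; ring), sum_sq_range]
      push_cast
      ring
    rw [n4, n2, n3] at Y2 X2
    rw [n1] at U2 V2
    rw [U2, V2, Y2, X2] at dUV
    have n0 : (((0 : ℤ) : ℚ)) ^ 2 = 0 := by norm_num
    rw [n0] at dUV
    have fin1 : 3 * ∑ t ∈ K, ((t : ℚ) ^ 2 + 2 * ((t : ℚ) - (m - a)) ^ 2) = (m : ℚ) * (m + 1) * (2 * m + 1) := by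
      rw [sum_add_distrib, ← mul_sum]
      linarith
    have fin2 : ((3 * ∑ t ∈ K, (t ^ 2 + 2 * (t - (m - a)) ^ 2) : ℤ) : ℚ) = (((m : ℤ) * (m + 1) * (2 * m + 1) : ℤ) : ℚ) := by
      push_cast
      exact fin1
    exact_mod_cast fin2
  · have U2 := hU (fun t => |(t : ℚ)|)
    have V2 := hV (fun t => |(t : ℚ)|)
    have Y2 := hY (fun t => |(t : ℚ)|)
    have X2 := hX (fun t => |(t : ℚ)|)
    have dUV : ∑ q ∈ D, |(((Y q - m : ℤ) : ℚ))| + ∑ q ∈ D, |(((X q - m : ℤ) : ℚ))| ≤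
        ∑ q ∈ D, |((((Y q - a) - (X q - a) : ℤ) : ℚ))| + ∑ q ∈ D, |((((X q - a) + (Y q - a) - δ : ℤ) : ℚ))| := by
      rw [← sum_add_distrib, ← sum_add_distrib]
      apply sum_le_sum
      intro q _
      have e1 : ((((Y q - a) - (X q - a) : ℤ) : ℚ)) = ((Y q - m : ℤ) : ℚ) - ((X q - m : ℤ) : ℚ) := by push_cast; ring
      have e2 : ((((X q - a) + (Y q - a) - δ : ℤ) : ℚ)) = ((Y q - m : ℤ) : ℚ) + ((X q - m : ℤ) : ℚ) := by
        push_cast; rw [hδ]; ring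
      rw [e1, e2]
      rcases abs_cases (((Y q - m : ℤ) : ℚ)) with h1 | h1 <;> rcases abs_cases (((X q - m : ℤ) : ℚ)) with h2 | h2 <;>
        rcases abs_cases (((Y q - m : ℤ) : ℚ) - ((X q - m : ℤ) : ℚ)) with h3 | h3 <;>
        rcases abs_cases (((Y q - m : ℤ) : ℚ) + ((X q - m : ℤ) : ℚ)) with h4 | h4 <;> linarith
    have n1 : ∑ t ∈ K, |(((-t : ℤ) : ℚ))| = ∑ t ∈ K, (t : ℚ) := by
      apply sum_congr rfl; intro t ht
      have : (0 : ℚ) ≤ t := by exact_mod_cast hnn t ht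
      push_cast; rw [abs_neg, abs_of_nonneg this]
    have n1' : ∑ t ∈ K, |((t : ℚ))| = ∑ t ∈ K, (t : ℚ) := by
      apply sum_congr rfl; intro t ht
      have : (0 : ℚ) ≤ t := by exact_mod_cast hnn t ht
      rw [abs_of_nonneg this]
    have n2 : ∑ t ∈ K, |(((a + t - m : ℤ) : ℚ))| = ∑ t ∈ K, |((t : ℚ) - (m - a))| := by
      apply sum_congr rfl; intro t _; push_cast; congr 1; ring
    have n3 : ∑ t ∈ K, |(((a + δ - t - m : ℤ) : ℚ))| = ∑ t ∈ K, |((t : ℚ) - (m - a))| := by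
      apply sum_congr rfl; intro t _; push_cast; rw [hδ, ← abs_neg]; congr 1; ring
    have n4 : ∑ j ∈ Icc (-(m : ℤ)) m, |((j : ℚ))| = m * (m + 1) := by
      rw [sum_Icc_sym (fun w => |(w : ℚ)|) (by intro i; push_cast; rw [abs_neg]), sum_abs_range]
      simp
      ring
    rw [U2, V2, Y2, X2, n1, n1', n2, n3, n4] at dUV
    have n0 : |(((0 : ℤ) : ℚ))| = 0 := by norm_num
    rw [n0] at dUV
    have fin1 : (m : ℚ) * (m + 1) ≤ 2 * ∑ t ∈ K, ((t : ℚ) + |((t : ℚ) - (m - a))|) := by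
      rw [sum_add_distrib]
      linarith
    have fin2 : (((m : ℤ) * (m + 1) : ℤ) : ℚ) ≤ ((2 * ∑ t ∈ K, (t + |t - (m - a)|) : ℤ) : ℚ) := by
      push_cast
      exact fin1
    exact_mod_cast fin2

end Pool.Agent.H642R3.Q
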