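import Pool.Agent.H642R3.Q.Cert

set_option autoImplicit false

namespace Pool.Agent.H642R3.Q

def Fo (d c z : ℚ) : ℚ := if d ≤ z then (z - d) ^ 3 / 3 - c * (z - d) ^ 2 / 2 else 0

def FF (d c z : ℚ) : ℚ := Fo d c z - Fo d c (-z)

lemma Fo_zero {d c z : ℚ} (h : z ≤ d) : Fo d c z = 0 := by
  unfold Fo
  split_ifs with h2
  · have : z = d := le_antisymm h h2
    subst this
    ring
  · rfl

lemma Fo_pos {d c z : ℚ} (h : d ≤ z) : Fo d c z = (z - d) ^ 3 / 3 - c * (z - d) ^ 2 / 2 := by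
  unfold Fo
  rw [if_pos h]

lemma FF_neg (d c z : ℚ) : FF d c (-z) = - FF d c z := by
  unfold FF
  rw [neg_neg]
  ring

lemma eq_tele_nonneg {d c t : ℚ} (hd : 1 ≤ d) (hc : 2 / 3 ≤ c) (ht : 0 ≤ t) :
    (FF d c (t + 1) - FF d c (t - 1)) / 2 - 1 / 3 ≤ eq0 d (d + c) t := by
  unfold FF
  rw [Fo_zero (z := -(t + 1)) (by linarith), Fo_zero (z := -(t - 1)) (by linarith)]
  unfold eq0
  by_cases h1 : d + 1 ≤ t
  · rw [if_pos (by linarith), Fo_pos (z := t + 1) (by linarith), Fo_pos (z := t - 1) (by linarith)]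
    nlinarith
  · push Not at h1
    rw [Fo_zero (z := t - 1) (by linarith)]
    by_cases h2 : d ≤ t
    · rw [if_pos h2, Fo_pos (z := t + 1) (by linarith)]
      obtain ⟨s, rfl⟩ : ∃ s, t = d + s := ⟨t - d, by ring⟩
      have hs0 : 0 ≤ s := by linarith
      have hs1 : s ≤ 1 := by linarith
      have e1 : (d + s + 1 - d) = s + 1 := by ring
      have e2 : (d + s - d) = s := by ring
      have e3 : (d + s - (d + c)) = s - c := by ring
      rw [e1, e2, e3]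
      nlinarith [mul_nonneg (by linarith : (0:ℚ) ≤ c) (sq_nonneg (1 - s)), mul_nonneg hs0 (sub_nonneg.2 hs1), mul_nonneg (mul_nonneg hs0 hs0) (sub_nonneg.2 hs1)]
    · push Not at h2
      rw [if_neg (not_le.2 h2)]
      by_cases h3 : d ≤ t + 1
      · rw [Fo_pos h3]
        obtain ⟨s, rfl⟩ : ∃ s, t = d + s - 1 := ⟨t - d + 1, by ring⟩
        have hs0 : 0 ≤ s := by linarith
        have hs1 : s ≤ 1 := by linarith
        have e1 : (d + s - 1 + 1 - d) = s := by ring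
        rw [e1]
        have : s ^ 3 ≤ s ^ 2 := by nlinarith [mul_nonneg (mul_nonneg hs0 hs0) (sub_nonneg.2 hs1)]
        nlinarith [mul_nonneg (by linarith : (0:ℚ) ≤ c - 2/3) (sq_nonneg s)]
      · push Not at h3
        rw [Fo_zero h3.le]
        norm_num

lemma eq_tele {d c t : ℚ} (hd : 1 ≤ d) (hc : 2 / 3 ≤ c) :
    (FF d c (t + 1) - FF d c (t - 1)) / 2 - 1 / 3 ≤ eq0 d (d + c) |t| := by
  rcases le_total 0 t with h | h
  · rw [abs_of_nonneg h]; exact eq_tele_nonneg hd hc h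
  · rw [abs_of_nonpos h]
    have := eq_tele_nonneg (t := -t) hd hc (by linarith)
    have e1 : -t + 1 = -(t - 1) := by ring
    have e2 : -t - 1 = -(t + 1) := by ring
    rw [e1, e2, FF_neg, FF_neg] at this
    linarith

def PP (d c w0 w : ℚ) : ℚ :=
  (d * (d + c) - w0 ^ 2) * w + (2 * w0 - (d + c + d)) * w ^ 2 / 2 + FF d c (w - w0) + FF d c w0

lemma PP_zero (d c w0 : ℚ) : PP d c w0 0 = 0 := by
  unfold PP
  rw [zero_sub, FF_neg]
  ring

lemma psi_tele {d c w0 : ℚ} (w : ℚ) (hd : 1 ≤ d) (hc : 2 / 3 ≤ c) :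
    (PP d c w0 (w + 1) - PP d c w0 (w - 1)) / 2 - 1 / 3 ≤ psi d (d + c) w0 w := by
  unfold PP psi
  have := eq_tele (t := w - w0) hd hc
  have e1 : w + 1 - w0 = w - w0 + 1 := by ring
  have e2 : w - 1 - w0 = w - w0 - 1 := by ring
  rw [e1, e2]
  nlinarith

lemma psi_tele0 {d c w0 : ℚ} (hd : 1 ≤ d) (hc : 2 / 3 ≤ c) (hw : d + c + 2 ≤ w0) :
    PP d c w0 1 - 1 / 3 - (2 * w0 - (d + c + d)) / 2 ≤ psi d (d + c) w0 0 := by
  unfold PP psi eq0
  have h1 : |0 - w0| = w0 := by rw [zero_sub, abs_neg, abs_of_nonneg (by linarith)]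
  rw [h1, if_pos (by linarith)]
  have h2 : FF d c (1 - w0) = - FF d c (w0 - 1) := by
    rw [← FF_neg]; congr 1; ring
  rw [h2]
  unfold FF
  rw [Fo_zero (z := -(w0 - 1)) (by linarith), Fo_zero (z := -w0) (by linarith),
    Fo_pos (z := w0 - 1) (by linarith), Fo_pos (z := w0) (by linarith)]
  nlinarith

/-- sum over odd numbers of absolute value at most 2n-1 -/
def SLo (f : ℚ → ℚ) (n : ℕ) : ℚ := 2 * ∑ i ∈ Finset.range n, f (2 * i + 1)

/-- sum over even numbers of absolute value at most 2n -/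
def SLe (f : ℚ → ℚ) (n : ℕ) : ℚ := f 0 + 2 * ∑ i ∈ Finset.range n, f (2 * (i + 1))

lemma SLo_bound {d c w0 : ℚ} (n : ℕ) (hd : 1 ≤ d) (hc : 2 / 3 ≤ c) :
    PP d c w0 (2 * n) - 2 * n / 3 ≤ SLo (psi d (d + c) w0) n := by
  unfold SLo
  induction n with
  | zero => simp [PP_zero]
  | succ n ih =>
    rw [Finset.sum_range_succ]
    have := psi_tele (w0 := w0) (2 * n + 1) hd hc
    have e1 : (2 * (n:ℚ) + 1 + 1) = 2 * ((n + 1 : ℕ) : ℚ) := by push_cast; ring
    have e2 : (2 * (n:ℚ) + 1 - 1) = 2 * n := by ring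
    rw [e1, e2] at this
    have e3 : (2 * ((n + 1 : ℕ) : ℚ)) / 3 = 2 * n / 3 + 2 / 3 := by push_cast; ring
    rw [e3]
    linarith

lemma SLe_bound {d c w0 : ℚ} (n : ℕ) (hd : 1 ≤ d) (hc : 2 / 3 ≤ c) (hw : d + c + 2 ≤ w0) :
    PP d c w0 (2 * n + 1) - (2 * n + 1) / 3 - (2 * w0 - (d + c + d)) / 2
      ≤ SLe (psi d (d + c) w0) n := by
  unfold SLe
  induction n with
  | zero =>
    have := psi_tele0 (w0 := w0) hd hc hw
    simp only [Nat.cast_zero, mul_zero, zero_add, Finset.range_zero, Finset.sum_empty, add_zero]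
    exact this
  | succ n ih =>
    rw [Finset.sum_range_succ]
    have := psi_tele (w0 := w0) (2 * (n + 1)) hd hc
    have e1 : (2 * ((n:ℚ) + 1) + 1) = 2 * ((n + 1 : ℕ) : ℚ) + 1 := by push_cast; ring
    have e2 : (2 * ((n:ℚ) + 1) - 1) = 2 * n + 1 := by ring
    rw [e1, e2] at this
    have e3 : (2 * ((n + 1 : ℕ) : ℚ) + 1) / 3 = (2 * n + 1) / 3 + 2 / 3 := by push_cast; ring
    rw [e3]
    linarith

def Gf (d c x : ℚ) : ℚ := if d + c ≤ x then (x - (d + c)) ^ 3 / 3 + c * (x - (d + c)) ^ 2 / 2 else 0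

lemma Gf_nonneg {d c x : ℚ} (hc : 0 ≤ c) : 0 ≤ Gf d c x := by
  unfold Gf
  split_ifs with h
  · have : 0 ≤ x - (d + c) := by linarith
    positivity
  · exact le_rfl

lemma g_tele {d c a : ℚ} (hc : 0 ≤ c) :
    gq d (d + c) a ≤ Gf d c (a + 1 / 2) - Gf d c (a - 1 / 2) := by
  by_cases h : d + c ≤ a - 1 / 2
  · unfold gq Gf
    rw [if_pos (by linarith), if_pos (by linarith), if_pos h]
    obtain ⟨s, rfl⟩ : ∃ s, a = d + c + s := ⟨a - (d + c), by ring⟩
    have e1 : d + c + s - d = s + c := by ring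
    have e2 : d + c + s - (d + c) = s := by ring
    have e3 : d + c + s + 1 / 2 - (d + c) = s + 1 / 2 := by ring
    have e4 : d + c + s - 1 / 2 - (d + c) = s - 1 / 2 := by ring
    rw [e1, e2, e3, e4]
    nlinarith
  · push Not at h
    have h0 : Gf d c (a - 1 / 2) = 0 := by unfold Gf; rw [if_neg (not_le.2 h)]
    rw [h0, sub_zero]
    by_cases h2 : d + c ≤ a
    · unfold gq Gf
      rw [if_pos h2, if_pos (by linarith)]
      obtain ⟨s, rfl⟩ : ∃ s, a = d + c + s := ⟨a - (d + c), by ring⟩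
      have e1 : d + c + s - d = s + c := by ring
      have e2 : d + c + s - (d + c) = s := by ring
      have e3 : d + c + s + 1 / 2 - (d + c) = s + 1 / 2 := by ring
      rw [e1, e2, e3]
      have hs : 0 ≤ s := by linarith
      have hs2 : s ≤ 1 / 2 := by linarith
      have hk : (1 / 2 - s) ^ 3 ≤ 1 / 8 := by
        have : (1 / 2 - s) ^ 3 ≤ (1 / 2 : ℚ) ^ 3 := pow_le_pow_left₀ (by linarith) (by linarith) 3
        norm_num at this ⊢; linarith
      nlinarith [mul_nonneg hc (sq_nonneg (s - 1 / 2))]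
    · have : gq d (d + c) a = 0 := by unfold gq; rw [if_neg h2]
      rw [this]
      exact Gf_nonneg hc

lemma g_sum {d c : ℚ} (hc : 0 ≤ c) (k : ℕ) :
    ∑ i ∈ Finset.range k, gq d (d + c) (i + 1) ≤ Gf d c (k + 1 / 2) := by
  have key : ∑ i ∈ Finset.range k, gq d (d + c) (i + 1) ≤ Gf d c (k + 1 / 2) - Gf d c (1 / 2) := by
    induction k with
    | zero => simp
    | succ n ih =>
      rw [Finset.sum_range_succ]
      have := g_tele (d := d) (a := (n:ℚ) + 1) hc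
      have e1 : ((n:ℚ) + 1 + 1 / 2) = ((n + 1 : ℕ) : ℚ) + 1 / 2 := by push_cast; ring
      have e2 : ((n:ℚ) + 1 - 1 / 2) = (n : ℚ) + 1 / 2 := by ring
      rw [e1, e2] at this
      linarith
  linarith [Gf_nonneg (d := d) (x := 1 / 2) hc]

/-- the final polynomial inequality -/
lemma final_poly {k l : ℚ} (hk : 100 ≤ k) (hl : 15773 / 10000 * k + 178865 / 100000 ≤ l) :
    4 * ((k + 1 / 2 - 3 / 11 * k) ^ 3 / 3
        + (3 / 11 * k - 1 / 8 * k) * (k + 1 / 2 - 3 / 11 * k) ^ 2 / 2) <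
      ((1 / 8 * k) * (3 / 11 * k) - (l / 2) ^ 2) * (l - 1)
        + (2 * (l / 2) - (3 / 11 * k + 1 / 8 * k)) * (l - 1) ^ 2 / 2
        + ((l / 2 - 1 - 1 / 8 * k) ^ 3 / 3 - (3 / 11 * k - 1 / 8 * k) * (l / 2 - 1 - 1 / 8 * k) ^ 2 / 2)
        + ((l / 2 - 1 / 8 * k) ^ 3 / 3 - (3 / 11 * k - 1 / 8 * k) * (l / 2 - 1 / 8 * k) ^ 2 / 2)
        - (l - 1) / 3 - (2 * (l / 2) - (3 / 11 * k + 1 / 8 * k)) / 2 := by
  obtain ⟨t, rfl⟩ : ∃ t, k = t + 100 := ⟨k - 100, by ring⟩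
  obtain ⟨s, rfl⟩ : ∃ s, l = 15773 / 10000 * (t + 100) + 178865 / 100000 + s :=
    ⟨l - (15773 / 10000 * (t + 100) + 178865 / 100000), by ring⟩
  have ht : 0 ≤ t := by linarith
  have hs : 0 ≤ s := by linarith
  rw [← sub_pos]
  ring_nf
  positivity

end Pool.Agent.H642R3.Q
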